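import Mathlib

set_option autoImplicit false

namespace R124.IP

lemma exists_basis (n : ℕ) : ∀ (E : Type) [NormedAddCommGroup E] [NormedSpace ℝ E]
    [FiniteDimensional ℝ E] (Γ : AddSubgroup E), Module.finrank ℝ E = n →
    (∀ r : ℝ, {x | x ∈ Γ ∧ ‖x‖ ≤ r}.Finite) →
    ∃ b : Fin n → E, (∀ i, b i ∈ Γ) ∧ ∀ x ∈ Γ, ∃ c : Fin n → ℤ, x = ∑ i, c i • b i ∧
      ∀ i, |(c i : ℝ)| * ‖b i‖ ≤ (4 * n + 4) ^ n * ‖x‖ := by
  induction n with
  | zero =>
    intro E _ _ _ Γ hn _
    have hsub : Subsingleton E := Module.finrank_zero_iff.1 hn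
    exact ⟨fun i => i.elim0, fun i => i.elim0, fun x _ =>
      ⟨fun i => i.elim0, Subsingleton.elim _ _, fun i => i.elim0⟩⟩
  | succ n ih =>
    intro E _ _ _ Γ hn hfin
    by_cases htriv : ∀ x ∈ Γ, x = 0
    · refine ⟨fun _ => 0, fun i => Γ.zero_mem, fun x hx => ⟨fun _ => 0, ?_, fun i => ?_⟩⟩
      · rw [htriv x hx]; simp
      · simp; positivity
    · push Not at htriv
      obtain ⟨x0, hx0, hx0ne⟩ := htriv
      -- a shortest vector
      obtain ⟨b1, ⟨⟨hb1, hb1le⟩, hb1ne⟩, hb1min⟩ := Set.exists_min_image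
        ({x | x ∈ Γ ∧ ‖x‖ ≤ ‖x0‖} \ {0}) (fun x => ‖x‖) ((hfin ‖x0‖).subset Set.sdiff_subset)
        ⟨x0, ⟨hx0, le_rfl⟩, hx0ne⟩
      have hb1ne' : b1 ≠ 0 := hb1ne
      set l := ‖b1‖ with hl
      have hlpos : 0 < l := norm_pos_iff.2 hb1ne'
      have hmin : ∀ x ∈ Γ, x ≠ 0 → l ≤ ‖x‖ := by
        intro x hx hxne
        by_cases h : ‖x‖ ≤ ‖x0‖
        · exact hb1min x ⟨⟨hx, h⟩, hxne⟩
        · push Not at h
          exact hb1le.trans h.le
      set S : Submodule ℝ E := Submodule.span ℝ {b1} with hS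
      have hSc : IsClosed (S : Set E) := Submodule.closed_of_finiteDimensional S
      have hfr : Module.finrank ℝ (E ⧸ S) = n := by
        have h1 := Submodule.finrank_quotient_add_finrank S
        rw [hS, finrank_span_singleton hb1ne', hn] at h1
        rw [hS]
        omega
      set Γ' : AddSubgroup (E ⧸ S) := Γ.map (S.mkQ.toAddMonoidHom) with hΓ'
      -- lifting
      have hlift : ∀ y ∈ Γ', ∀ ε : ℝ, 0 < ε → ∃ x ∈ Γ, S.mkQ x = y ∧ ‖x‖ ≤ ‖y‖ + ε + l / 2 := by
        rintro _ ⟨x, hx, rfl⟩ ε hε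
        obtain ⟨m, hm1, hm2⟩ := Submodule.Quotient.norm_mk_lt (S := S) (S.mkQ x) hε
        have h1 : m - x ∈ S := by
          rw [← Submodule.Quotient.eq]; exact hm1
        obtain ⟨t, ht⟩ := Submodule.mem_span_singleton.1 h1
        refine ⟨x + round t • b1, Γ.add_mem hx (Γ.zsmul_mem hb1 _), ?_, ?_⟩
        · show S.mkQ (x + round t • b1) = S.mkQ x
          rw [map_add, add_eq_left, Submodule.mkQ_apply, Submodule.Quotient.mk_eq_zero]
          exact zsmul_mem (Submodule.mem_span_singleton_self b1) _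
        · have h2 : x + round t • b1 = m - (t - round t) • b1 := by
            rw [sub_smul, ht, ← Int.cast_smul_eq_zsmul ℝ (round t) b1]
            abel
          rw [h2]
          refine (norm_sub_le _ _).trans ?_
          rw [norm_smul, Real.norm_eq_abs]
          have h3 := abs_sub_round t
          have h4 : |t - round t| * ‖b1‖ ≤ 1 / 2 * l := by gcongr
          have h5 : ‖m‖ ≤ ‖S.mkQ x‖ + ε := hm2.le
          have h6 : ‖S.mkQ.toAddMonoidHom x‖ = ‖S.mkQ x‖ := rfl
          linarith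
      have hlow : ∀ y ∈ Γ', y ≠ 0 → l / 2 ≤ ‖y‖ := by
        intro y hy hyne
        refine le_of_forall_pos_le_add (fun ε hε => ?_)
        obtain ⟨x, hx, hxy, hxn⟩ := hlift y hy ε hε
        have hxne : x ≠ 0 := by
          rintro rfl
          rw [map_zero] at hxy
          exact hyne hxy.symm
        have := hmin x hx hxne
        linarith
      have hlift3 : ∀ y ∈ Γ', ∃ x ∈ Γ, S.mkQ x = y ∧ ‖x‖ ≤ 3 * ‖y‖ := by
        intro y hy
        by_cases hyne : y = 0
        · refine ⟨0, Γ.zero_mem, ?_, ?_⟩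
          · rw [map_zero, hyne]
          · rw [hyne]; simp
        · obtain ⟨x, hx, hxy, hxn⟩ := hlift y hy (l / 2) (by positivity)
          have := hlow y hy hyne
          exact ⟨x, hx, hxy, by linarith⟩
      have hfin' : ∀ r : ℝ, {x | x ∈ Γ' ∧ ‖x‖ ≤ r}.Finite := by
        intro r
        apply ((hfin (3 * r)).image (S.mkQ)).subset
        rintro y ⟨hy, hyr⟩
        obtain ⟨x, hx, hxy, hxn⟩ := hlift3 y hy
        exact ⟨x, ⟨hx, hxn.trans (by linarith)⟩, hxy⟩
      obtain ⟨b', hb', hrep⟩ := ih (E ⧸ S) Γ' hfr hfin'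
      choose b hb hbb hbn using fun i => hlift3 (b' i) (hb' i)
      have hline : ∀ x ∈ Γ, S.mkQ x = 0 → ∃ c : ℤ, x = c • b1 := by
        intro x hx hx0'
        rw [Submodule.mkQ_apply, Submodule.Quotient.mk_eq_zero] at hx0'
        obtain ⟨t, rfl⟩ := Submodule.mem_span_singleton.1 hx0'
        refine ⟨round t, ?_⟩
        by_contra hne
        have h1 : (t • b1 - round t • b1) ∈ Γ := Γ.sub_mem hx (Γ.zsmul_mem hb1 _)
        have h2 := hmin _ h1 (sub_ne_zero.2 hne)
        rw [← Int.cast_smul_eq_zsmul ℝ (round t) b1, ← sub_smul, norm_smul, Real.norm_eq_abs] at h2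
        have h3 := abs_sub_round t
        have h4 : |t - round t| * ‖b1‖ ≤ 1 / 2 * l := by gcongr
        linarith
      refine ⟨Fin.cons b1 b, ?_, ?_⟩
      · intro i
        refine Fin.cases ?_ (fun j => ?_) i
        · simpa using hb1
        · simpa using hb j
      · intro x hx
        obtain ⟨c, hc1, hc2⟩ := hrep (S.mkQ x) ⟨x, hx, rfl⟩
        have h1 : S.mkQ (x - ∑ i, c i • b i) = 0 := by
          rw [map_sub, hc1, map_sum, sub_eq_zero]
          refine Finset.sum_congr rfl (fun i _ => ?_)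
          rw [map_zsmul, hbb]
        have h2 : x - ∑ i, c i • b i ∈ Γ :=
          Γ.sub_mem hx (Γ.sum_mem fun i _ => Γ.zsmul_mem (hb i) _)
        obtain ⟨c0, hc0⟩ := hline _ h2 h1
        have hmk : ‖S.mkQ x‖ ≤ ‖x‖ := Submodule.Quotient.norm_mk_le S x
        have hSn : (1 : ℝ) ≤ (4 * n + 4) ^ n := one_le_pow₀ (by
          have : (0 : ℝ) ≤ n := Nat.cast_nonneg n
          linarith)
        have hci : ∀ i, |(c i : ℝ)| * ‖b i‖ ≤ 3 * ((4 * n + 4) ^ n * ‖x‖) := by
          intro i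
          calc |(c i : ℝ)| * ‖b i‖ ≤ |(c i : ℝ)| * (3 * ‖b' i‖) := by
                have := hbn i
                gcongr
            _ = 3 * (|(c i : ℝ)| * ‖b' i‖) := by ring
            _ ≤ 3 * ((4 * n + 4) ^ n * ‖S.mkQ x‖) := by
                have := hc2 i
                gcongr
            _ ≤ 3 * ((4 * n + 4) ^ n * ‖x‖) := by gcongr
        have hbig : (3 * n + 1 : ℝ) * (4 * n + 4) ^ n ≤ (4 * ((n + 1 : ℕ) : ℝ) + 4) ^ (n + 1) := by
          have hn0 : (0 : ℝ) ≤ n := Nat.cast_nonneg n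
          push_cast
          rw [pow_succ, mul_comm]
          have h3 : (4 * (n : ℝ) + 4) ^ n ≤ (4 * (n + 1) + 4) ^ n := by gcongr; linarith
          have h4 : (3 * (n : ℝ) + 1) ≤ 4 * (n + 1) + 4 := by linarith
          calc (4 * (n : ℝ) + 4) ^ n * (3 * n + 1) ≤ (4 * (n + 1) + 4) ^ n * (4 * (n + 1) + 4) := by
                gcongr
            _ = _ := rfl
        refine ⟨Fin.cons c0 c, ?_, ?_⟩
        · rw [Fin.sum_univ_succ]
          simp only [Fin.cons_zero, Fin.cons_succ]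
          rw [← hc0]
          abel
        · intro i
          refine Fin.cases ?_ (fun j => ?_) i
          · simp only [Fin.cons_zero]
            have h3 : |(c0 : ℝ)| * ‖b1‖ = ‖x - ∑ i, c i • b i‖ := by
              rw [hc0, ← Int.cast_smul_eq_zsmul ℝ c0 b1, norm_smul, Real.norm_eq_abs]
            rw [h3]
            calc ‖x - ∑ i, c i • b i‖ ≤ ‖x‖ + ‖∑ i, c i • b i‖ := norm_sub_le _ _
              _ ≤ ‖x‖ + ∑ i, ‖c i • b i‖ := by gcongr; exact norm_sum_le _ _
              _ ≤ ‖x‖ + ∑ _i : Fin n, 3 * ((4 * n + 4) ^ n * ‖x‖) := by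
                  gcongr with i _
                  rw [← Int.cast_smul_eq_zsmul ℝ (c i) (b i), norm_smul, Real.norm_eq_abs]
                  exact hci i
              _ = ‖x‖ + (3 * n) * (4 * n + 4) ^ n * ‖x‖ := by
                  rw [Finset.sum_const, Finset.card_univ, Fintype.card_fin, nsmul_eq_mul]; ring
              _ ≤ (4 * n + 4) ^ n * ‖x‖ + (3 * n) * (4 * n + 4) ^ n * ‖x‖ := by
                  have : 0 ≤ ‖x‖ := norm_nonneg x
                  nlinarith
              _ = (3 * n + 1) * (4 * n + 4) ^ n * ‖x‖ := by ring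
              _ ≤ (4 * ((n + 1 : ℕ) : ℝ) + 4) ^ (n + 1) * ‖x‖ := by gcongr
          · simp only [Fin.cons_succ]
            refine (hci j).trans ?_
            have hn1 : (1 : ℝ) ≤ n := by
              have : 1 ≤ n := by have := j.2; omega
              exact_mod_cast this
            have : 3 * ((4 * (n : ℝ) + 4) ^ n * ‖x‖) ≤ (3 * n + 1) * (4 * n + 4) ^ n * ‖x‖ := by
              have h5 : 0 ≤ (4 * (n : ℝ) + 4) ^ n * ‖x‖ := by positivity
              nlinarith
            refine this.trans ?_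
            gcongr

end R124.IP
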