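import Pool.Agent.R124.IP.Boxes

set_option autoImplicit false

open scoped Pointwise

namespace R124.IP

lemma prog_sub {G : Type} [AddCommGroup G] {r : ℕ} (a : G) (v : Fin r → G) (N : Fin r → ℕ)
    (hN : ∀ i, 1 ≤ N i) :
    prog a v N - prog a v N
      = prog (-∑ i, (N i - 1) • v i) v (fun i => 2 * N i - 1) := by
  ext x
  constructor
  · rintro ⟨y, ⟨k, hk, rfl⟩, z, ⟨l, hl, rfl⟩, rfl⟩
    refine ⟨fun i => k i + (N i - 1 - l i), fun i => ?_, ?_⟩
    · have h1 := hk i; have h2 := hl i; have h3 := hN i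
      simp only
      omega
    · have h1 : ∀ i, (k i + (N i - 1 - l i)) • v i + l i • v i = k i • v i + (N i - 1) • v i := by
        intro i
        have h2 := hl i
        rw [← add_smul, ← add_smul]
        congr 1
        omega
      have h2 : ∑ i, (k i + (N i - 1 - l i)) • v i + ∑ i, l i • v i
          = ∑ i, k i • v i + ∑ i, (N i - 1) • v i := by
        rw [← Finset.sum_add_distrib, ← Finset.sum_add_distrib]
        exact Finset.sum_congr rfl (fun i _ => h1 i)
      have h3 : ∑ i, (k i + (N i - 1 - l i)) • v i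
          = ∑ i, k i • v i + ∑ i, (N i - 1) • v i - ∑ i, l i • v i := eq_sub_of_add_eq h2
      show a + ∑ i, k i • v i - (a + ∑ i, l i • v i)
        = -∑ i, (N i - 1) • v i + ∑ i, (k i + (N i - 1 - l i)) • v i
      rw [h3]
      abel
  · rintro ⟨m, hm, rfl⟩
    refine ⟨a + ∑ i, (m i - (N i - 1)) • v i, ⟨fun i => m i - (N i - 1), fun i => ?_, rfl⟩,
      a + ∑ i, (N i - 1 - m i) • v i, ⟨fun i => N i - 1 - m i, fun i => ?_, rfl⟩, ?_⟩
    · have := hm i; have h3 := hN i
      simp only at this ⊢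
      omega
    · have h3 := hN i
      simp only
      omega
    · have h1 : ∀ i, (m i - (N i - 1)) • v i + (N i - 1) • v i
          = (N i - 1 - m i) • v i + m i • v i := by
        intro i
        rw [← add_smul, ← add_smul]
        congr 1
        omega
      have h2 : ∑ i, (m i - (N i - 1)) • v i + ∑ i, (N i - 1) • v i
          = ∑ i, (N i - 1 - m i) • v i + ∑ i, m i • v i := by
        rw [← Finset.sum_add_distrib, ← Finset.sum_add_distrib]
        exact Finset.sum_congr rfl (fun i _ => h1 i)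
      have h3 : ∑ i, (m i - (N i - 1)) • v i
          = ∑ i, (N i - 1 - m i) • v i + ∑ i, m i • v i - ∑ i, (N i - 1) • v i :=
        eq_sub_of_add_eq h2
      show a + ∑ i, (m i - (N i - 1)) • v i - (a + ∑ i, (N i - 1 - m i) • v i)
        = -∑ i, (N i - 1) • v i + ∑ i, m i • v i
      rw [h3]
      abel

/-- covering form -/
theorem coverBox {H : Type} [AddCommGroup H] (d : ℕ) (hd : 1 ≤ d)
    (T : H →+ (Fin d → ℝ)) (hfin : (box T 1).Finite)
    (hcov : ∀ y : Fin d → ℝ, ∃ x : H,
      ‖T x - y‖ ≤ 1 / (40 * d * (1 + Real.logb 2 (box T 1).ncard))) :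
    ∃ (r : ℕ) (a : H) (v : Fin r → H) (N : Fin r → ℕ) (F : Finset H),
      (r : ℝ) ≤ d + 2 * Real.logb 2 (box T 1).ncard ∧ (∀ i, 1 ≤ N i) ∧
      (prog a v N).Finite ∧ (prog a v N).ncard ≤ 10 ^ d * (box T 1).ncard ∧
      F.card ≤ 10 ^ d ∧ box T 1 ⊆ (F : Set H) + prog a v N := by
  classical
  have hd0 : (0 : ℝ) < d := by exact_mod_cast hd
  have hn1 : (1 : ℝ) ≤ (box T 1).ncard := by
    have h0 : (0 : H) ∈ box T 1 := by show ‖T 0‖ ≤ 1; simp
    have : 0 < (box T 1).ncard := (Set.ncard_pos hfin).2 ⟨0, h0⟩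
    exact_mod_cast this
  have hlog : 0 ≤ Real.logb 2 (box T 1).ncard := Real.logb_nonneg (by norm_num) hn1
  set L := Real.logb 2 (box T 1).ncard with hL
  obtain ⟨m, a, v, N, hm, hN, hsub, hfin2, hcard⟩ :=
    core hd T (1 / (10 * (1 + L))) (by positivity)
      (by
        apply one_div_le_one_div_of_le (by norm_num)
        linarith) hfin
      (by
        rw [mul_one_div, div_le_one (by positivity)]
        linarith)
      (by
        intro y
        obtain ⟨x, hx⟩ := hcov y
        refine ⟨x, hx.trans (le_of_eq ?_)⟩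
        rw [div_div]
        congr 1
        ring)
  have hPfin := hfin.subset hsub
  set Pf : Finset H := hPfin.toFinset with hPf
  set Bf : Finset H := hfin.toFinset with hBf
  have hPne : Pf.Nonempty := by
    refine ⟨a, ?_⟩
    rw [hPf, Set.Finite.mem_toFinset]
    exact ⟨fun _ => 0, fun i => hN i, by simp⟩
  have hPc : Pf.card = (prog a v N).ncard := by
    rw [hPf, Set.ncard_eq_toFinset_card _ hPfin]
  have hsumset : (Bf + Pf).card ≤ 10 ^ d * Pf.card := by
    rw [hPc]
    refine le_trans ?_ hcard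
    rw [← Set.ncard_coe_finset]
    apply Set.ncard_le_ncard _ hfin2
    intro x hx
    rw [Finset.mem_coe, Finset.mem_add] at hx
    obtain ⟨b, hb, p, hp, rfl⟩ := hx
    rw [hBf, Set.Finite.mem_toFinset] at hb
    rw [hPf, Set.Finite.mem_toFinset] at hp
    have h1 : ‖T b‖ ≤ 1 := hb
    have h2 : ‖T p‖ ≤ 1 := hsub hp
    show ‖T (b + p)‖ ≤ 2
    rw [map_add]
    exact (norm_add_le _ _).trans (by linarith)
  obtain ⟨F, -, hF1, hF2⟩ := Finset.ruzsa_covering_add (K := 10 ^ d) hPne (by exact_mod_cast hsumset)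
  have hdiff : prog a v N - prog a v N ⊆ box T 2 := by
    rintro x ⟨y, hy, z, hz, rfl⟩
    have h1 : ‖T y‖ ≤ 1 := hsub hy
    have h2 : ‖T z‖ ≤ 1 := hsub hz
    show ‖T (y - z)‖ ≤ 2
    rw [map_sub]
    exact (norm_sub_le _ _).trans (by linarith)
  refine ⟨m + d, -∑ i, (N i - 1) • v i, v, fun i => 2 * N i - 1, F, ?_, ?_, ?_, ?_, ?_, ?_⟩
  · push_cast; linarith
  · intro i; have := hN i; simp only; omega
  · rw [← prog_sub a v N hN]
    exact hfin2.subset hdiff
  · rw [← prog_sub a v N hN]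
    calc (prog a v N - prog a v N).ncard ≤ (box T 2).ncard := Set.ncard_le_ncard hdiff hfin2
      _ ≤ 10 ^ d * (prog a v N).ncard := hcard
      _ ≤ 10 ^ d * (box T 1).ncard := Nat.mul_le_mul_left _ (Set.ncard_le_ncard hsub hfin)
  · exact_mod_cast hF1
  · rw [← prog_sub a v N hN]
    intro x hx
    have hx' : x ∈ Bf := by rw [hBf, Set.Finite.mem_toFinset]; exact hx
    have := hF2 hx'
    rw [Finset.mem_add] at this
    obtain ⟨f, hf, y, hy, rfl⟩ := this
    rw [Finset.mem_sub] at hy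
    obtain ⟨p, hp, q, hq, rfl⟩ := hy
    rw [hPf, Set.Finite.mem_toFinset] at hp hq
    exact ⟨f, hf, p - q, ⟨p, hp, q, hq, rfl⟩, rfl⟩

end R124.IP
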