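import Pool.Agent.R124.IP.Pos
import Pool.Agent.R124.IP.Cover

set_option autoImplicit false

open MeasureTheory Matrix Set
open scoped Pointwise
open Pool.Agent.H845R2

namespace R124.IP

variable {d : ℕ}

lemma vol_orth (V : Matrix (Fin d) (Fin d) ℝ) (h : Vᵀ * V = 1) (X : Set (Fin d → ℝ)) :
    volume (V.mulVec '' X) = volume X := by
  have h1 : V.det ^ 2 = 1 := by
    have := congrArg Matrix.det h
    rw [Matrix.det_mul, Matrix.det_transpose, Matrix.det_one] at this
    rw [sq]; exact this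
  have h2 : |V.det| = 1 := by
    rw [← sq_abs] at h1
    have h3 : 0 ≤ |V.det| := abs_nonneg _
    nlinarith
  have h3 := Measure.addHaar_image_linearMap (volume : Measure (Fin d → ℝ)) (Matrix.toLin' V) X
  rw [LinearMap.det_toLin', h2, ENNReal.ofReal_one, one_mul] at h3
  exact h3

/-- a position of a convex body -/
lemma position {K : Set (Fin d → ℝ)} (hK : CB K) (hd : 1 ≤ d) :
    ∃ (W : Matrix (Fin d) (Fin d) ℝ) (a : Fin d → ℝ), W.det ≠ 0 ∧ (∀ i, 0 < a i) ∧
      (∀ y ∈ W.mulVec '' K, ∀ i, |y i| ≤ Real.sqrt d * a i) ∧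
      (∀ y : Fin d → ℝ, (∀ i, |y i| ≤ a i / (d * Real.sqrt d)) → y ∈ W.mulVec '' K) ∧
      (1 / 2 : ℝ) ^ d ≤ (volume (W.mulVec '' K)).toReal ∧
      (volume (W.mulVec '' K)).toReal ≤
        18432 ^ d * (volume (W.mulVec '' K ∩ {y | ∀ i, |y i| ≤ 1 / 2})).toReal := by
  obtain ⟨S, hS, h1, h2⟩ := hK.milman_position (by rw [Fintype.card_fin]; exact hd)
  rw [Fintype.card_fin] at h1 h2
  have hK1 := cb_image hK S hS
  obtain ⟨V, a, hV1, hV2, ha, h3, h4⟩ := sandwich hK1 hd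
  have himg : (V * S).mulVec '' K = V.mulVec '' (S.mulVec '' K) := by
    rw [Set.image_image]
    apply Set.image_congr
    intro x _
    rw [Matrix.mulVec_mulVec]
  have hVd : V.det ≠ 0 := by
    intro h
    have := congrArg Matrix.det hV1
    rw [Matrix.det_mul, h, mul_zero, Matrix.det_one] at this
    exact zero_ne_one this
  have hK2 := cb_image hK1 V hVd
  refine ⟨V * S, a, ?_, ha, ?_, ?_, ?_, ?_⟩
  · rw [Matrix.det_mul]; exact mul_ne_zero hVd hS
  · rw [himg]; exact h3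
  · rw [himg]; exact h4
  · rw [himg, vol_orth V hV1]
    have h5 : ((1 / 2 : ℝ) ^ d) ^ 2 ≤ ((volume (S.mulVec '' K)).toReal) ^ 2 := by
      refine le_trans ?_ h1
      rw [← pow_mul, mul_comm, pow_mul]
      have := Real.pi_gt_three
      gcongr
      norm_num
      linarith
    exact le_of_sq_le_sq h5 ENNReal.toReal_nonneg
  · rw [himg]
    apply cube_part hK2 _ hd
    rw [vol_orth V hV1]
    refine h2.trans ?_
    have h5 : V.mulVec '' (S.mulVec '' K ∩ {y | y ⬝ᵥ y ≤ 2 * d})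
        ⊆ V.mulVec '' (S.mulVec '' K) ∩ {y | y ⬝ᵥ y ≤ 2 * d} := by
      rintro _ ⟨x, ⟨hx1, hx2⟩, rfl⟩
      refine ⟨⟨x, hx1, rfl⟩, ?_⟩
      show (V *ᵥ x) ⬝ᵥ (V *ᵥ x) ≤ 2 * d
      rw [Matrix.dotProduct_mulVec, Matrix.vecMul_mulVec, ← Matrix.dotProduct_mulVec, hV1,
        Matrix.one_mulVec]
      exact hx2
    have h6 := measure_mono h5 (μ := volume)
    rw [vol_orth V hV1] at h6
    have h7 := ENNReal.toReal_mono
      ((measure_mono Set.inter_subset_left).trans_lt hK2.vol_lt).ne h6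
    gcongr

end R124.IP
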