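import Pool.Agent.R124.IP.Count

set_option autoImplicit false

namespace R124.IP

lemma avg {G : Type} [AddCommGroup G] [DecidableEq G] (A P S : Finset G)
    (h : ∀ a ∈ A, ∀ p ∈ P, a - p ∈ S) :
    ∃ s : G, A.card * P.card ≤ S.card * (A.filter (fun a => a - s ∈ P)).card := by
  by_contra hcon
  push Not at hcon
  have hS : S.Nonempty := by
    by_contra hne
    rw [Finset.not_nonempty_iff_eq_empty] at hne
    subst hne
    have h1 := hcon 0
    have h2 : A.card * P.card = 0 := by
      rw [Nat.mul_eq_zero]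
      by_contra h3
      push Not at h3
      obtain ⟨a, ha⟩ := Finset.card_pos.1 (Nat.pos_of_ne_zero h3.1)
      obtain ⟨p, hp⟩ := Finset.card_pos.1 (Nat.pos_of_ne_zero h3.2)
      simpa using h a ha p hp
    rw [h2] at h1
    omega
  have h1 : ∑ s ∈ S, (A.filter (fun a => a - s ∈ P)).card = A.card * P.card := by
    have h2 : ∀ s ∈ S, (A.filter (fun a => a - s ∈ P)).card
        = ∑ a ∈ A, if a - s ∈ P then 1 else 0 := by
      intro s _
      rw [Finset.card_filter]
    rw [Finset.sum_congr rfl h2, Finset.sum_comm]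
    have h3 : ∀ a ∈ A, (∑ s ∈ S, if a - s ∈ P then 1 else 0) = P.card := by
      intro a ha
      rw [← Finset.card_filter]
      apply Finset.card_bij (fun s _ => a - s)
      · intro s hs
        exact (Finset.mem_filter.1 hs).2
      · intro s1 _ s2 _ h4
        simpa using h4
      · intro p hp
        refine ⟨a - p, ?_, by simp⟩
        rw [Finset.mem_filter]
        exact ⟨h a ha p hp, by simpa using hp⟩
    rw [Finset.sum_congr rfl h3, Finset.sum_const, smul_eq_mul]
  have h2 : ∑ s ∈ S, S.card * (A.filter (fun a => a - s ∈ P)).card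
      < ∑ _s ∈ S, A.card * P.card := Finset.sum_lt_sum_of_nonempty hS (fun s _ => hcon s)
  rw [← Finset.mul_sum, h1, Finset.sum_const, smul_eq_mul] at h2
  exact lt_irrefl _ h2

lemma prog_map {H G : Type} [AddCommGroup H] [AddCommGroup G] (φ : H →+ G) (s : G) {r : ℕ}
    (a : H) (v : Fin r → H) (N : Fin r → ℕ) :
    prog (s + φ a) (fun i => φ (v i)) N = (fun x => s + φ x) '' prog a v N := by
  ext x
  constructor
  · rintro ⟨k, hk, rfl⟩
    refine ⟨a + ∑ i, k i • v i, ⟨k, hk, rfl⟩, ?_⟩
    simp [map_add, map_sum, add_assoc]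
  · rintro ⟨y, ⟨k, hk, rfl⟩, rfl⟩
    refine ⟨k, hk, ?_⟩
    simp [map_add, map_sum, add_assoc]

theorem boxes (d : ℕ) (hd : 1 ≤ d) (G : Type) [AddCommGroup G] (H : AddSubgroup G)
    (T : H →+ (Fin d → ℝ)) (hfin : (box T 1).Finite)
    (hcov : ∀ y : Fin d → ℝ, ∃ x : H,
      ‖T x - y‖ ≤ 1 / (40 * d * (1 + Real.logb 2 (box T 1).ncard)))
    (A : Set G) (hA : A.Finite) (t : G) :
    ∃ (r : ℕ) (a : G) (v : Fin r → G) (N : Fin r → ℕ),
      (r : ℝ) ≤ d + 2 * Real.logb 2 (box T 1).ncard ∧ (∀ i, 1 ≤ N i) ∧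
      (prog a v N).Finite ∧ (prog a v N).ncard ≤ (box T 1).ncard ∧
      (A ∩ (fun x : H => t + (x : G)) '' box T 1).ncard ≤ 10 ^ d * (A ∩ prog a v N).ncard := by
  classical
  have hd0 : (0 : ℝ) < d := by exact_mod_cast hd
  have hn1 : (1 : ℝ) ≤ (box T 1).ncard := by
    have h0 : (0 : H) ∈ box T 1 := by show ‖T 0‖ ≤ 1; simp
    have : 0 < (box T 1).ncard := (Set.ncard_pos hfin).2 ⟨0, h0⟩
    exact_mod_cast this
  have hlog : 0 ≤ Real.logb 2 (box T 1).ncard := Real.logb_nonneg (by norm_num) hn1
  set L := Real.logb 2 (box T 1).ncard with hL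
  obtain ⟨m, a, v, N, hm, hN, hsub, hfin2, hcard⟩ :=
    core hd T (1 / (10 * (1 + L))) (by positivity)
      (by
        apply one_div_le_one_div_of_le (by norm_num)
        linarith) hfin
      (by
        rw [mul_one_div, div_le_one (by positivity)]
        linarith)
      (by
        intro y
        obtain ⟨x, hx⟩ := hcov y
        refine ⟨x, hx.trans (le_of_eq ?_)⟩
        rw [div_div]
        congr 1
        ring)
  set Pf : Finset H := (hfin.subset hsub).toFinset with hPf
  set P : Finset G := Pf.image (fun x : H => (x : G)) with hP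
  have hPcard : P.card = (prog a v N).ncard := by
    rw [hP, Finset.card_image_of_injective _ Subtype.val_injective, hPf,
      Set.ncard_eq_toFinset_card _ (hfin.subset hsub)]
  have hPpos : 0 < P.card := by
    rw [hPcard]
    refine (Set.ncard_pos (hfin.subset hsub)).2 ⟨a, fun _ => 0, fun i => ?_, by simp⟩
    exact hN i
  set A1 : Finset G := (hA.inter_of_left ((fun x : H => t + (x : G)) '' box T 1)).toFinset
    with hA1
  set S : Finset G := (hfin2.image (fun x : H => t + (x : G))).toFinset with hS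
  have hScard : S.card ≤ 10 ^ d * P.card := by
    rw [hPcard, hS]
    have h1 : (hfin2.image (fun x : H => t + (x : G))).toFinset.card = (box T 2).ncard := by
      rw [← Set.ncard_eq_toFinset_card _ (hfin2.image _)]
      apply Set.ncard_image_of_injective
      intro x y hxy
      exact Subtype.ext (add_left_cancel hxy)
    rw [h1]
    exact hcard
  have hAPS : ∀ x ∈ A1, ∀ p ∈ P, x - p ∈ S := by
    intro x hx p hp
    rw [hA1, Set.Finite.mem_toFinset] at hx
    obtain ⟨-, b, hb, rfl⟩ := hx
    rw [hP, Finset.mem_image] at hp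
    obtain ⟨q, hq, rfl⟩ := hp
    rw [hPf, Set.Finite.mem_toFinset] at hq
    rw [hS, Set.Finite.mem_toFinset]
    refine ⟨b - q, ?_, ?_⟩
    · show ‖T (b - q)‖ ≤ 2
      rw [map_sub]
      have h1 : ‖T b‖ ≤ 1 := hb
      have h2 : ‖T q‖ ≤ 1 := hsub hq
      exact (norm_sub_le _ _).trans (by linarith)
    · simp only [AddSubgroup.coe_sub]
      abel
  obtain ⟨s, hs⟩ := avg A1 P S hAPS
  have h3 : A1.card ≤ 10 ^ d * (A1.filter (fun x => x - s ∈ P)).card := by
    have h4 : A1.card * P.card ≤ (10 ^ d * (A1.filter (fun x => x - s ∈ P)).card) * P.card := by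
      calc A1.card * P.card ≤ S.card * (A1.filter (fun x => x - s ∈ P)).card := hs
        _ ≤ (10 ^ d * P.card) * (A1.filter (fun x => x - s ∈ P)).card :=
            Nat.mul_le_mul_right _ hScard
        _ = (10 ^ d * (A1.filter (fun x => x - s ∈ P)).card) * P.card := by ring
    exact Nat.le_of_mul_le_mul_right h4 hPpos
  have hpm := prog_map H.subtype s a v N
  have hfinal : (prog (s + H.subtype a) (fun i => H.subtype (v i)) N).Finite := by
    rw [hpm]
    exact (hfin.subset hsub).image _
  refine ⟨m + d, s + H.subtype a, fun i => H.subtype (v i), N, ?_, hN, hfinal, ?_, ?_⟩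
  · push_cast
    linarith
  · rw [hpm]
    exact (Set.ncard_image_le (hfin.subset hsub)).trans (Set.ncard_le_ncard hsub hfin)
  · have h5 : (A ∩ (fun x : H => t + (x : G)) '' box T 1).ncard = A1.card := by
      rw [hA1, Set.ncard_eq_toFinset_card _ (hA.inter_of_left _)]
    rw [h5]
    refine h3.trans (Nat.mul_le_mul_left _ ?_)
    rw [← Set.ncard_coe_finset]
    apply Set.ncard_le_ncard _ (hA.inter_of_left _)
    intro x hx
    rw [Finset.mem_coe, Finset.mem_filter, hA1, Set.Finite.mem_toFinset] at hx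
    refine ⟨hx.1.1, ?_⟩
    rw [hpm]
    have h6 := hx.2
    rw [hP, Finset.mem_image] at h6
    obtain ⟨q, hq, hq2⟩ := h6
    rw [hPf, Set.Finite.mem_toFinset] at hq
    refine ⟨q, hq, ?_⟩
    simp only [AddSubgroup.subtype_apply]
    rw [hq2]
    abel

end R124.IP
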