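import Pool.Agent.R124.IP.Vol

set_option autoImplicit false

open MeasureTheory Matrix Set
open scoped Pointwise
open Pool.Agent.H845R2

namespace R124.IP

variable {d : ℕ}

lemma geom (m : ℕ) : ∑ k ∈ Finset.Icc (-(m : ℤ)) m, (1 / 2 : ℝ) ^ k.natAbs
    = 3 - 2 * (1 / 2) ^ m := by
  induction m with
  | zero => norm_num
  | succ m ih =>
    have h1 : Finset.Icc (-((m + 1 : ℕ) : ℤ)) ((m + 1 : ℕ) : ℤ)
        = insert ((m + 1 : ℕ) : ℤ) (insert (-((m + 1 : ℕ) : ℤ)) (Finset.Icc (-(m : ℤ)) m)) := by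
      ext k
      simp only [Finset.mem_Icc, Finset.mem_insert]
      push_cast
      omega
    rw [h1, Finset.sum_insert, Finset.sum_insert, ih]
    · rw [Int.natAbs_neg, Int.natAbs_natCast, pow_succ]
      ring
    · simp
    · simp only [Finset.mem_insert, Finset.mem_Icc, not_or]
      push_cast
      constructor
      · omega
      · omega

/-- the cells that meet the ball -/
noncomputable def cellSet (d m : ℕ) : Finset (Fin d → ℤ) :=
  (Fintype.piFinset (fun _ => Finset.Icc (-(m : ℤ)) m)).filter (fun v => ∑ i, (v i).natAbs ≤ m)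

lemma cellSet_card (d m : ℕ) : ((cellSet d m).card : ℝ) ≤ 2 ^ m * 3 ^ d := by
  calc ((cellSet d m).card : ℝ) = ∑ v ∈ cellSet d m, (1 : ℝ) := by simp
    _ ≤ ∑ v ∈ cellSet d m, 2 ^ m * ∏ i, (1 / 2 : ℝ) ^ (v i).natAbs := by
        apply Finset.sum_le_sum
        intro v hv
        have h1 : ∑ i, (v i).natAbs ≤ m := (Finset.mem_filter.1 hv).2
        rw [Finset.prod_pow_eq_pow_sum]
        have h2 : (1 / 2 : ℝ) ^ m ≤ (1 / 2 : ℝ) ^ (∑ i, (v i).natAbs) :=
          pow_le_pow_of_le_one (by norm_num) (by norm_num) h1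
        calc (1 : ℝ) = 2 ^ m * (1 / 2) ^ m := by rw [← mul_pow]; norm_num
          _ ≤ 2 ^ m * (1 / 2 : ℝ) ^ (∑ i, (v i).natAbs) := by gcongr
    _ ≤ ∑ v ∈ Fintype.piFinset (fun _ : Fin d => Finset.Icc (-(m : ℤ)) m),
          2 ^ m * ∏ i, (1 / 2 : ℝ) ^ (v i).natAbs := by
        apply Finset.sum_le_sum_of_subset_of_nonneg (Finset.filter_subset _ _)
        intro v _ _
        positivity
    _ = 2 ^ m * ∏ _i : Fin d, ∑ k ∈ Finset.Icc (-(m : ℤ)) m, (1 / 2 : ℝ) ^ k.natAbs := by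
        rw [← Finset.mul_sum, Finset.prod_univ_sum]
    _ ≤ 2 ^ m * 3 ^ d := by
        rw [Finset.prod_const, Finset.card_univ, Fintype.card_fin, geom]
        have : (0 : ℝ) < (1 / 2) ^ m := by positivity
        gcongr
        · have h1 : (1 / 2 : ℝ) ^ m ≤ 1 := pow_le_one₀ (by norm_num) (by norm_num)
          linarith
        · linarith

lemma round_le (y : ℝ) : ((round y).natAbs : ℝ) ≤ 4 * y ^ 2 := by
  have h1 := abs_sub_round y
  rw [Nat.cast_natAbs, Int.cast_abs]
  by_cases h : round y = 0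
  · rw [h]; simp; positivity
  · have h2 : (1 : ℝ) ≤ |(round y : ℝ)| := by
      have : (1 : ℤ) ≤ |round y| := Int.one_le_abs h
      exact_mod_cast this
    have h3 : |(round y : ℝ)| ≤ |y| + 1 / 2 := by
      have := abs_sub_abs_le_abs_sub (round y : ℝ) y
      rw [abs_sub_comm (round y : ℝ) y] at this
      linarith
    have h4 : y ^ 2 = |y| ^ 2 := (sq_abs y).symm
    rw [h4]
    nlinarith

/-- a cell that carries much of the volume -/
lemma exists_cell (X : Set (Fin d → ℝ)) (hX : volume X ≠ ⊤)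
    (hb : ∀ y ∈ X, y ⬝ᵥ y ≤ 2 * d) :
    ∃ v : Fin d → ℤ, (volume X).toReal ≤
      768 ^ d * (volume (X ∩ {y | ∀ i, |y i - v i| ≤ 1 / 2})).toReal := by
  classical
  by_contra hcon
  push Not at hcon
  have hsub : X ⊆ ⋃ v ∈ cellSet d (8 * d), (X ∩ {y | ∀ i, |y i - (v i : ℤ)| ≤ 1 / 2}) := by
    intro y hy
    simp only [Set.mem_iUnion]
    refine ⟨fun i => round (y i), ?_, hy, fun i => abs_sub_round (y i)⟩
    have h1 : ∑ i, (round (y i)).natAbs ≤ 8 * d := by
      have h2 : (∑ i, ((round (y i)).natAbs : ℝ)) ≤ 8 * d := by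
        calc (∑ i, ((round (y i)).natAbs : ℝ)) ≤ ∑ i, 4 * (y i) ^ 2 :=
              Finset.sum_le_sum (fun i _ => round_le (y i))
          _ = 4 * (y ⬝ᵥ y) := by
              rw [← Finset.mul_sum, dotProduct]
              congr 1
              exact Finset.sum_congr rfl (fun i _ => by ring)
          _ ≤ 4 * (2 * d) := by
              have := hb y hy
              linarith
          _ = 8 * d := by ring
      exact_mod_cast h2
    rw [cellSet, Finset.mem_filter, Fintype.mem_piFinset]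
    refine ⟨fun i => ?_, h1⟩
    have h2 : (round (y i)).natAbs ≤ ∑ i, (round (y i)).natAbs :=
      Finset.single_le_sum (f := fun i => (round (y i)).natAbs) (fun _ _ => Nat.zero_le _)
        (Finset.mem_univ i)
    rw [Finset.mem_Icc]
    push_cast
    omega
  have h1 : volume X ≤ ∑ v ∈ cellSet d (8 * d),
      volume (X ∩ {y | ∀ i, |y i - (v i : ℤ)| ≤ 1 / 2}) :=
    (measure_mono hsub).trans (measure_biUnion_finset_le _ _)
  have hfin : ∀ v ∈ cellSet d (8 * d),
      volume (X ∩ {y | ∀ i, |y i - (v i : ℤ)| ≤ 1 / 2}) ≠ ⊤ := fun v _ =>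
    ((measure_mono Set.inter_subset_left).trans_lt (lt_top_iff_ne_top.2 hX)).ne
  have h2 := ENNReal.toReal_mono (ENNReal.sum_ne_top.2 hfin) h1
  rw [ENNReal.toReal_sum hfin] at h2
  have h0 := hcon 0
  have hXpos : 0 < (volume X).toReal := lt_of_le_of_lt (by positivity) h0
  have h3 : ∑ v ∈ cellSet d (8 * d),
      (volume (X ∩ {y | ∀ i, |y i - (v i : ℤ)| ≤ 1 / 2})).toReal
      < ∑ _v ∈ cellSet d (8 * d), (volume X).toReal / 768 ^ d := by
    apply Finset.sum_lt_sum_of_nonempty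
    · refine ⟨0, ?_⟩
      rw [cellSet, Finset.mem_filter, Fintype.mem_piFinset]
      simp
    · intro v _
      rw [lt_div_iff₀ (by positivity), mul_comm]
      exact hcon v
  rw [Finset.sum_const, nsmul_eq_mul] at h3
  have h4 := cellSet_card d (8 * d)
  have h5 : (2 : ℝ) ^ (8 * d) * 3 ^ d = 768 ^ d := by
    rw [pow_mul, ← mul_pow]; norm_num
  rw [h5] at h4
  have h6 : ((cellSet d (8 * d)).card : ℝ) * ((volume X).toReal / 768 ^ d)
      ≤ 768 ^ d * ((volume X).toReal / 768 ^ d) := by gcongr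
  have h7 : (768 : ℝ) ^ d * ((volume X).toReal / 768 ^ d) = (volume X).toReal := by
    field_simp
  linarith

/-- the part of a convex body in Milman position in the cube -/
lemma cube_part {K : Set (Fin d → ℝ)} (hK : CB K)
    (h2 : (volume K).toReal ≤ 2 * Real.exp d * 2 ^ d *
      (volume (K ∩ {y | y ⬝ᵥ y ≤ 2 * d})).toReal) (hd : 1 ≤ d) :
    (volume K).toReal ≤ 18432 ^ d * (volume (K ∩ {y | ∀ i, |y i| ≤ 1 / 2})).toReal := by
  have hKfin : volume K ≠ ⊤ := hK.vol_lt.ne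
  have hKpos : 0 < (volume K).toReal := ENNReal.toReal_pos hK.vol_pos.ne' hKfin
  set X := K ∩ {y | y ⬝ᵥ y ≤ 2 * d} with hX
  have hXfin : volume X ≠ ⊤ :=
    ((measure_mono Set.inter_subset_left).trans_lt hK.vol_lt).ne
  obtain ⟨v, hv⟩ := exists_cell X hXfin (fun y hy => hy.2)
  set Z := X ∩ {y | ∀ i, |y i - v i| ≤ 1 / 2} with hZ
  have hexp : Real.exp d ≤ 3 ^ d := by
    have h3 : Real.exp 1 < 3 := lt_trans Real.exp_one_lt_d9 (by norm_num)
    calc Real.exp d = Real.exp 1 ^ d := by rw [← Real.exp_nat_mul, mul_one]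
      _ ≤ 3 ^ d := by gcongr
  have h3 : (volume K).toReal ≤ 9216 ^ d * (volume Z).toReal := by
    have h4 : (2 : ℝ) ≤ 2 ^ d := by
      calc (2 : ℝ) = 2 ^ 1 := by norm_num
        _ ≤ 2 ^ d := pow_le_pow_right₀ (by norm_num) hd
    have hX0 : 0 ≤ (volume X).toReal := ENNReal.toReal_nonneg
    calc (volume K).toReal ≤ 2 * Real.exp d * 2 ^ d * (volume X).toReal := h2
      _ ≤ 2 ^ d * 3 ^ d * 2 ^ d * (768 ^ d * (volume Z).toReal) := by gcongr
      _ = 9216 ^ d * (volume Z).toReal := by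
          rw [← mul_pow, ← mul_pow, ← mul_assoc, ← mul_pow]; norm_num
  have hZpos : 0 < (volume Z).toReal := by
    by_contra hcon
    have : (volume Z).toReal = 0 := le_antisymm (not_lt.1 hcon) ENNReal.toReal_nonneg
    rw [this, mul_zero] at h3
    linarith
  have hZne : Z.Nonempty := by
    by_contra h
    rw [Set.not_nonempty_iff_eq_empty] at h
    rw [h, measure_empty] at hZpos
    simp at hZpos
  obtain ⟨x0, hx0⟩ := hZne
  have hsub : (fun x => (-(1 / 2 : ℝ)) • x0 + (1 / 2 : ℝ) • x) '' Z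
      ⊆ K ∩ {y | ∀ i, |y i| ≤ 1 / 2} := by
    rintro _ ⟨x, hx, rfl⟩
    refine ⟨?_, fun i => ?_⟩
    · have := hK.conv hx.1.1 (hK.symm _ hx0.1.1) (show (0 : ℝ) ≤ 1 / 2 by norm_num)
        (show (0 : ℝ) ≤ 1 / 2 by norm_num) (by norm_num)
      have h5 : (-(1 / 2 : ℝ)) • x0 + (1 / 2 : ℝ) • x = (1 / 2 : ℝ) • x + (1 / 2 : ℝ) • (-x0) := by
        rw [smul_neg, neg_smul, add_comm]
      simp only
      rw [h5]
      exact this
    · have h5 := hx.2 i
      have h6 := hx0.2 i
      simp only [Pi.add_apply, Pi.smul_apply, smul_eq_mul]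
      rw [abs_le] at h5 h6 ⊢
      constructor <;> linarith [h5.1, h5.2, h6.1, h6.2]
  have h5 := measure_mono hsub (μ := volume)
  rw [vol_aff _ (1 / 2) (by norm_num) Z] at h5
  have hKc : volume (K ∩ {y | ∀ i, |y i| ≤ 1 / 2}) ≠ ⊤ :=
    ((measure_mono Set.inter_subset_left).trans_lt hK.vol_lt).ne
  have h6 := ENNReal.toReal_mono hKc h5
  rw [ENNReal.toReal_mul, ENNReal.toReal_ofReal (by positivity)] at h6
  calc (volume K).toReal ≤ 9216 ^ d * (volume Z).toReal := h3
    _ = 18432 ^ d * ((1 / 2) ^ d * (volume Z).toReal) := by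
        rw [← mul_assoc, ← mul_pow]; norm_num
    _ ≤ 18432 ^ d * (volume (K ∩ {y | ∀ i, |y i| ≤ 1 / 2})).toReal := by gcongr

end R124.IP
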