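import Pool.Agent.R124.IP.Grp

set_option autoImplicit false

namespace R124.IP

variable {H : Type} [AddCommGroup H] {d : ℕ}

/-- the elements whose image under `T` has all coordinates at most `r` in absolute value -/
def box (T : H →+ (Fin d → ℝ)) (r : ℝ) : Set H := {x | ‖T x‖ ≤ r}

/-- the progression with base point `a`, steps `v` and lengths `N` -/
def prog {G : Type} [AddCommGroup G] {r : ℕ} (a : G) (v : Fin r → G) (N : Fin r → ℕ) : Set G :=
  {x | ∃ k : Fin r → ℕ, (∀ i, k i < N i) ∧ x = a + ∑ i, k i • v i}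

/-- integral combinations -/
def comb (w : Fin d → H) : (Fin d → ℤ) →+ H where
  toFun n := ∑ j, n j • w j
  map_zero' := by simp
  map_add' x y := by simp [add_smul, Finset.sum_add_distrib]

lemma comb_apply (w : Fin d → H) (n : Fin d → ℤ) : comb w n = ∑ j, n j • w j := rfl

lemma err (hd : 1 ≤ d) (T : H →+ (Fin d → ℝ)) (σ : ℝ) (w : Fin d → H)
    (hw : ∀ j, ‖T (w j) - Pi.single j σ‖ ≤ σ / (4 * d)) (n : Fin d → ℤ) :
    ‖T (comb w n) - (fun i => σ * (n i : ℝ))‖ ≤ σ / 4 * ‖(fun i => (n i : ℝ))‖ := by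
  have hd0 : (0 : ℝ) < d := by exact_mod_cast hd
  have h1 : T (comb w n) - (fun i => σ * (n i : ℝ))
      = ∑ j, (n j : ℝ) • (T (w j) - Pi.single j σ) := by
    rw [comb_apply, map_sum]
    funext i
    simp only [Pi.sub_apply, Finset.sum_apply, map_zsmul, Pi.smul_apply, smul_eq_mul, mul_sub,
      Finset.sum_sub_distrib, zsmul_eq_mul]
    congr 1
    rw [Finset.sum_eq_single i]
    · simp [mul_comm]
    · intro j _ hj
      rw [Pi.single_eq_of_ne (Ne.symm hj)]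
      simp
    · simp
  rw [h1]
  calc ‖∑ j, (n j : ℝ) • (T (w j) - Pi.single j σ)‖
      ≤ ∑ j, ‖(n j : ℝ) • (T (w j) - Pi.single j σ)‖ := norm_sum_le _ _
    _ ≤ ∑ _j : Fin d, ‖(fun i => (n i : ℝ))‖ * (σ / (4 * d)) := by
        apply Finset.sum_le_sum
        intro j _
        rw [norm_smul]
        have h2 : ‖(n j : ℝ)‖ ≤ ‖(fun i => (n i : ℝ))‖ := norm_le_pi_norm (fun i => (n i : ℝ)) j
        exact mul_le_mul h2 (hw j) (norm_nonneg _) (norm_nonneg _)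
    _ = σ / 4 * ‖(fun i => (n i : ℝ))‖ := by
        rw [Finset.sum_const, Finset.card_univ, Fintype.card_fin, nsmul_eq_mul]
        field_simp

lemma low (hd : 1 ≤ d) (T : H →+ (Fin d → ℝ)) (σ : ℝ) (hσ : 0 < σ) (w : Fin d → H)
    (hw : ∀ j, ‖T (w j) - Pi.single j σ‖ ≤ σ / (4 * d)) (n : Fin d → ℤ) :
    3 / 4 * σ * ‖(fun i => (n i : ℝ))‖ ≤ ‖T (comb w n)‖ ∧
      ‖T (comb w n)‖ ≤ 5 / 4 * σ * ‖(fun i => (n i : ℝ))‖ := by
  have h1 := err hd T σ w hw n
  have h2 : ‖(fun i => σ * (n i : ℝ))‖ = σ * ‖(fun i => (n i : ℝ))‖ := by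
    have : (fun i => σ * (n i : ℝ)) = σ • (fun i => (n i : ℝ)) := by
      funext i; simp
    rw [this, norm_smul, Real.norm_of_nonneg hσ.le]
  have h3 := norm_sub_norm_le (fun i => σ * (n i : ℝ)) (T (comb w n))
  have h4 := norm_sub_norm_le (T (comb w n)) (fun i => σ * (n i : ℝ))
  rw [norm_sub_rev] at h3
  constructor <;> nlinarith

/-- one step of the reduction -/
lemma step (hd : 1 ≤ d) (T : H →+ (Fin d → ℝ)) (σ : ℝ) (hσ : 0 < σ) (w : Fin d → H)
    (hw : ∀ j, ‖T (w j) - Pi.single j σ‖ ≤ σ / (4 * d)) (x : H) :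
    ∃ n : Fin d → ℤ, ‖T (x - comb w n)‖ ≤ ‖T x‖ / 4 + 3 / 4 * σ := by
  refine ⟨fun i => round (T x i / σ), ?_⟩
  set n : Fin d → ℤ := fun i => round (T x i / σ) with hn
  have h1 := err hd T σ w hw n
  have hr : ∀ i, |T x i / σ - n i| ≤ 1 / 2 := fun i => abs_sub_round _
  have h2 : ‖T x - (fun i => σ * (n i : ℝ))‖ ≤ σ / 2 := by
    rw [pi_norm_le_iff_of_nonneg (by positivity)]
    intro i
    have h3 : T x i - σ * (n i : ℝ) = σ * (T x i / σ - n i) := by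
      field_simp
    rw [Pi.sub_apply, h3, norm_mul, Real.norm_of_nonneg hσ.le, Real.norm_eq_abs]
    nlinarith [hr i]
  have h3 : ‖(fun i => (n i : ℝ))‖ ≤ ‖T x‖ / σ + 1 / 2 := by
    rw [pi_norm_le_iff_of_nonneg (by positivity)]
    intro i
    have h4 := hr i
    have h5 : |T x i| ≤ ‖T x‖ := norm_le_pi_norm (T x) i
    have h6 : |T x i / σ| ≤ ‖T x‖ / σ := by
      rw [abs_div, abs_of_pos hσ]
      gcongr
    rw [Real.norm_eq_abs]
    have h7 : |(n i : ℝ)| ≤ |T x i / σ| + |T x i / σ - n i| := by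
      have := abs_sub_abs_le_abs_sub (n i : ℝ) (T x i / σ)
      rw [abs_sub_comm (n i : ℝ)] at this
      linarith
    linarith
  have h4 : T (x - comb w n) = (T x - (fun i => σ * (n i : ℝ)))
      - (T (comb w n) - (fun i => σ * (n i : ℝ))) := by
    rw [map_sub]; abel
  rw [h4]
  refine (norm_sub_le _ _).trans ?_
  have h5 : σ / 4 * ‖(fun i => (n i : ℝ))‖ ≤ σ / 4 * (‖T x‖ / σ + 1 / 2) := by gcongr
  have h6 : σ / 4 * (‖T x‖ / σ + 1 / 2) = ‖T x‖ / 4 + σ / 8 := by field_simp; ring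
  linarith

/-- reduction modulo the coarse lattice -/
lemma reduce (hd : 1 ≤ d) (T : H →+ (Fin d → ℝ)) (σ : ℝ) (hσ : 0 < σ) (w : Fin d → H)
    (hw : ∀ j, ‖T (w j) - Pi.single j σ‖ ≤ σ / (4 * d)) (x : H) :
    ∃ n : Fin d → ℤ, ‖T (x - comb w n)‖ ≤ 2 * σ := by
  have key : ∀ k : ℕ, ∃ n : Fin d → ℤ, ‖T (x - comb w n)‖ ≤ ‖T x‖ / 4 ^ k + σ := by
    intro k
    induction k with
    | zero => exact ⟨0, by simp [hσ.le]⟩
    | succ k ih =>
      obtain ⟨n, hn⟩ := ih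
      obtain ⟨n', hn'⟩ := step hd T σ hσ w hw (x - comb w n)
      refine ⟨n + n', ?_⟩
      rw [map_add, ← sub_sub]
      refine hn'.trans ?_
      rw [pow_succ]
      have : ‖T x‖ / (4 ^ k * 4) = ‖T x‖ / 4 ^ k / 4 := by rw [div_div]
      rw [this]
      linarith
  obtain ⟨k, hk⟩ := exists_pow_lt_of_lt_one (show (0 : ℝ) < σ / (‖T x‖ + 1) by positivity)
    (show (1 / 4 : ℝ) < 1 by norm_num)
  obtain ⟨n, hn⟩ := key k
  refine ⟨n, hn.trans ?_⟩
  have h1 : ‖T x‖ / 4 ^ k = ‖T x‖ * (1 / 4) ^ k := by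
    rw [one_div, inv_pow]; rfl
  have h2 : ‖T x‖ * (1 / 4) ^ k ≤ σ := by
    have h3 : (1 / 4 : ℝ) ^ k * (‖T x‖ + 1) < σ := by
      rw [lt_div_iff₀ (by positivity)] at hk
      exact hk
    have h4 : (0 : ℝ) < (1 / 4 : ℝ) ^ k := by positivity
    nlinarith
  rw [h1]
  linarith

lemma comb_inj (hd : 1 ≤ d) (T : H →+ (Fin d → ℝ)) (σ : ℝ) (hσ : 0 < σ) (w : Fin d → H)
    (hw : ∀ j, ‖T (w j) - Pi.single j σ‖ ≤ σ / (4 * d)) : Function.Injective (comb w) := by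
  rw [injective_iff_map_eq_zero]
  intro n hn
  have h1 := (low hd T σ hσ w hw n).1
  rw [hn, map_zero, norm_zero] at h1
  have h2 : ‖(fun i => (n i : ℝ))‖ ≤ 0 := by
    by_contra hcon
    push Not at hcon
    have : 0 < 3 / 4 * σ * ‖(fun i => (n i : ℝ))‖ := by positivity
    linarith
  have h3 : (fun i => (n i : ℝ)) = 0 := norm_le_zero_iff.1 h2
  funext i
  have := congrFun h3 i
  simpa using this

end R124.IP
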