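import Pool.Agent.R124.IP.Core

set_option autoImplicit false

namespace R124.IP

variable {H : Type} [AddCommGroup H] {d : ℕ}

lemma core (hd : 1 ≤ d) (T : H →+ (Fin d → ℝ)) (σ : ℝ) (hσ : 0 < σ) (hσ1 : σ ≤ 1 / 10)
    (hfin : (box T 1).Finite) (hM : 8 * Real.logb 2 (box T 1).ncard * σ ≤ 1)
    (hcov : ∀ y : Fin d → ℝ, ∃ x : H, ‖T x - y‖ ≤ σ / (4 * d)) :
    ∃ (m : ℕ) (a : H) (v : Fin (m + d) → H) (N : Fin (m + d) → ℕ),
      (m : ℝ) ≤ 2 * Real.logb 2 (box T 1).ncard ∧ (∀ i, 1 ≤ N i) ∧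
      prog a v N ⊆ box T 1 ∧ (box T 2).Finite ∧
      (box T 2).ncard ≤ 10 ^ d * (prog a v N).ncard := by
  classical
  choose w hw using fun j => hcov (Pi.single j σ)
  set Λ : AddSubgroup H := (comb w).range with hΛ
  have hsmall : ∀ q : H ⧸ Λ, ∃ x : H, ‖T x‖ ≤ 2 * σ ∧ (x : H ⧸ Λ) = q := by
    intro q
    obtain ⟨x, rfl⟩ := QuotientAddGroup.mk_surjective q
    obtain ⟨n, hn⟩ := reduce hd T σ hσ w hw x
    refine ⟨x - comb w n, hn, ?_⟩
    rw [QuotientAddGroup.mk_sub, sub_eq_self, QuotientAddGroup.eq_zero_iff]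
    exact ⟨n, rfl⟩
  have hsurj : Function.Surjective (fun x : box T 1 => ((x : H) : H ⧸ Λ)) := by
    intro q
    obtain ⟨x, hx, hq⟩ := hsmall q
    exact ⟨⟨x, show ‖T x‖ ≤ 1 by linarith⟩, hq⟩
  have : Finite (box T 1) := hfin.to_subtype
  have : Finite (H ⧸ Λ) := Finite.of_surjective _ hsurj
  have hcard : Nat.card (H ⧸ Λ) ≤ (box T 1).ncard := by
    have := Nat.card_le_card_of_surjective _ hsurj
    rwa [Nat.card_coe_set_eq] at this
  have hcpos : 0 < Nat.card (H ⧸ Λ) := Nat.card_pos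
  obtain ⟨m, g', hm, hg'⟩ := subsetSums _ (H ⧸ Λ) rfl
  choose g hg1 hg2 using fun i => hsmall (g' i)
  choose ε hε1 hε2 using hg'
  have hn1 : (1 : ℝ) ≤ (box T 1).ncard := by
    have : 1 ≤ (box T 1).ncard := by omega
    exact_mod_cast this
  have hmlog : (m : ℝ) ≤ 2 * Real.logb 2 (box T 1).ncard := by
    have h1 : (2 : ℝ) ^ (m : ℕ) ≤ ((box T 1).ncard : ℝ) ^ 2 := by
      have : 2 ^ m ≤ (box T 1).ncard ^ 2 := hm.trans (Nat.pow_le_pow_left hcard 2)
      exact_mod_cast this
    have h2 := Real.logb_le_logb_of_le (b := 2) (by norm_num) (by positivity) h1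
    rw [Real.logb_pow, Real.logb_pow, Real.logb_self_eq_one (by norm_num)] at h2
    push_cast at h2
    linarith
  have hmσ : 2 * (m : ℝ) * σ ≤ 1 / 2 := by nlinarith
  -- fine part
  have hfine : ∀ e : Fin m → ℕ, (∀ i, e i < 2) → ‖T (∑ i, e i • g i)‖ ≤ 1 / 2 := by
    intro e he
    rw [map_sum]
    calc ‖∑ i, T (e i • g i)‖ ≤ ∑ i, ‖T (e i • g i)‖ := norm_sum_le _ _
      _ ≤ ∑ _i : Fin m, 2 * σ := by
          apply Finset.sum_le_sum
          intro i _
          have h1 := he i
          interval_cases h : e i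
          · simp; positivity
          · simpa using hg1 i
      _ = 2 * (m : ℝ) * σ := by
          rw [Finset.sum_const, Finset.card_univ, Fintype.card_fin, nsmul_eq_mul]; ring
      _ ≤ 1 / 2 := hmσ
  set f : (H ⧸ Λ) → H := fun h => ∑ i, ε h i • g i with hf
  have hfT : ∀ h, ‖T (f h)‖ ≤ 1 / 2 := fun h => hfine _ (hε1 h)
  have hfmk : ∀ h, ((f h : H) : H ⧸ Λ) = h := by
    intro h
    have h1 : ((f h : H) : H ⧸ Λ) = ∑ i, ε h i • ((g i : H) : H ⧸ Λ) := by
      show ((∑ i, ε h i • g i : H) : H ⧸ Λ) = _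
      simp
    rw [h1]
    conv_rhs => rw [hε2 h]
    exact Finset.sum_congr rfl (fun i _ => by rw [hg2])
  set N0 : ℕ := ⌊2 / (5 * σ)⌋₊ with hN0
  have hN0a : (N0 : ℝ) ≤ 2 / (5 * σ) := Nat.floor_le (by positivity)
  have hN0b : 2 / (5 * σ) < N0 + 1 := Nat.lt_floor_add_one _
  set R : ℕ := ⌊10 / (3 * σ)⌋₊ with hR
  have hRa : (R : ℝ) ≤ 10 / (3 * σ) := Nat.floor_le (by positivity)
  have hcomb_mk : ∀ n, ((comb w n : H) : H ⧸ Λ) = 0 := fun n => by
    rw [QuotientAddGroup.eq_zero_iff]; exact ⟨n, rfl⟩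
  -- the elements of the progression
  have hsplit : ∀ k : Fin (m + d) → ℕ,
      (-comb w (fun _ => (N0 : ℤ)) + ∑ i, k i • (Fin.append g w) i)
        = (∑ i, k (Fin.castAdd d i) • g i)
          + comb w (fun j => (k (Fin.natAdd m j) : ℤ) - N0) := by
    intro k
    rw [Fin.sum_univ_add]
    simp only [Fin.append_left, Fin.append_right]
    have h1 : comb w (fun j => (k (Fin.natAdd m j) : ℤ) - N0)
        = comb w (fun j => (k (Fin.natAdd m j) : ℤ)) - comb w (fun _ => (N0 : ℤ)) := by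
      rw [← map_sub]; rfl
    have h2 : comb w (fun j => (k (Fin.natAdd m j) : ℤ))
        = ∑ j, k (Fin.natAdd m j) • w j := by
      rw [comb_apply]
      exact Finset.sum_congr rfl (fun j _ => by rw [natCast_zsmul])
    rw [h1, h2]
    abel
  refine ⟨m, -comb w (fun _ => (N0 : ℤ)), Fin.append g w,
    Fin.append (fun _ => 2) (fun _ => 2 * N0 + 1), hmlog, ?_, ?_, ?_⟩
  · intro i
    refine Fin.addCases (fun j => ?_) (fun j => ?_) i
    · rw [Fin.append_left]; norm_num
    · rw [Fin.append_right]; omega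
  · rintro x ⟨k, hk, rfl⟩
    rw [hsplit]
    show ‖T _‖ ≤ 1
    rw [map_add]
    refine (norm_add_le _ _).trans ?_
    have h1 : ‖T (∑ i, k (Fin.castAdd d i) • g i)‖ ≤ 1 / 2 := by
      apply hfine
      intro i
      have := hk (Fin.castAdd d i)
      rwa [Fin.append_left] at this
    have h2 : ‖(fun j => (((k (Fin.natAdd m j) : ℤ) - N0 : ℤ) : ℝ))‖ ≤ N0 := by
      rw [pi_norm_le_iff_of_nonneg (by positivity)]
      intro j
      have h3 := hk (Fin.natAdd m j)
      rw [Fin.append_right] at h3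
      rw [Real.norm_eq_abs, abs_le]
      have h4 : (k (Fin.natAdd m j) : ℝ) ≤ 2 * N0 := by
        have : k (Fin.natAdd m j) ≤ 2 * N0 := by omega
        exact_mod_cast this
      have h5 : (0 : ℝ) ≤ (k (Fin.natAdd m j) : ℝ) := by positivity
      push_cast
      constructor <;> linarith
    have h3 := (low hd T σ hσ w hw (fun j => (k (Fin.natAdd m j) : ℤ) - N0)).2
    have h4 : 5 / 4 * σ * ‖(fun j => (((k (Fin.natAdd m j) : ℤ) - N0 : ℤ) : ℝ))‖
        ≤ 5 / 4 * σ * N0 := by gcongr
    have h5 : 5 / 4 * σ * (N0 : ℝ) ≤ 1 / 2 := by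
      have : 5 / 4 * σ * (2 / (5 * σ)) = 1 / 2 := by field_simp; norm_num
      calc 5 / 4 * σ * (N0 : ℝ) ≤ 5 / 4 * σ * (2 / (5 * σ)) := by gcongr
        _ = 1 / 2 := this
    linarith
  · -- counting
    set P : Set H := prog (-comb w (fun _ => (N0 : ℤ))) (Fin.append g w)
      (Fin.append (fun _ => 2) (fun _ => 2 * N0 + 1)) with hP
    have hPfin : P.Finite := by
      have : P ⊆ (fun k : Fin (m + d) → ℕ =>
          (-comb w (fun _ => (N0 : ℤ)) + ∑ i, k i • (Fin.append g w) i)) ''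
          (Set.Iic (fun _ => 2 * N0 + 2)) := by
        rintro x ⟨k, hk, rfl⟩
        refine ⟨k, fun i => ?_, rfl⟩
        refine Fin.addCases (fun j => ?_) (fun j => ?_) i
        · have := hk (Fin.castAdd d j)
          rw [Fin.append_left] at this
          simp only
          omega
        · have := hk (Fin.natAdd m j)
          rw [Fin.append_right] at this
          simp only
          omega
      exact (Set.Finite.image _ (Set.finite_Iic _)).subset this
    have hlower : Nat.card (H ⧸ Λ) * (2 * N0 + 1) ^ d ≤ P.ncard := by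
      have : Finite P := hPfin.to_subtype
      let φ : (H ⧸ Λ) × (Fin d → Fin (2 * N0 + 1)) → P := fun q =>
        ⟨f q.1 + comb w (fun j => ((q.2 j : ℕ) : ℤ) - N0), by
          refine ⟨Fin.append (ε q.1) (fun j => (q.2 j : ℕ)), ?_, ?_⟩
          · intro i
            refine Fin.addCases (fun j => ?_) (fun j => ?_) i
            · rw [Fin.append_left, Fin.append_left]; exact hε1 _ _
            · rw [Fin.append_right, Fin.append_right]; exact (q.2 j).2
          · rw [hsplit]
            simp only [Fin.append_left, Fin.append_right]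
            rfl⟩
      have hφ : Function.Injective φ := by
        rintro ⟨h1, n1⟩ ⟨h2, n2⟩ heq
        have e1 : f h1 + comb w (fun j => ((n1 j : ℕ) : ℤ) - N0)
            = f h2 + comb w (fun j => ((n2 j : ℕ) : ℤ) - N0) := congrArg Subtype.val heq
        have e2 : h1 = h2 := by
          have := congrArg (fun x : H => (x : H ⧸ Λ)) e1
          simp only [QuotientAddGroup.mk_add, hfmk, hcomb_mk, add_zero] at this
          exact this
        subst e2
        have e3 := comb_inj hd T σ hσ w hw (add_left_cancel e1)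
        have e4 : n1 = n2 := by
          funext j
          have := congrFun e3 j
          simp only [sub_left_inj, Nat.cast_inj] at this
          exact Fin.ext this
        rw [e4]
      have := Nat.card_le_card_of_injective φ hφ
      rw [Nat.card_prod, Nat.card_fun, Nat.card_coe_set_eq] at this
      simpa using this
    -- coordinates of an arbitrary element
    have hco : ∀ x : H, ∃ n : Fin d → ℤ, x = f (x : H ⧸ Λ) + comb w n := by
      intro x
      have : x - f (x : H ⧸ Λ) ∈ Λ := by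
        rw [← QuotientAddGroup.eq_zero_iff, QuotientAddGroup.mk_sub, hfmk, sub_self]
      obtain ⟨n, hn⟩ := this
      exact ⟨n, by rw [hn]; abel⟩
    choose n hn using hco
    let F : H → (H ⧸ Λ) × (Fin d → ℤ) := fun x => ((x : H ⧸ Λ), n x)
    have hF : Function.Injective F := by
      intro x y hxy
      have e1 : (x : H ⧸ Λ) = y := congrArg Prod.fst hxy
      have e2 : n x = n y := congrArg Prod.snd hxy
      rw [hn x, hn y, e1, e2]
    set W : Set ((H ⧸ Λ) × (Fin d → ℤ)) :=
      Set.univ ×ˢ Set.Icc (fun _ => -(R : ℤ)) (fun _ => (R : ℤ)) with hW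
    have hmaps : Set.MapsTo F (box T 2) W := by
      intro x hx
      refine ⟨Set.mem_univ _, ?_⟩
      have hx2 : ‖T x‖ ≤ 2 := hx
      have h1 : ‖T (comb w (n x))‖ ≤ 5 / 2 := by
        have : comb w (n x) = x - f (x : H ⧸ Λ) := eq_sub_of_add_eq' (hn x).symm
        rw [this, map_sub]
        have := hfT (x : H ⧸ Λ)
        exact (norm_sub_le _ _).trans (by linarith)
      have h2 := (low hd T σ hσ w hw (n x)).1
      have h3 : ‖(fun i => (n x i : ℝ))‖ ≤ 10 / (3 * σ) := by
        rw [le_div_iff₀ (by positivity)]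
        nlinarith
      have h4 : ∀ i, |n x i| ≤ (R : ℤ) := by
        intro i
        have h5 : |(n x i : ℝ)| ≤ 10 / (3 * σ) :=
          (norm_le_pi_norm (fun i => (n x i : ℝ)) i).trans h3
        have h6 : (((n x i).natAbs : ℕ) : ℝ) ≤ 10 / (3 * σ) := by
          rw [Nat.cast_natAbs, Int.cast_abs]; exact h5
        have h7 : (n x i).natAbs ≤ R := Nat.le_floor h6
        rw [Int.abs_eq_natAbs]
        exact_mod_cast h7
      exact ⟨fun i => (abs_le.1 (h4 i)).1, fun i => (abs_le.1 (h4 i)).2⟩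
    have hWfin : W.Finite := Set.Finite.prod Set.finite_univ (Set.finite_Icc _ _)
    have hfin2 : (box T 2).Finite := Set.Finite.of_injOn hmaps hF.injOn hWfin
    refine ⟨hfin2, ?_⟩
    have hup : (box T 2).ncard ≤ Nat.card (H ⧸ Λ) * (2 * R + 1) ^ d := by
      have h1 : (box T 2).ncard ≤ W.ncard :=
        Set.ncard_le_ncard_of_injOn F hmaps hF.injOn hWfin
      refine h1.trans (le_of_eq ?_)
      rw [hW, Set.ncard_prod, Set.ncard_univ]
      congr 1
      rw [← Finset.coe_Icc, Set.ncard_coe_finset, Pi.card_Icc]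
      simp only [Int.card_Icc, Finset.prod_const, Finset.card_univ, Fintype.card_fin]
      congr 1
      omega
    have hnum : 2 * R + 1 ≤ 10 * (2 * N0 + 1) := by
      have h1 : (2 * (R : ℝ) + 1) ≤ 10 * (2 * N0 + 1) := by
        have h2 : 2 / (5 * σ) = 12 / 100 * (10 / (3 * σ)) := by field_simp; norm_num
        have h3 : (100 : ℝ) / 3 ≤ 10 / (3 * σ) := by
          rw [div_le_div_iff₀ (by norm_num) (by positivity)]
          nlinarith
        linarith
      exact_mod_cast h1
    calc (box T 2).ncard ≤ Nat.card (H ⧸ Λ) * (2 * R + 1) ^ d := hup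
      _ ≤ Nat.card (H ⧸ Λ) * (10 * (2 * N0 + 1)) ^ d :=
          Nat.mul_le_mul_left _ (Nat.pow_le_pow_left hnum d)
      _ = 10 ^ d * (Nat.card (H ⧸ Λ) * (2 * N0 + 1) ^ d) := by rw [mul_pow]; ring
      _ ≤ 10 ^ d * P.ncard := Nat.mul_le_mul_left _ hlower

end R124.IP
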