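import Pool.Agent.R124.IP.Count2
import Pool.Agent.R124.IP.Cover

set_option autoImplicit false

open scoped Pointwise

namespace R124.IP

/-- finiteness of balls -/
lemma ball_fin {H : Type} [AddCommGroup H] {d : ℕ} (T : H →+ (Fin d → ℝ))
    (hfin : (box T 1).Finite) (r : ℝ) : (box T r).Finite := by
  classical
  obtain ⟨t, -, htf, ht⟩ := (isCompact_closedBall (0 : Fin d → ℝ) r).finite_cover_balls
    (show (0 : ℝ) < 1 / 2 by norm_num)
  let g : (Fin d → ℝ) → H := fun f => if h : ∃ x, ‖T x - f‖ < 1 / 2 then h.choose else 0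
  have hg : ∀ x ∈ box T r, ∃ f ∈ t, ‖T (x - g f)‖ ≤ 1 := by
    intro x hx
    have h1 : T x ∈ Metric.closedBall (0 : Fin d → ℝ) r := by
      rw [mem_closedBall_zero_iff]; exact hx
    have h2 := ht h1
    simp only [Set.mem_iUnion] at h2
    obtain ⟨f, hf, hfx⟩ := h2
    rw [Metric.mem_ball, dist_eq_norm] at hfx
    refine ⟨f, hf, ?_⟩
    have h : ∃ x, ‖T x - f‖ < 1 / 2 := ⟨x, hfx⟩
    have h3 : g f = h.choose := dif_pos h
    have h4 := h.choose_spec
    rw [h3, map_sub]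
    have h5 : T x - T h.choose = (T x - f) - (T h.choose - f) := by abel
    rw [h5]
    exact (norm_sub_le _ _).trans (by linarith)
  have hsub : box T r ⊆ ⋃ f ∈ t, (fun y => g f + y) '' box T 1 := by
    intro x hx
    obtain ⟨f, hf, hfx⟩ := hg x hx
    simp only [Set.mem_iUnion]
    exact ⟨f, hf, x - g f, hfx, by abel⟩
  exact (htf.biUnion (fun f _ => hfin.image _)).subset hsub

/-- covering form -/
theorem coverBox2 {H : Type} [AddCommGroup H] (d : ℕ) (hd : 1 ≤ d)
    (T : H →+ (Fin d → ℝ)) (hinj : Function.Injective T) (hfin : (box T 1).Finite)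
    (hcov : ∀ y : Fin d → ℝ, ∃ x : H,
      ‖T x - y‖ ≤ 1 / (120 * (d : ℝ) ^ 3 * (1 + Real.logb 2 d))) :
    ∃ (r : ℕ) (a : H) (v : Fin r → H) (N : Fin r → ℕ) (F : Finset H),
      (r : ℝ) ≤ 9 * (d : ℝ) ^ 2 * (1 + Real.logb 2 d) ∧ (∀ i, 1 ≤ N i) ∧
      (prog a v N).Finite ∧ (prog a v N).ncard ≤ 10 ^ d * (box T 1).ncard ∧
      F.card ≤ 10 ^ d ∧ box T 1 ⊆ (F : Set H) + prog a v N := by
  classical
  have hd0 : (0 : ℝ) < d := by exact_mod_cast hd
  have hd1 : (1 : ℝ) ≤ d := by exact_mod_cast hd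
  have hlog : 0 ≤ Real.logb 2 d := Real.logb_nonneg (by norm_num) hd1
  set l : ℕ := Nat.clog 2 (8 * d) with hl
  have hl1 : 4 * d + 4 ≤ 2 ^ l := le_trans (by omega) (Nat.le_pow_clog (by norm_num) _)
  have hl2 : (l : ℝ) ≤ 4 + Real.logb 2 d := by
    have h1 : 2 ^ (l - 1) < 8 * d := Nat.pow_pred_clog_lt_self (by norm_num) (by omega)
    have h2 : ((2 : ℝ) ^ (l - 1 : ℕ)) ≤ 8 * d := by exact_mod_cast h1.le
    have h3 := Real.logb_le_logb_of_le (b := 2) (by norm_num) (by positivity) h2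
    rw [Real.logb_pow, Real.logb_self_eq_one (by norm_num),
      Real.logb_mul (by norm_num) (by positivity)] at h3
    have h4 : Real.logb 2 8 = 3 := by
      rw [show (8 : ℝ) = 2 ^ (3 : ℕ) by norm_num, Real.logb_pow,
        Real.logb_self_eq_one (by norm_num)]
      norm_num
    have h5 : (l : ℝ) - 1 ≤ ((l - 1 : ℕ) : ℝ) := by
      have : l ≤ (l - 1) + 1 := by omega
      have h6 : (l : ℝ) ≤ ((l - 1 : ℕ) : ℝ) + 1 := by exact_mod_cast this
      linarith
    linarith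
  have hball := ball_fin T hfin
  set σ : ℝ := 1 / (2 * (d * (2 * d * l + 7))) with hσ
  have hσ0 : 0 < σ := by positivity
  have hσ2 : d * σ + d * (d * l + 3) * (2 * σ) ≤ 1 / 2 := by
    have : d * σ + d * (d * l + 3) * (2 * σ) = 1 / 2 := by
      rw [hσ]; field_simp; ring
    exact this.le
  have hl0 : (0 : ℝ) ≤ l := Nat.cast_nonneg _
  obtain ⟨a, v, N, hN, hsub, hfin2, hcard⟩ :=
    core2 hd T hinj hball σ hσ0
      (by
        rw [hσ]
        apply one_div_le_one_div_of_le (by norm_num)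
        have : (0 : ℝ) ≤ 2 * d * l := by positivity
        nlinarith) l hl1 hσ2
      (by
        intro y
        obtain ⟨x, hx⟩ := hcov y
        refine ⟨x, hx.trans ?_⟩
        have h1 : σ / (4 * d) = 1 / (8 * (d : ℝ) ^ 2 * (2 * d * l + 7)) := by
          rw [hσ]; field_simp; ring
        rw [h1]
        apply one_div_le_one_div_of_le (by positivity)
        have h2 : 2 * (d : ℝ) * l + 7 ≤ 15 * d * (1 + Real.logb 2 d) := by nlinarith
        calc 8 * (d : ℝ) ^ 2 * (2 * d * l + 7)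
            ≤ 8 * (d : ℝ) ^ 2 * (15 * d * (1 + Real.logb 2 d)) := by gcongr
          _ = 120 * (d : ℝ) ^ 3 * (1 + Real.logb 2 d) := by ring)
  have hPfin := hfin.subset hsub
  set Pf : Finset H := hPfin.toFinset with hPf
  set Bf : Finset H := hfin.toFinset with hBf
  have hPne : Pf.Nonempty := by
    refine ⟨a, ?_⟩
    rw [hPf, Set.Finite.mem_toFinset]
    exact ⟨fun _ => 0, fun i => hN i, by simp⟩
  have hPc : Pf.card = (prog a v N).ncard := by
    rw [hPf, Set.ncard_eq_toFinset_card _ hPfin]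
  have hsumset : (Bf + Pf).card ≤ 10 ^ d * Pf.card := by
    rw [hPc]
    refine le_trans ?_ hcard
    rw [← Set.ncard_coe_finset]
    apply Set.ncard_le_ncard _ hfin2
    intro x hx
    rw [Finset.mem_coe, Finset.mem_add] at hx
    obtain ⟨b, hb, p, hp, rfl⟩ := hx
    rw [hBf, Set.Finite.mem_toFinset] at hb
    rw [hPf, Set.Finite.mem_toFinset] at hp
    have h1 : ‖T b‖ ≤ 1 := hb
    have h2 : ‖T p‖ ≤ 1 := hsub hp
    show ‖T (b + p)‖ ≤ 2
    rw [map_add]
    exact (norm_add_le _ _).trans (by linarith)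
  obtain ⟨F, -, hF1, hF2⟩ := Finset.ruzsa_covering_add (K := 10 ^ d) hPne (by exact_mod_cast hsumset)
  have hdiff : prog a v N - prog a v N ⊆ box T 2 := by
    rintro x ⟨y, hy, z, hz, rfl⟩
    have h1 : ‖T y‖ ≤ 1 := hsub hy
    have h2 : ‖T z‖ ≤ 1 := hsub hz
    show ‖T (y - z)‖ ≤ 2
    rw [map_sub]
    exact (norm_sub_le _ _).trans (by linarith)
  refine ⟨_, -∑ i, (N i - 1) • v i, v, fun i => 2 * N i - 1, F, ?_, ?_, ?_, ?_, ?_, ?_⟩
  · push_cast
    have h1 : (d : ℝ) * l ≤ d * (4 + Real.logb 2 d) := by gcongr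
    have h2 : (d : ℝ) + d * (d * l + 3) + d = d * (d * l) + 5 * d := by ring
    rw [h2]
    have h3 : (d : ℝ) * (d * l) ≤ d * (d * (4 + Real.logb 2 d)) := by gcongr
    have h4 : 0 ≤ (d : ℝ) ^ 2 * Real.logb 2 d := by positivity
    nlinarith
  · intro i; have := hN i; simp only; omega
  · rw [← prog_sub a v N hN]
    exact hfin2.subset hdiff
  · rw [← prog_sub a v N hN]
    calc (prog a v N - prog a v N).ncard ≤ (box T 2).ncard := Set.ncard_le_ncard hdiff hfin2
      _ ≤ 10 ^ d * (prog a v N).ncard := hcard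
      _ ≤ 10 ^ d * (box T 1).ncard := Nat.mul_le_mul_left _ (Set.ncard_le_ncard hsub hfin)
  · exact_mod_cast hF1
  · rw [← prog_sub a v N hN]
    intro x hx
    have hx' : x ∈ Bf := by rw [hBf, Set.Finite.mem_toFinset]; exact hx
    have := hF2 hx'
    rw [Finset.mem_add] at this
    obtain ⟨f, hf, y, hy, rfl⟩ := this
    rw [Finset.mem_sub] at hy
    obtain ⟨p, hp, q, hq, rfl⟩ := hy
    rw [hPf, Set.Finite.mem_toFinset] at hp hq
    exact ⟨f, hf, p - q, ⟨p, hp, q, hq, rfl⟩, rfl⟩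

end R124.IP
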