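import Pool.Agent.R124.IP.Main
import Pool.Agent.R124.IP.Basis

set_option autoImplicit false

open MeasureTheory Matrix Set
open scoped Pointwise
open Pool.Agent.H845R2

namespace R124.IP

variable {d : ℕ}

lemma cb_smul {K : Set (Fin d → ℝ)} (hK : CB K) {c : ℝ} (hc : 0 < c) : CB (c • K) where
  comp := hK.comp.smul c
  conv := hK.conv.smul c
  symm := by
    rintro _ ⟨k, hk, rfl⟩
    exact ⟨-k, hK.symm k hk, by simp⟩
  int := by
    rw [interior_smul₀ hc.ne']
    exact hK.int.smul_set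

lemma smul_mono {K : Set (Fin d → ℝ)} (hK : CB K) {a b : ℝ} (ha : 0 ≤ a) (hab : a ≤ b) :
    a • K ⊆ b • K := by
  rintro _ ⟨k, hk, rfl⟩
  by_cases hb : b = 0
  · have : a = 0 := le_antisymm (hab.trans hb.le) ha
    subst this
    rw [hb]
    exact ⟨k, hk, rfl⟩
  · have hb0 : 0 < b := lt_of_le_of_ne (ha.trans hab) (Ne.symm hb)
    refine ⟨(a / b) • k, hK.conv.smul_mem_of_zero_mem (zero_mem hK) hk
      ⟨by positivity, (div_le_one hb0).2 hab⟩, ?_⟩
    simp only [smul_smul]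
    congr 1
    field_simp

lemma pts_mono {H : Type} [AddCommGroup H] (T : H →+ (Fin d → ℝ)) {X Y : Set (Fin d → ℝ)}
    (h : X ⊆ Y) : pts T X ⊆ pts T Y := fun _ hx => h hx

lemma pts_four {H : Type} [AddCommGroup H] (T : H →+ (Fin d → ℝ)) {K : Set (Fin d → ℝ)}
    (hK : CB K) (hfin : (pts T K).Finite) :
    (pts T ((4 : ℝ) • K)).Finite ∧ (pts T ((4 : ℝ) • K)).ncard ≤ 17 ^ d * (pts T K).ncard := by
  classical
  obtain ⟨F, hF1, hF2⟩ := cover_four T hK
  set L : Finset H := hfin.toFinset with hL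
  have hsub : pts T ((4 : ℝ) • K) ⊆ ((F + L : Finset H) : Set H) := by
    intro x hx
    obtain ⟨g, hg, hgx⟩ := hF2 x hx
    rw [Finset.mem_coe, Finset.mem_add]
    refine ⟨g, hg, x - g, ?_, by abel⟩
    rw [hL, Set.Finite.mem_toFinset]
    exact hgx
  refine ⟨(Finset.finite_toSet _).subset hsub, ?_⟩
  calc (pts T ((4 : ℝ) • K)).ncard ≤ ((F + L : Finset H) : Set H).ncard :=
        Set.ncard_le_ncard hsub (Finset.finite_toSet _)
    _ = (F + L).card := Set.ncard_coe_finset _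
    _ ≤ F.card * L.card := Finset.card_add_le
    _ ≤ 17 ^ d * (pts T K).ncard := by
        rw [hL, ← Set.ncard_eq_toFinset_card _ hfin]
        exact Nat.mul_le_mul_right _ hF1

lemma pts_fin {H : Type} [AddCommGroup H] (T : H →+ (Fin d → ℝ)) {K : Set (Fin d → ℝ)}
    (hK : CB K) (hfin : (pts T K).Finite) (r : ℝ) (hr : 0 ≤ r) : (pts T (r • K)).Finite := by
  have h1 : ∀ n : ℕ, (pts T (((4 : ℝ) ^ n) • K)).Finite := by
    intro n
    induction n with
    | zero => simpa using hfin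
    | succ n ih =>
      have := (pts_four T (cb_smul hK (c := 4 ^ n) (by positivity)) ih).1
      rw [smul_smul] at this
      rw [pow_succ, mul_comm]
      exact this
  obtain ⟨n, hn⟩ := pow_unbounded_of_one_lt r (show (1 : ℝ) < 4 by norm_num)
  exact (h1 n).subset (pts_mono T (smul_mono hK hr hn.le))

lemma box_fin {H : Type} [AddCommGroup H] (T : H →+ (Fin d → ℝ)) {K : Set (Fin d → ℝ)}
    (hK : CB K) (hfin : (pts T K).Finite) (r : ℝ) : (box T r).Finite := by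
  obtain ⟨ρ, hρ, hb⟩ := Metric.isOpen_iff.1 isOpen_interior _ hK.zero_mem_interior
  have hr : 0 ≤ 2 * |r| / ρ := by positivity
  refine (pts_fin T hK hfin (2 * |r| / ρ + 1) (by positivity)).subset ?_
  intro x hx
  have hx' : ‖T x‖ ≤ r := hx
  show T x ∈ (2 * |r| / ρ + 1) • K
  have hpos : (0 : ℝ) < 2 * |r| / ρ + 1 := by positivity
  rw [Set.mem_smul_set_iff_inv_smul_mem₀ hpos.ne']
  apply interior_subset
  apply hb
  rw [mem_ball_zero_iff, norm_smul, norm_inv, Real.norm_eq_abs, abs_of_pos hpos,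
    inv_mul_lt_iff₀ hpos]
  have h1 : r ≤ |r| := le_abs_self r
  have h2 : 0 ≤ |r| := abs_nonneg r
  have h3 : (2 * |r| / ρ + 1) * ρ = 2 * |r| + ρ := by field_simp
  rw [h3]
  linarith

lemma span_top {H : Type} [AddCommGroup H] (T : H →+ (Fin d → ℝ)) {K : Set (Fin d → ℝ)}
    (hK : CB K) (δ : ℝ) (hcov : ∀ y : Fin d → ℝ, ∃ x : H, ∃ k ∈ K, T x - y = δ • k) :
    Submodule.span ℝ (Set.range T) = ⊤ := by
  rw [eq_top_iff]
  intro y _
  have hcl : IsClosed ((Submodule.span ℝ (Set.range T) : Submodule ℝ (Fin d → ℝ)) :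
      Set (Fin d → ℝ)) := Submodule.closed_of_finiteDimensional _
  have : y ∈ closure ((Submodule.span ℝ (Set.range T) : Submodule ℝ (Fin d → ℝ)) :
      Set (Fin d → ℝ)) := by
    rw [Metric.mem_closure_iff]
    intro ε hε
    obtain ⟨R, hR1, hR⟩ := hK.exists_R
    obtain ⟨n, hn⟩ := exists_nat_gt (|δ| * R / ε)
    have hn0 : (0 : ℝ) < n := lt_of_le_of_lt (by positivity) hn
    obtain ⟨x, k, hk, hx⟩ := hcov ((n : ℝ) • y)
    refine ⟨(n : ℝ)⁻¹ • T x, Submodule.smul_mem _ _ (Submodule.subset_span ⟨x, rfl⟩), ?_⟩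
    have h1 : y - (n : ℝ)⁻¹ • T x = -((n : ℝ)⁻¹ • (δ • k)) := by
      rw [← hx, smul_sub, smul_smul, inv_mul_cancel₀ hn0.ne', one_smul]
      abel
    rw [dist_eq_norm, h1, norm_neg, norm_smul, norm_smul, norm_inv, Real.norm_eq_abs,
      Real.norm_eq_abs, abs_of_pos hn0, inv_mul_lt_iff₀ hn0]
    rw [div_lt_iff₀ hε] at hn
    refine lt_of_le_of_lt ?_ hn
    exact mul_le_mul_of_nonneg_left (hR k hk) (abs_nonneg _)
  rw [hcl.closure_eq] at this
  exact this

/-- representatives that are distinct modulo `k` -/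
lemma reps {H : Type} [AddCommGroup H] (T : H →+ (Fin d → ℝ)) {K : Set (Fin d → ℝ)}
    (hK : CB K) (hfin : (pts T K).Finite) (δ : ℝ)
    (hcov : ∀ y : Fin d → ℝ, ∃ x : H, ∃ k ∈ K, T x - y = δ • k) (m : ℕ) :
    ∃ c : (Fin d → Fin m) → H, ∀ s t : Fin d → Fin m, ∀ h : H,
      T (c s) - T (c t) = (m : ℝ) • T h → s = t := by
  obtain ⟨b', hb', hrepb⟩ := exists_basis d (Fin d → ℝ) T.range (by simp) (by
    intro r
    apply ((box_fin T hK hfin r).image T).subset
    rintro _ ⟨⟨x, rfl⟩, hx⟩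
    exact ⟨x, hx, rfl⟩)
  choose b hb using fun i => (hb' i)
  have hspan : ⊤ ≤ Submodule.span ℝ (Set.range b') := by
    rw [← span_top T hK δ hcov, Submodule.span_le]
    rintro _ ⟨x, rfl⟩
    obtain ⟨c, hc, -⟩ := hrepb (T x) ⟨x, rfl⟩
    rw [hc]
    apply Submodule.sum_mem
    intro i _
    rw [← Int.cast_smul_eq_zsmul ℝ]
    exact Submodule.smul_mem _ _ (Submodule.subset_span ⟨i, rfl⟩)
  have hli : LinearIndependent ℝ b' :=
    linearIndependent_of_top_le_span_of_card_eq_finrank hspan (by simp)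
  refine ⟨fun s => ∑ i, (s i : ℕ) • b i, fun s t h hst => ?_⟩
  obtain ⟨c, hc, -⟩ := hrepb (T h) ⟨h, rfl⟩
  rw [hc, map_sum, map_sum, Finset.smul_sum, ← Finset.sum_sub_distrib, ← sub_eq_zero,
    ← Finset.sum_sub_distrib] at hst
  have h1 : ∑ i, (((s i : ℕ) : ℝ) - ((t i : ℕ) : ℝ) - m * c i) • b' i = 0 := by
    rw [← hst]
    refine Finset.sum_congr rfl (fun i _ => ?_)
    rw [map_nsmul, map_nsmul, hb i, ← Nat.cast_smul_eq_nsmul ℝ, ← Nat.cast_smul_eq_nsmul ℝ,
      ← Int.cast_smul_eq_zsmul ℝ, smul_smul, sub_smul, sub_smul]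
  have h2 := Fintype.linearIndependent_iff.1 hli _ h1
  funext i
  have h3 := h2 i
  have h4 : ((s i : ℕ) : ℤ) - ((t i : ℕ) : ℤ) = m * c i := by
    have : (((s i : ℕ) : ℝ) - ((t i : ℕ) : ℝ)) = m * c i := by linarith
    exact_mod_cast this
  have h5 : ((s i : ℕ) : ℤ) < m := by exact_mod_cast (s i).2
  have h6 : ((t i : ℕ) : ℤ) < m := by exact_mod_cast (t i).2
  have h7 : c i = 0 := by
    by_contra hne
    rcases lt_or_gt_of_ne hne with h | h
    · nlinarith
    · nlinarith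
  rw [h7, mul_zero] at h4
  apply Fin.ext
  omega

end R124.IP
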