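import Pool.Agent.R124.IP.Dim1

set_option autoImplicit false

open MeasureTheory Matrix Set
open scoped Pointwise
open Pool.Agent.H845R2

namespace R124.IP

variable {d : ℕ}

lemma scale_lower {H : Type} [AddCommGroup H] (T : H →+ (Fin d → ℝ))
    (hinj : Function.Injective T) {K : Set (Fin d → ℝ)}
    (hK : CB K) (hfin : (pts T K).Finite) (δ : ℝ) (hδ : 0 < δ)
    (hcov : ∀ y : Fin d → ℝ, ∃ x : H, ∃ k ∈ K, T x - y = δ • k) (m : ℕ) (hm : 1 ≤ m)
    (s : ℝ) (hs : δ < s) :
    m ^ d * (pts T ((s - δ) • K)).ncard ≤ (pts T ((m * s) • K)).ncard := by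
  classical
  have hm0 : (0 : ℝ) < m := by exact_mod_cast hm
  obtain ⟨c, hc⟩ := reps T hK hfin δ hcov m
  choose x0 k0 hk0 hx0 using fun e : Fin d → Fin m => hcov (-((m : ℝ)⁻¹ • T (c e)))
  have hf1 := pts_fin T hK hfin (s - δ) (by linarith)
  have hf2 := pts_fin T hK hfin (m * s) (by nlinarith)
  set L1 := hf1.toFinset with hL1
  set L2 := hf2.toFinset with hL2
  have h1 : ((Finset.univ : Finset (Fin d → Fin m)) ×ˢ L1).card ≤ L2.card := by
    apply Finset.card_le_card_of_injOn (fun p => c p.1 + m • (x0 p.1 + p.2))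
    · rintro ⟨e, h⟩ hp
      simp only [Finset.coe_product, Set.mem_prod, Finset.mem_coe] at hp
      have hh : T h ∈ (s - δ) • K := by
        have := hp.2
        rw [hL1, Set.Finite.mem_toFinset] at this
        exact this
      rw [Finset.mem_coe, hL2, Set.Finite.mem_toFinset]
      show T (c e + m • (x0 e + h)) ∈ (m * s) • K
      obtain ⟨k1, hk1, hk1'⟩ := hh
      have h2 : T (x0 e) = δ • k0 e - (m : ℝ)⁻¹ • T (c e) := by
        have := hx0 e
        rw [sub_neg_eq_add] at this
        rw [← this]; abel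
      have h3 : T (c e + m • (x0 e + h)) = (m : ℝ) • (δ • k0 e + (s - δ) • k1) := by
        rw [map_add, map_nsmul, map_add, h2, ← hk1', ← Nat.cast_smul_eq_nsmul ℝ]
        simp only [smul_add, smul_sub, smul_smul, mul_inv_cancel₀ hm0.ne', one_smul]
        abel
      rw [h3, mul_smul]
      refine ⟨_, ?_, rfl⟩
      have := mem_smul_of_cb hK (hk0 e) hk1 δ (s - δ) hδ.le (by linarith) (by linarith)
      rw [add_sub_cancel] at this
      exact this
    · rintro ⟨e, h⟩ _ ⟨e', h'⟩ _ heq
      simp only at heq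
      have h2 : T (c e) - T (c e') = (m : ℝ) • T (x0 e' + h' - (x0 e + h)) := by
        have := congrArg T heq
        rw [map_add, map_add, map_nsmul, map_nsmul, ← Nat.cast_smul_eq_nsmul ℝ,
          ← Nat.cast_smul_eq_nsmul ℝ] at this
        rw [map_sub, smul_sub, sub_eq_sub_iff_add_eq_add, this]
        abel
      have h3 := hc e e' _ h2
      subst h3
      rw [sub_self] at h2
      have h4 : T (x0 e + h' - (x0 e + h)) = 0 := by
        rcases smul_eq_zero.1 h2.symm with h5 | h5
        · exact absurd h5 hm0.ne'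
        · exact h5
      have h5 := (map_eq_zero_iff T hinj).1 h4
      have h6 : h' = h := by
        have : h' - h = 0 := by rw [← h5]; abel
        exact sub_eq_zero.1 this
      rw [h6]
  rw [Finset.card_product, Finset.card_univ, Fintype.card_fun, Fintype.card_fin, Fintype.card_fin,
    hL1, hL2, ← Set.ncard_eq_toFinset_card _ hf1, ← Set.ncard_eq_toFinset_card _ hf2] at h1
  exact h1

lemma trans_upper {H : Type} [AddCommGroup H] (T : H →+ (Fin d → ℝ))
    {K : Set (Fin d → ℝ)} (hK : CB K) (hfin : (pts T K).Finite) (δ : ℝ) (hδ : 0 < δ)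
    (hcov : ∀ y : Fin d → ℝ, ∃ x : H, ∃ k ∈ K, T x - y = δ • k)
    (s : ℝ) (hs : 0 < s) (w : Fin d → ℝ) (S : Finset H) (hS : ∀ x ∈ S, T x - w ∈ s • K) :
    S.card ≤ (pts T ((s + δ) • K)).ncard := by
  classical
  have hf := pts_fin T hK hfin (s + δ) (by linarith)
  obtain ⟨x0, k, hk, hx0⟩ := hcov w
  rw [Set.ncard_eq_toFinset_card _ hf]
  apply Finset.card_le_card_of_injOn (fun x => x - x0)
  · intro x hx
    rw [Finset.mem_coe, Set.Finite.mem_toFinset]
    show T (x - x0) ∈ (s + δ) • K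
    obtain ⟨k1, hk1, hk1'⟩ := hS x hx
    have h1 : T (x - x0) = s • k1 + δ • (-k) := by
      rw [map_sub, smul_neg, ← hx0]
      have : s • k1 = T x - w := hk1'
      rw [this]; abel
    rw [h1]
    exact mem_smul_of_cb hK hk1 (hK.symm k hk) s δ hs.le hδ.le (by linarith)
  · intro x _ y _ h
    exact sub_left_injective h

lemma reg_scale (hd : 1 ≤ d) {H : Type} [AddCommGroup H] (T : H →+ (Fin d → ℝ))
    {K : Set (Fin d → ℝ)} (hK : CB K) (hfin : (pts T K).Finite) (δ : ℝ) (hδ : 0 < δ) :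
    ∃ s : ℝ, δ < s ∧ s ≤ 40 * d * δ / 3 ∧
      (pts T ((s + δ) • K)).ncard ≤ 2 * (pts T ((s - δ) • K)).ncard := by
  by_contra hcon
  push Not at hcon
  have hd0 : (1 : ℝ) ≤ d := by exact_mod_cast hd
  set s0 : ℝ := 10 * d * δ / 3 with hs0
  have hs00 : 0 < s0 := by positivity
  have hstep : ∀ j : ℕ, j ≤ 5 * d →
      2 ^ j * (pts T (s0 • K)).ncard ≤ (pts T ((s0 + 2 * j * δ) • K)).ncard := by
    intro j
    induction j with
    | zero => intro _; simp
    | succ j ih =>
      intro hj
      have h1 := ih (by omega)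
      have hjr : (j : ℝ) + 1 ≤ 5 * d := by exact_mod_cast hj
      have h2 := hcon (s0 + (2 * j + 1) * δ) (by
        have : (0 : ℝ) ≤ j := Nat.cast_nonneg _
        nlinarith) (by rw [hs0]; nlinarith)
      have e1 : s0 + (2 * j + 1) * δ - δ = s0 + 2 * j * δ := by ring
      have e2 : s0 + (2 * j + 1) * δ + δ = s0 + 2 * ((j + 1 : ℕ) : ℝ) * δ := by push_cast; ring
      rw [e1, e2] at h2
      rw [pow_succ]
      calc 2 ^ j * 2 * (pts T (s0 • K)).ncard = 2 * (2 ^ j * (pts T (s0 • K)).ncard) := by ring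
        _ ≤ 2 * (pts T ((s0 + 2 * j * δ) • K)).ncard := Nat.mul_le_mul_left _ h1
        _ ≤ _ := h2.le
  have h1 := hstep (5 * d) le_rfl
  have e1 : s0 + 2 * ((5 * d : ℕ) : ℝ) * δ = 4 * s0 := by rw [hs0]; push_cast; ring
  rw [e1] at h1
  have h2 := (pts_four T (cb_smul hK hs00) (pts_fin T hK hfin s0 hs00.le)).2
  rw [smul_smul] at h2
  have h3 : 0 < (pts T (s0 • K)).ncard := by
    rw [Set.ncard_pos (pts_fin T hK hfin s0 hs00.le)]
    exact ⟨0, by
      show T 0 ∈ s0 • K
      rw [map_zero]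
      exact ⟨0, zero_mem hK, by simp⟩⟩
  have h4 : 2 ^ (5 * d) ≤ 17 ^ d := le_of_mul_le_mul_right (h1.trans h2) h3
  rw [pow_mul] at h4
  exact absurd h4 (not_le.2 (Nat.pow_lt_pow_left (by norm_num) (by omega)))

/-- `Q + A + ... + A` -/
def it {H : Type} [AddCommGroup H] [DecidableEq H] (A Q : Finset H) : ℕ → Finset H
  | 0 => Q
  | n + 1 => it A Q n + A

lemma it_mem {H : Type} [AddCommGroup H] [DecidableEq H] (A Q : Finset H) (n : ℕ) {q a : H}
    (hq : q ∈ Q) (ha : a ∈ A) : q + n • a ∈ it A Q n := by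
  induction n with
  | zero => simpa [it] using hq
  | succ n ih =>
    rw [succ_nsmul, ← add_assoc]
    exact Finset.add_mem_add ih ha

lemma it_card {H : Type} [AddCommGroup H] [DecidableEq H] (A Q : Finset H) (hA : A.Nonempty)
    (κ : ℝ) (hκ : ((A + A).card : ℝ) ≤ κ * A.card) (n : ℕ) :
    ((it A Q n).card : ℝ) ≤ κ ^ n * (Q + A).card := by
  classical
  have hA0 : (0 : ℝ) < A.card := by exact_mod_cast hA.card_pos
  have hκ0 : 0 ≤ κ := by
    by_contra h
    push Not at h
    have : ((A + A).card : ℝ) < 0 := lt_of_le_of_lt hκ (by nlinarith)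
    have h2 : (0 : ℝ) ≤ ((A + A).card : ℝ) := Nat.cast_nonneg _
    linarith
  obtain ⟨X, hX, hmin⟩ := Finset.exists_min_image (A.powerset.erase ∅)
    (fun X => ((X + A).card : ℝ) / X.card)
    ⟨A, by simp [hA.ne_empty]⟩
  rw [Finset.mem_erase, Finset.mem_powerset] at hX
  have hXne : X.Nonempty := Finset.nonempty_iff_ne_empty.2 hX.1
  have hX0 : (0 : ℝ) < X.card := by exact_mod_cast hXne.card_pos
  have hXK : ((X + A).card : ℝ) ≤ κ * X.card := by
    have h1 := hmin A (by simp [hA.ne_empty])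
    have h2 : ((X + A).card : ℝ) / X.card ≤ κ := h1.trans (by rw [div_le_iff₀ hA0]; exact hκ)
    rwa [div_le_iff₀ hX0] at h2
  have hpet : ∀ C : Finset H, ((C + X + A).card : ℝ) ≤ κ * (C + X).card := by
    intro C
    have h1 := Finset.pluennecke_petridis_inequality_add (A := X) (B := A) C (by
      intro A' hA'
      by_cases hne : A'.Nonempty
      · have h2 := hmin A' (by
          rw [Finset.mem_erase, Finset.mem_powerset]
          exact ⟨hne.ne_empty, hA'.trans hX.2⟩)
        have h3 : (0 : ℝ) < A'.card := by exact_mod_cast hne.card_pos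
        rw [div_le_div_iff₀ hX0 h3] at h2
        exact_mod_cast h2
      · rw [Finset.not_nonempty_iff_eq_empty] at hne
        subst hne
        simp)
    have h2 : ((C + X + A).card : ℝ) * X.card ≤ (X + A).card * (C + X).card := by exact_mod_cast h1
    have h3 : ((C + X + A).card : ℝ) * X.card ≤ (κ * (C + X).card) * X.card := by
      calc ((C + X + A).card : ℝ) * X.card ≤ (X + A).card * (C + X).card := h2
        _ ≤ (κ * X.card) * (C + X).card := by gcongr
        _ = (κ * (C + X).card) * X.card := by ring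
    exact le_of_mul_le_mul_right h3 hX0
  have hind : ∀ n : ℕ, ((it A Q n + X).card : ℝ) ≤ κ ^ n * (Q + A).card := by
    intro n
    induction n with
    | zero =>
      rw [pow_zero, one_mul]
      exact_mod_cast Finset.card_le_card (Finset.add_subset_add_left hX.2)
    | succ n ih =>
      have h1 : it A Q (n + 1) + X = it A Q n + X + A := by
        show it A Q n + A + X = it A Q n + X + A
        rw [add_assoc, add_comm A X, ← add_assoc]
      rw [h1]
      calc ((it A Q n + X + A).card : ℝ) ≤ κ * (it A Q n + X).card := hpet _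
        _ ≤ κ * (κ ^ n * (Q + A).card) := by gcongr
        _ = κ ^ (n + 1) * (Q + A).card := by ring
  refine le_trans ?_ (hind n)
  exact_mod_cast Finset.card_le_card_add_right hXne

lemma sum_lower {H : Type} [AddCommGroup H] [DecidableEq H] (T : H →+ (Fin d → ℝ))
    {K : Set (Fin d → ℝ)} (hK : CB K) (hfin : (pts T K).Finite) (δ : ℝ) (hδ : 0 < δ)
    (hcov : ∀ y : Fin d → ℝ, ∃ x : H, ∃ k ∈ K, T x - y = δ • k) (m : ℕ) (hm : 1 ≤ m)
    (s : ℝ) (hs : 0 < s) (A Q : Finset H) (hQ : ∀ q ∈ Q, T q ∈ ((m : ℝ) * s) • K) :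
    Q.card * A.card ≤ (pts T ((s + δ) • K)).ncard * (it A Q m).card := by
  have hm0 : (0 : ℝ) < m := by exact_mod_cast hm
  rw [← Finset.card_product]
  refine (Finset.card_le_mul_card_image (f := fun p : H × H => p.1 + m • p.2) (Q ×ˢ A)
    (pts T ((s + δ) • K)).ncard ?_).trans (Nat.mul_le_mul_left _ (Finset.card_le_card ?_))
  · intro w _
    have h1 : ((Q ×ˢ A).filter (fun p => p.1 + m • p.2 = w)).card
        = (((Q ×ˢ A).filter (fun p => p.1 + m • p.2 = w)).image Prod.snd).card := by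
      rw [Finset.card_image_of_injOn]
      rintro ⟨q, a⟩ h ⟨q', a'⟩ h' heq
      rw [Finset.mem_coe, Finset.mem_filter] at h h'
      simp only at heq h h'
      subst heq
      have : q = q' := add_right_cancel (h.2.trans h'.2.symm)
      rw [this]
    rw [h1]
    apply trans_upper T hK hfin δ hδ hcov s hs ((m : ℝ)⁻¹ • T w)
    intro a ha
    rw [Finset.mem_image] at ha
    obtain ⟨⟨q, a'⟩, h2, rfl⟩ := ha
    rw [Finset.mem_filter, Finset.mem_product] at h2
    simp only at h2 ⊢
    obtain ⟨k, hk, hkq⟩ := hQ q h2.1.1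
    refine ⟨-k, hK.symm k hk, ?_⟩
    have h3 : T w = T q + (m : ℝ) • T a' := by
      rw [← h2.2, map_add, map_nsmul, ← Nat.cast_smul_eq_nsmul ℝ]
    simp only at hkq ⊢
    rw [h3, ← hkq, smul_add, smul_smul, smul_smul, smul_neg, ← mul_assoc,
      inv_mul_cancel₀ hm0.ne', one_mul, one_smul]
    abel
  · intro w hw
    rw [Finset.mem_image] at hw
    obtain ⟨p, h1, h2⟩ := hw
    rw [Finset.mem_product] at h1
    rw [← h2]
    exact it_mem A Q m h1.1 h1.2

/-- A dense subset with small doubling of the set of lattice points of a large convex body: the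
dimension is at most logarithmic in the parameters. -/
theorem dim_bound (hd : 1 ≤ d) {H : Type} [AddCommGroup H] [DecidableEq H]
    (T : H →+ (Fin d → ℝ))
    (hinj : Function.Injective T) {K : Set (Fin d → ℝ)}
    (hK : CB K) (hfin : (pts T K).Finite) (δ : ℝ) (hδ : 0 < δ) (hδd : d = 1 ∨ 1360 * d * δ ≤ 9)
    (hcov : ∀ y : Fin d → ℝ, ∃ x : H, ∃ k ∈ K, T x - y = δ • k)
    (A : Finset H) (hA : A.Nonempty) (hAK : ∀ x ∈ A, T x ∈ K) (M κ : ℝ)
    (hM : ((pts T K).ncard : ℝ) ≤ M * A.card) (hκ : ((A + A).card : ℝ) ≤ κ * A.card) :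
    (2 : ℝ) ^ d ≤ 2 * M * κ ^ 34 := by
  have hA0 : (0 : ℝ) < A.card := by exact_mod_cast hA.card_pos
  have hM1 : 1 ≤ M := by
    have h1 : (A.card : ℝ) ≤ (pts T K).ncard := by
      rw [← Set.ncard_coe_finset]
      exact_mod_cast Set.ncard_le_ncard (fun x hx => hAK x hx) hfin
    have h2 : 1 * (A.card : ℝ) ≤ M * A.card := by linarith
    exact le_of_mul_le_mul_right h2 hA0
  have hκ1 : 1 ≤ κ := by
    have h1 : (A.card : ℝ) ≤ (A + A).card := by
      exact_mod_cast Finset.card_le_card_add_right hA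
    have h2 : 1 * (A.card : ℝ) ≤ κ * A.card := by linarith
    exact le_of_mul_le_mul_right h2 hA0
  have hκp : 1 ≤ κ ^ 34 := one_le_pow₀ hκ1
  rcases hδd with hd1 | hδd
  · subst hd1
    rw [pow_one]
    nlinarith
  obtain ⟨s, hs1, hs2, hs3⟩ := reg_scale hd T hK hfin δ hδ
  have hs0 : 0 < s := hδ.trans hs1
  have hQ := scale_lower T hinj hK hfin δ hδ hcov 34 (by norm_num) s hs1
  have hfQ := pts_fin T hK hfin (((34 : ℕ) : ℝ) * s) (by positivity)
  set Q : Finset H := hfQ.toFinset with hQdef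
  have hQc : Q.card = (pts T ((((34 : ℕ) : ℝ) * s) • K)).ncard := by
    rw [hQdef, ← Set.ncard_eq_toFinset_card _ hfQ]
  have hQm : ∀ q ∈ Q, T q ∈ ((34 : ℝ) * s) • K := by
    intro q hq
    rw [hQdef, Set.Finite.mem_toFinset] at hq
    exact_mod_cast hq
  set N1 := (pts T ((s + δ) • K)).ncard with hN1
  set N0 := (pts T ((s - δ) • K)).ncard with hN0
  have hN0pos : 0 < N0 := by
    rw [hN0, Set.ncard_pos (pts_fin T hK hfin (s - δ) (by linarith))]
    exact ⟨0, by
      show T 0 ∈ (s - δ) • K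
      rw [map_zero]
      exact ⟨0, zero_mem hK, by simp⟩⟩
  -- counting
  have hcount : Q.card * A.card ≤ N1 * (it A Q 34).card :=
    sum_lower T hK hfin δ hδ hcov 34 (by norm_num) s hs0 A Q (by
      intro q hq
      have := hQm q hq
      exact_mod_cast this)
  -- the upper bound
  have hQA : (Q + A).card ≤ 17 ^ d * (pts T K).ncard := by
    have h4 := pts_four T hK hfin
    refine le_trans ?_ h4.2
    rw [← Set.ncard_coe_finset]
    apply Set.ncard_le_ncard _ h4.1
    intro x hx
    rw [Finset.mem_coe, Finset.mem_add] at hx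
    obtain ⟨q, hq, a, ha, rfl⟩ := hx
    show T (q + a) ∈ (4 : ℝ) • K
    obtain ⟨k, hk, hkq⟩ := hQm q hq
    have h1 : T (q + a) = (34 * s) • k + (1 : ℝ) • T a := by
      rw [map_add, one_smul]
      congr 1
      exact hkq.symm
    rw [h1]
    apply smul_mono hK _ _ (mem_smul_of_cb hK hk (hAK a ha) (34 * s) 1 (by positivity)
      (by norm_num) (by positivity))
    · positivity
    · have : 34 * s ≤ 34 * (40 * d * δ / 3) := by gcongr
      linarith
  have hit := it_card A Q hA κ hκ 34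
  have hN0r : (0 : ℝ) < N0 := by exact_mod_cast hN0pos
  have hfinal : (34 : ℝ) ^ d * N0 * A.card ≤ 17 ^ d * (2 * M * κ ^ 34) * N0 * A.card := by
    calc (34 : ℝ) ^ d * N0 * A.card ≤ (Q.card : ℝ) * A.card := by
          rw [hQc]
          gcongr
          exact_mod_cast hQ
      _ ≤ N1 * (it A Q 34).card := by exact_mod_cast hcount
      _ ≤ (2 * N0) * (κ ^ 34 * (17 ^ d * (M * A.card))) := by
          have h1 : (N1 : ℝ) ≤ 2 * N0 := by exact_mod_cast hs3
          have h2 : ((it A Q 34).card : ℝ) ≤ κ ^ 34 * (17 ^ d * (M * A.card)) := by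
            refine hit.trans ?_
            gcongr
            calc ((Q + A).card : ℝ) ≤ 17 ^ d * (pts T K).ncard := by exact_mod_cast hQA
              _ ≤ 17 ^ d * (M * A.card) := by gcongr
          exact mul_le_mul h1 h2 (Nat.cast_nonneg _) (by positivity)
      _ = 17 ^ d * (2 * M * κ ^ 34) * N0 * A.card := by ring
  have h1 := le_of_mul_le_mul_right (le_of_mul_le_mul_right hfinal hA0) hN0r
  have h2 : (34 : ℝ) ^ d = 17 ^ d * 2 ^ d := by rw [← mul_pow]; norm_num
  rw [h2] at h1
  exact le_of_mul_le_mul_left h1 (by positivity)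

end R124.IP
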