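import Pool.Agent.R124.IP.Main
import Pool.Agent.R124.IP.Cover2

set_option autoImplicit false

open MeasureTheory Matrix Set
open scoped Pointwise
open Pool.Agent.H845R2

namespace R124.IP

variable {d : ℕ}

/-- Lattice points of a large symmetric convex body: covering by few translates of a
progression. -/
theorem convexCover2 (d : ℕ) (hd : 1 ≤ d) {H : Type} [AddCommGroup H] (T : H →+ (Fin d → ℝ))
    (hinj : Function.Injective T)
    (K : Set (Fin d → ℝ)) (hK : CB K) (hfin : (pts T K).Finite)
    (hcov : ∀ y : Fin d → ℝ, ∃ x : H, ∃ k ∈ K,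
      T x - y = (1 / (120 * (d : ℝ) ^ 5 * (1 + Real.logb 2 d))) • k) :
    ∃ (r : ℕ) (a : H) (v : Fin r → H) (N : Fin r → ℕ) (F : Finset H),
      (r : ℝ) ≤ 9 * (d : ℝ) ^ 2 * (1 + Real.logb 2 d) ∧ (∀ i, 1 ≤ N i) ∧
      (prog a v N).Finite ∧ (prog a v N).ncard ≤ 2 ^ (25 * d) * (pts T K).ncard ∧
      F.card ≤ 2 ^ (20 * d) ∧ pts T K ⊆ (F : Set H) + prog a v N := by
  classical
  have hd0 : (0 : ℝ) < d := by exact_mod_cast hd
  have hd1 : (1 : ℝ) ≤ d := by exact_mod_cast hd
  have hsd : 0 < Real.sqrt d := Real.sqrt_pos.2 hd0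
  have hsq : Real.sqrt d * Real.sqrt d = d := Real.mul_self_sqrt hd0.le
  obtain ⟨W, a, hW, ha, hout, hinn, hvol1, hvol2⟩ := position hK hd
  have hK2 : CB (W.mulVec '' K) := cb_image hK W hW
  set K2 := W.mulVec '' K with hK2def
  set M1 := K2 ∩ {y | ∀ i, |y i| ≤ 1 / 2} with hM1
  have hWinj : ∀ x y, W *ᵥ x = W *ᵥ y → x = y := by
    intro x y h
    have := congrArg (fun z => W⁻¹ *ᵥ z) h
    simpa [Matrix.mulVec_mulVec, Matrix.nonsing_inv_mul _ (isUnit_iff_ne_zero.2 hW)] using this
  set T2 : H →+ (Fin d → ℝ) := (W.mulVecLin.toAddMonoidHom).comp T with hT2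
  have hT2a : ∀ x, T2 x = W *ᵥ (T x) := fun x => rfl
  have hpts : pts T2 K2 = pts T K := by
    ext x
    constructor
    · rintro ⟨k, hk, hkx⟩
      have : k = T x := hWinj _ _ hkx
      show T x ∈ K
      rw [← this]; exact hk
    · intro hx
      exact ⟨T x, hx, rfl⟩
  -- the sides of the box
  set e : Fin d → ℝ := fun i => max (min 1 (2 * Real.sqrt d * a i)) (a i / (d * Real.sqrt d))
    with he
  have hepos : ∀ i, 0 < e i := fun i =>
    lt_of_lt_of_le (by have := ha i; positivity) (le_max_right _ _)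
  let T3 : H →+ (Fin d → ℝ) :=
    { toFun := fun x i => T2 x i / e i
      map_zero' := by funext i; simp
      map_add' := fun x y => by funext i; simp [add_div] }
  have hT3a : ∀ x i, T3 x i = T2 x i / e i := fun x i => rfl
  have hbox : ∀ x, x ∈ box T3 1 ↔ ∀ i, |T2 x i| ≤ e i := by
    intro x
    show ‖T3 x‖ ≤ 1 ↔ _
    rw [pi_norm_le_iff_of_nonneg zero_le_one]
    refine forall_congr' (fun i => ?_)
    rw [hT3a, Real.norm_eq_abs, abs_div, abs_of_pos (hepos i), div_le_one (hepos i)]
  -- properties of M1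
  have hK2pos : 0 < (volume K2).toReal := ENNReal.toReal_pos hK2.vol_pos.ne' hK2.vol_lt.ne
  have hM1c : Convex ℝ M1 := by
    apply hK2.conv.inter
    intro x hx y hy s t hs ht hst i
    have h1 := hx i
    have h2 := hy i
    simp only [Pi.add_apply, Pi.smul_apply, smul_eq_mul]
    rw [abs_le] at h1 h2 ⊢
    constructor <;> nlinarith [h1.1, h1.2, h2.1, h2.2]
  have hM1s : ∀ x ∈ M1, -x ∈ M1 := by
    rintro x ⟨h1, h2⟩
    refine ⟨hK2.symm x h1, fun i => ?_⟩
    rw [Pi.neg_apply, abs_neg]
    exact h2 i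
  have hcubeclosed : ∀ c : ℝ, IsClosed {y : Fin d → ℝ | ∀ i, |y i| ≤ c} := by
    intro c
    have : {y : Fin d → ℝ | ∀ i, |y i| ≤ c} = ⋂ i, {y | |y i| ≤ c} := by
      ext y; simp
    rw [this]
    exact isClosed_iInter fun i => isClosed_le (continuous_apply i).abs continuous_const
  have hM1m : MeasurableSet M1 := hK2.meas.inter (hcubeclosed _).measurableSet
  have hM1r : 0 < (volume M1).toReal := by
    by_contra h
    have : (volume M1).toReal = 0 := le_antisymm (not_lt.1 h) ENNReal.toReal_nonneg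
    rw [this, mul_zero] at hvol2
    linarith
  have hM1pos : 0 < volume M1 := by
    by_contra h
    rw [not_lt, nonpos_iff_eq_zero] at h
    rw [h] at hM1r
    simp at hM1r
  -- step A
  have stepA : ∃ F : Finset H, F.card ≤ 55296 ^ d ∧ ∀ x ∈ pts T2 K2, ∃ g ∈ F, x - g ∈ box T3 1 := by
    obtain ⟨F, -, hF1, hF2⟩ := vcover M1 K2 ((3 / 2 : ℝ) • K2) hM1c hM1s hM1m hM1pos
      (by
        rw [Measure.addHaar_smul]
        exact ENNReal.mul_ne_top (by simp) hK2.vol_lt.ne)
      (by
        intro x hx m hm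
        have := mem_smul_of_cb hK2 hx hm.1 1 (1 / 2) (by norm_num) (by norm_num) (by norm_num)
        rw [one_smul] at this
        norm_num at this ⊢
        exact this)
    obtain ⟨F', hF'1, hF'2⟩ := transfer T2 M1 {y | ∀ i, |y i| ≤ e i} F (pts T2 K2)
      (fun x hx => hF2 _ hx)
      (by
        intro m hm n hn i
        rw [Pi.sub_apply]
        have h1 := hm.2 i
        have h2 := hn.2 i
        have h3 := hout m hm.1 i
        have h4 := hout n hn.1 i
        have h5 : |m i - n i| ≤ |m i| + |n i| := abs_sub _ _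
        refine le_trans ?_ (le_max_left _ _)
        apply le_min <;> linarith)
    refine ⟨F', ?_, fun x hx => ?_⟩
    · have h1 : (F.card : ℝ) ≤ 55296 ^ d := by
        rw [vol_smul K2 _ (by norm_num)] at hF1
        have h2 : (F.card : ℝ) * (volume M1).toReal ≤ 55296 ^ d * (volume M1).toReal := by
          calc (F.card : ℝ) * (volume M1).toReal ≤ 2 ^ d * ((3 / 2) ^ d * (volume K2).toReal) := hF1
            _ ≤ 2 ^ d * ((3 / 2) ^ d * (18432 ^ d * (volume M1).toReal)) := by gcongr
            _ = 55296 ^ d * (volume M1).toReal := by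
                rw [← mul_assoc, ← mul_assoc, ← mul_pow, ← mul_pow]; norm_num
        exact le_of_mul_le_mul_right h2 hM1r
      have h2 : F.card ≤ 55296 ^ d := by exact_mod_cast h1
      omega
    · obtain ⟨g, hg, hgx⟩ := hF'2 x hx
      exact ⟨g, hg, (hbox _).2 hgx⟩
  -- step B
  have stepB : ∃ F : Finset H, F.card ≤ 184320 ^ d ∧
      ∀ x ∈ box T3 1, ∃ g ∈ F, T2 (x - g) ∈ (4 : ℝ) • K2 := by
    obtain ⟨F, -, hF1, hF2⟩ := vcover M1 {y : Fin d → ℝ | ∀ i, |y i| ≤ 1}
      (Set.Icc (fun _ => (-(5 / 4) : ℝ)) (fun _ => 5 / 4)) hM1c hM1s hM1m hM1pos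
      (by
        rw [Real.volume_Icc_pi]
        exact ENNReal.prod_ne_top (fun i _ => by simp))
      (by
        intro x hx m hm
        constructor
        · intro i
          have h1 := hx i
          have h2 := hm.2 i
          simp only [Pi.add_apply, Pi.smul_apply, smul_eq_mul]
          rw [abs_le] at h1 h2
          linarith [h1.1, h2.1]
        · intro i
          have h1 := hx i
          have h2 := hm.2 i
          simp only [Pi.add_apply, Pi.smul_apply, smul_eq_mul]
          rw [abs_le] at h1 h2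
          linarith [h1.2, h2.2])
    obtain ⟨F', hF'1, hF'2⟩ := transfer T2 ((2 : ℝ) • K2) ((4 : ℝ) • K2) F (box T3 1)
      (by
        intro x hx
        rw [hbox] at hx
        -- split the vector
        set q : Fin d → ℝ := fun i => if e i ≤ 1 then T2 x i else 0 with hq
        set z : Fin d → ℝ := fun i => if e i ≤ 1 then 0 else T2 x i with hz
        have hqz : T2 x = q + z := by
          funext i
          simp only [hq, hz, Pi.add_apply]
          split_ifs <;> simp
        have hq1 : ∀ i, |q i| ≤ 1 := by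
          intro i
          simp only [hq]
          split_ifs with h
          · exact (hx i).trans h
          · simp
        have hz1 : z ∈ K2 := by
          apply hinn
          intro i
          simp only [hz]
          split_ifs with h
          · rw [abs_zero]
            have := ha i
            positivity
          · refine (hx i).trans ?_
            push Not at h
            simp only [he] at h ⊢
            rcases lt_max_iff.1 h with h1 | h1
            · exact absurd (min_le_left _ _) (not_le.2 h1)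
            · apply max_le _ le_rfl
              exact (min_le_left _ _).trans h1.le
        obtain ⟨f, hf, hfq⟩ := hF2 q hq1
        refine ⟨f, hf, ?_⟩
        have h1 : T2 x - f = (1 : ℝ) • (q - f) + (1 : ℝ) • z := by
          rw [hqz, one_smul, one_smul]; abel
        rw [h1]
        have := mem_smul_of_cb hK2 hfq.1 hz1 1 1 (by norm_num) (by norm_num) (by norm_num)
        norm_num at this ⊢
        exact this)
      (by
        rintro _ ⟨k, hk, rfl⟩ _ ⟨l, hl, rfl⟩
        have := mem_smul_of_cb hK2 hk (hK2.symm l hl) 2 2 (by norm_num) (by norm_num) (by norm_num)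
        simp only
        rw [sub_eq_add_neg, ← smul_neg]
        norm_num at this ⊢
        exact this)
    refine ⟨F', ?_, hF'2⟩
    have hcube : (volume (Set.Icc (fun _ : Fin d => (-(5 / 4) : ℝ)) (fun _ => 5 / 4))).toReal
        = (5 / 2) ^ d := by
      rw [Real.volume_Icc_pi_toReal (fun i => by norm_num)]
      simp only [Finset.prod_const, Finset.card_univ, Fintype.card_fin]
      norm_num
    rw [hcube] at hF1
    have h1 : (F.card : ℝ) ≤ 184320 ^ d := by
      have h3 : (1 : ℝ) ≤ 36864 ^ d * (volume M1).toReal := by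
        calc (1 : ℝ) = 2 ^ d * (1 / 2) ^ d := by rw [← mul_pow]; norm_num
          _ ≤ 2 ^ d * (18432 ^ d * (volume M1).toReal) := by
              have := hvol1.trans hvol2
              gcongr
          _ = 36864 ^ d * (volume M1).toReal := by rw [← mul_assoc, ← mul_pow]; norm_num
      have h2 : (F.card : ℝ) * (volume M1).toReal ≤ 184320 ^ d * (volume M1).toReal := by
        calc (F.card : ℝ) * (volume M1).toReal ≤ 2 ^ d * (5 / 2) ^ d := hF1
          _ = 5 ^ d * 1 := by rw [← mul_pow]; norm_num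
          _ ≤ 5 ^ d * (36864 ^ d * (volume M1).toReal) := by gcongr
          _ = 184320 ^ d * (volume M1).toReal := by rw [← mul_assoc, ← mul_pow]; norm_num
      exact le_of_mul_le_mul_right h2 hM1r
    have h2 : F.card ≤ 184320 ^ d := by exact_mod_cast h1
    omega
  obtain ⟨F3, hF3c, hF3⟩ := stepA
  obtain ⟨F1, hF1c, hF1⟩ := stepB
  obtain ⟨F2, hF2c, hF2⟩ := cover_four T2 hK2
  set Lf : Finset H := hfin.toFinset with hLf
  have hLfc : Lf.card = (pts T K).ncard := by
    rw [hLf, Set.ncard_eq_toFinset_card _ hfin]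
  have hsub : box T3 1 ⊆ ((F1 + (F2 + Lf) : Finset H) : Set H) := by
    intro x hx
    obtain ⟨g, hg, hgx⟩ := hF1 x hx
    obtain ⟨g', hg', hgx'⟩ := hF2 (x - g) hgx
    have h1 : x - g - g' ∈ Lf := by
      rw [hLf, Set.Finite.mem_toFinset, ← hpts]
      exact hgx'
    rw [Finset.mem_coe, Finset.mem_add]
    refine ⟨g, hg, g' + (x - g - g'), Finset.add_mem_add hg' h1, ?_⟩
    abel
  have hboxfin : (box T3 1).Finite := (Finset.finite_toSet _).subset hsub
  have hboxcard : (box T3 1).ncard ≤ 3133440 ^ d * (pts T K).ncard := by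
    calc (box T3 1).ncard ≤ ((F1 + (F2 + Lf) : Finset H) : Set H).ncard :=
          Set.ncard_le_ncard hsub (Finset.finite_toSet _)
      _ = (F1 + (F2 + Lf)).card := Set.ncard_coe_finset _
      _ ≤ F1.card * (F2.card * Lf.card) :=
          Finset.card_add_le.trans (Nat.mul_le_mul_left _ Finset.card_add_le)
      _ ≤ 184320 ^ d * (17 ^ d * Lf.card) := by gcongr
      _ = 3133440 ^ d * (pts T K).ncard := by
          rw [hLfc, ← mul_assoc, ← mul_pow]
          norm_num
  have hlog : 0 ≤ Real.logb 2 d := Real.logb_nonneg (by norm_num) hd1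
  -- covering radius
  have hcov3 : ∀ y : Fin d → ℝ, ∃ x : H,
      ‖T3 x - y‖ ≤ 1 / (120 * (d : ℝ) ^ 3 * (1 + Real.logb 2 d)) := by
    intro y
    set y2 : Fin d → ℝ := fun i => e i * y i with hy2
    obtain ⟨x, k, hk, hx⟩ := hcov (W⁻¹ *ᵥ y2)
    set δ : ℝ := 1 / (120 * (d : ℝ) ^ 5 * (1 + Real.logb 2 d)) with hδ
    have hδ0 : 0 < δ := by positivity
    refine ⟨x, ?_⟩
    have h1 : T2 x - y2 = δ • (W *ᵥ k) := by
      rw [← Matrix.mulVec_smul, ← hx, Matrix.mulVec_sub, Matrix.mulVec_mulVec,
        Matrix.mul_nonsing_inv _ (isUnit_iff_ne_zero.2 hW), Matrix.one_mulVec]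
      rfl
    have h2 : ∀ i, |T2 x i - y2 i| ≤ δ * (Real.sqrt d * a i) := by
      intro i
      have h3 := congrFun h1 i
      rw [Pi.sub_apply, Pi.smul_apply, smul_eq_mul] at h3
      rw [h3, abs_mul, abs_of_pos hδ0]
      exact mul_le_mul_of_nonneg_left (hout _ ⟨k, hk, rfl⟩ i) hδ0.le
    rw [pi_norm_le_iff_of_nonneg (by positivity)]
    intro i
    have h3 : T3 x i - y i = (T2 x i - y2 i) / e i := by
      rw [hT3a, hy2]
      have := (hepos i).ne'
      field_simp
    rw [Pi.sub_apply, h3, Real.norm_eq_abs, abs_div, abs_of_pos (hepos i),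
      div_le_iff₀ (hepos i)]
    refine (h2 i).trans ?_
    have h4 : a i ≤ (d * Real.sqrt d) * e i := by
      have : a i / (d * Real.sqrt d) ≤ e i := le_max_right _ _
      rw [div_le_iff₀ (by positivity)] at this
      linarith
    have h5 : δ * (Real.sqrt d * a i) ≤ δ * (d : ℝ) ^ 2 * e i := by
      calc δ * (Real.sqrt d * a i) ≤ δ * (Real.sqrt d * ((d * Real.sqrt d) * e i)) := by gcongr
        _ = δ * (d * (Real.sqrt d * Real.sqrt d)) * e i := by ring
        _ = δ * (d : ℝ) ^ 2 * e i := by rw [hsq]; ring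
    refine h5.trans ?_
    have h6 : δ * (d : ℝ) ^ 2 ≤ 1 / (120 * (d : ℝ) ^ 3 * (1 + Real.logb 2 d)) := by
      have h7 : δ * (d : ℝ) ^ 2 = 1 / (120 * (d : ℝ) ^ 3 * (1 + Real.logb 2 d)) := by
        rw [hδ]
        field_simp
      exact h7.le
    exact mul_le_mul_of_nonneg_right h6 (hepos i).le
  have hT3inj : Function.Injective T3 := by
    intro x y hxy
    apply hinj
    apply hWinj
    rw [← hT2a, ← hT2a]
    funext i
    have h1 := congrFun hxy i
    rw [hT3a, hT3a] at h1
    have h2 := (hepos i).ne'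
    field_simp at h1
    exact h1
  obtain ⟨r, b, v, N, F, hr, hN, hPfin, hPc, hFc, hcover⟩ := coverBox2 d hd T3 hT3inj hboxfin hcov3
  refine ⟨r, b, v, N, F3 + F, hr, hN, hPfin, ?_, ?_, ?_⟩
  · calc (prog b v N).ncard ≤ 10 ^ d * (box T3 1).ncard := hPc
      _ ≤ 10 ^ d * (3133440 ^ d * (pts T K).ncard) := Nat.mul_le_mul_left _ hboxcard
      _ = 31334400 ^ d * (pts T K).ncard := by rw [← mul_assoc, ← mul_pow]; norm_num
      _ ≤ 2 ^ (25 * d) * (pts T K).ncard := by
          apply Nat.mul_le_mul_right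
          rw [pow_mul]
          exact Nat.pow_le_pow_left (by norm_num) d
  · calc (F3 + F).card ≤ F3.card * F.card := Finset.card_add_le
      _ ≤ 55296 ^ d * 10 ^ d := Nat.mul_le_mul hF3c hFc
      _ = 552960 ^ d := by rw [← mul_pow]; norm_num
      _ ≤ 2 ^ (20 * d) := by
          rw [pow_mul]
          exact Nat.pow_le_pow_left (by norm_num) d
  · intro x hx
    rw [← hpts] at hx
    obtain ⟨g, hg, hgx⟩ := hF3 x hx
    obtain ⟨f, hf, p, hp, hfp⟩ := hcover hgx
    refine ⟨g + f, ?_, p, hp, ?_⟩
    · rw [Finset.mem_coe]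
      exact Finset.add_mem_add hg hf
    · have : f + p = x - g := hfp
      show g + f + p = x
      rw [add_assoc, this]
      abel

end R124.IP
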