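import Pool.Agent.R124.IP.Basis
import Pool.Agent.R124.IP.Count

set_option autoImplicit false

namespace R124.IP

/-- The fine part: a progression that meets all classes modulo `Λ`. -/
lemma fine {H : Type} [AddCommGroup H] {d : ℕ} (T : H →+ (Fin d → ℝ))
    (hinj : Function.Injective T) (hfin : ∀ r : ℝ, (box T r).Finite) (σ : ℝ) (hσ : 0 < σ)
    (Λ : AddSubgroup H) (hrep : ∀ x : H, ∃ y : H, ‖T y‖ ≤ 2 * σ ∧ x - y ∈ Λ)
    (l : ℕ) (hl : 4 * d + 4 ≤ 2 ^ l) :
    ∃ (u : Fin (d + d * (d * l + 3)) → H) (M : Fin (d + d * (d * l + 3)) → ℕ),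
      (∀ i, 1 ≤ M i) ∧
      (∀ k : Fin (d + d * (d * l + 3)) → ℕ, (∀ i, k i < M i) →
        ‖T (∑ i, k i • u i)‖ ≤ d * σ + d * (d * l + 3) * (2 * σ)) ∧
      ∀ x : H, ∃ k : Fin (d + d * (d * l + 3)) → ℕ, (∀ i, k i < M i) ∧ x - ∑ i, k i • u i ∈ Λ := by
  classical
  set K0 : ℕ := d * l + 3 with hK0
  set S : ℕ := (4 * d + 4) ^ d with hS
  have hS1 : 1 ≤ S := Nat.one_le_pow _ _ (by omega)
  set Q : ℕ := 2 * S + 1 with hQ
  have hQ2 : 2 * Q < 2 ^ K0 := by
    have h1 : S ≤ 2 ^ (d * l) := by
      rw [hS, mul_comm d l, pow_mul]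
      exact Nat.pow_le_pow_left hl d
    rw [hK0, pow_add]
    omega
  -- the basis
  obtain ⟨b', hb', hrepb⟩ := exists_basis d (Fin d → ℝ) T.range (by simp) (by
    intro r
    apply ((hfin r).image T).subset
    rintro _ ⟨⟨x, rfl⟩, hx⟩
    exact ⟨x, hx, rfl⟩)
  choose b hb using fun i => (hb' i)
  have hbasis : ∀ x : H, ∃ c : Fin d → ℤ, x = ∑ i, c i • b i ∧
      (∀ i, |(c i : ℝ)| * ‖T (b i)‖ ≤ S * ‖T x‖) ∧ ∀ i, T (b i) = 0 → c i = 0 := by
    intro x
    obtain ⟨c, hc1, hc2⟩ := hrepb (T x) ⟨x, rfl⟩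
    refine ⟨fun i => if T (b i) = 0 then 0 else c i, ?_, ?_, ?_⟩
    · apply hinj
      rw [hc1, map_sum]
      refine Finset.sum_congr rfl (fun i _ => ?_)
      rw [map_zsmul, ← hb i]
      show c i • T (b i) = (if T (b i) = 0 then 0 else c i) • T (b i)
      split_ifs with h
      · rw [h]; simp
      · rfl
    · intro i
      simp only
      split_ifs with h
      · simp; positivity
      · have := hc2 i
        rw [← hb i] at this
        rw [hS]
        push_cast
        exact this
    · intro i hi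
      simp only
      rw [if_pos hi]
  set N : Fin d → ℕ := fun i => ⌊σ / ‖T (b i)‖⌋₊ + 1 with hN
  have hNpos : ∀ i, 0 < N i := fun i => Nat.succ_pos _
  choose g hg1 hg2 using fun (p : Fin d × Fin K0) => hrep (2 ^ (p.2 : ℕ) • (N p.1 • b p.1))
  let u0 : Fin d ⊕ (Fin d × Fin K0) → H := Sum.elim b g
  let M0 : Fin d ⊕ (Fin d × Fin K0) → ℕ := Sum.elim N (fun _ => 2)
  have hcard : Fintype.card (Fin d ⊕ (Fin d × Fin K0)) = d + d * K0 := by simp
  let e : Fin (d + d * K0) ≃ Fin d ⊕ (Fin d × Fin K0) :=
    (Fintype.equivFinOfCardEq hcard).symm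
  have hsum : ∀ k : Fin (d + d * K0) → ℕ, ∑ i, k i • u0 (e i)
      = ∑ j, k (e.symm j) • u0 j := by
    intro k
    exact Fintype.sum_equiv e _ _ (fun i => by rw [Equiv.symm_apply_apply])
  refine ⟨fun i => u0 (e i), fun i => M0 (e i), ?_, ?_, ?_⟩
  · intro i
    simp only [M0]
    rcases e i with j | j
    · exact hNpos j
    · norm_num
  · intro k hk
    rw [hsum, Fintype.sum_sum_type]
    have hk' : ∀ j, k (e.symm j) < M0 j := by
      intro j
      have := hk (e.symm j)
      simpa using this
    rw [map_add, map_sum, map_sum]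
    refine (norm_add_le _ _).trans ?_
    apply add_le_add
    · calc ‖∑ i, T (k (e.symm (Sum.inl i)) • u0 (Sum.inl i))‖
          ≤ ∑ i, ‖T (k (e.symm (Sum.inl i)) • u0 (Sum.inl i))‖ := norm_sum_le _ _
        _ ≤ ∑ _i : Fin d, σ := by
            apply Finset.sum_le_sum
            intro i _
            have h1 : k (e.symm (Sum.inl i)) < N i := hk' (Sum.inl i)
            rw [map_nsmul]
            show ‖k (e.symm (Sum.inl i)) • T (b i)‖ ≤ σ
            rw [← Nat.cast_smul_eq_nsmul ℝ, norm_smul, Real.norm_natCast]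
            by_cases h0 : ‖T (b i)‖ = 0
            · rw [h0, mul_zero]; exact hσ.le
            · have h2 : 0 < ‖T (b i)‖ := lt_of_le_of_ne (norm_nonneg _) (Ne.symm h0)
              have h3 : (k (e.symm (Sum.inl i)) : ℝ) ≤ σ / ‖T (b i)‖ := by
                have h4 : k (e.symm (Sum.inl i)) ≤ ⌊σ / ‖T (b i)‖⌋₊ := by
                  simp only [hN] at h1
                  omega
                calc (k (e.symm (Sum.inl i)) : ℝ) ≤ (⌊σ / ‖T (b i)‖⌋₊ : ℝ) := by exact_mod_cast h4
                  _ ≤ σ / ‖T (b i)‖ := Nat.floor_le (by positivity)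
              rw [le_div_iff₀ h2] at h3
              exact h3
        _ = d * σ := by rw [Finset.sum_const, Finset.card_univ, Fintype.card_fin, nsmul_eq_mul]
    · calc ‖∑ p, T (k (e.symm (Sum.inr p)) • u0 (Sum.inr p))‖
          ≤ ∑ p, ‖T (k (e.symm (Sum.inr p)) • u0 (Sum.inr p))‖ := norm_sum_le _ _
        _ ≤ ∑ _p : Fin d × Fin K0, 2 * σ := by
            apply Finset.sum_le_sum
            intro p _
            have h1 : k (e.symm (Sum.inr p)) < 2 := hk' (Sum.inr p)
            have h2 : ‖T (u0 (Sum.inr p))‖ ≤ 2 * σ := hg1 p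
            rw [map_nsmul, ← Nat.cast_smul_eq_nsmul ℝ, norm_smul, Real.norm_natCast]
            have h3 : (k (e.symm (Sum.inr p)) : ℝ) ≤ 1 := by
              have : k (e.symm (Sum.inr p)) ≤ 1 := by omega
              exact_mod_cast this
            have h4 := norm_nonneg (T (u0 (Sum.inr p)))
            nlinarith
        _ = d * (d * l + 3) * (2 * σ) := by
            rw [Finset.sum_const, Finset.card_univ, Fintype.card_prod, Fintype.card_fin,
              Fintype.card_fin, nsmul_eq_mul, hK0]
            push_cast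
            ring
  · intro x
    set h : H := -∑ i, (Q * N i) • b i with hh
    obtain ⟨y, hy1, hy2⟩ := hrep (x + h)
    obtain ⟨c, hc1, hc2, hc3⟩ := hbasis y
    have hNz : ∀ i, (0 : ℤ) < N i := fun i => by exact_mod_cast hNpos i
    set q : Fin d → ℤ := fun i => c i / N i with hq
    set r : Fin d → ℤ := fun i => c i % N i with hr
    have hqr : ∀ i, c i = r i + q i * N i := fun i => by
      have := Int.emod_add_mul_ediv (c i) (N i)
      simp only [hq, hr]
      linarith [mul_comm (N i : ℤ) (c i / N i)]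
    have hr0 : ∀ i, 0 ≤ r i := fun i => Int.emod_nonneg _ (hNz i).ne'
    have hr1 : ∀ i, r i < N i := fun i => Int.emod_lt_of_pos _ (hNz i)
    have hqb : ∀ i, |q i| ≤ Q := by
      intro i
      by_cases h0 : T (b i) = 0
      · have : q i = 0 := by simp only [hq]; rw [hc3 i h0]; simp
        rw [this]
        simp
      · have h2 : 0 < ‖T (b i)‖ := norm_pos_iff.2 h0
        have h3 : σ / ‖T (b i)‖ < N i := by
          simp only [hN]
          push_cast
          exact Nat.lt_floor_add_one _
        have h4 : |(c i : ℝ)| ≤ 2 * S * N i := by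
          have h5 : |(c i : ℝ)| * ‖T (b i)‖ ≤ S * (2 * σ) :=
            (hc2 i).trans (by gcongr)
          rw [div_lt_iff₀ h2] at h3
          have h6 : S * (2 * σ) ≤ 2 * S * N i * ‖T (b i)‖ := by
            have h7 : (0 : ℝ) ≤ S := Nat.cast_nonneg _
            nlinarith
          exact le_of_mul_le_mul_right (h5.trans h6) h2
        have h5 : |c i| ≤ 2 * S * N i := by
          have : ((|c i| : ℤ) : ℝ) ≤ ((2 * S * N i : ℤ) : ℝ) := by
            push_cast
            exact h4
          exact_mod_cast this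
        have h6 : |q i| * N i ≤ |c i| + N i := by
          have h7 : q i * N i = c i - r i := by rw [hqr i]; ring
          have h8 : |q i| * N i = |c i - r i| := by
            rw [← h7, abs_mul, abs_of_pos (hNz i)]
          rw [h8]
          refine (abs_sub _ _).trans ?_
          have h9 : |r i| ≤ N i := by
            rw [abs_of_nonneg (hr0 i)]; exact (hr1 i).le
          linarith
        have h7 : |q i| * N i ≤ Q * N i := by
          have : (Q : ℤ) = 2 * S + 1 := by rw [hQ]; push_cast; ring
          rw [this]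
          nlinarith
        exact le_of_mul_le_mul_right h7 (hNz i)
    have hqn : ∀ i, ∃ s : ℕ, (s : ℤ) = q i + Q ∧ s < 2 ^ K0 := by
      intro i
      have h1 := abs_le.1 (hqb i)
      refine ⟨(q i + Q).toNat, Int.toNat_of_nonneg (by linarith [h1.1]), ?_⟩
      have : (q i + Q).toNat ≤ 2 * Q := by
        rw [Int.toNat_le]
        push_cast
        linarith [h1.2]
      omega
    choose s hs1 hs2 using hqn
    choose ε hε1 hε2 using fun i => digits K0 (s i) (hs2 i)
    let k0 : Fin d ⊕ (Fin d × Fin K0) → ℕ :=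
      Sum.elim (fun i => (r i).toNat) (fun p => ε p.1 p.2)
    refine ⟨fun i => k0 (e i), ?_, ?_⟩
    · intro i
      simp only [k0, M0]
      rcases e i with j | p
      · simp only [Sum.elim_inl]
        have h1 := hr0 j
        have h2 := hr1 j
        omega
      · simp only [Sum.elim_inr]
        exact hε1 _ _
    · rw [hsum]
      simp only [Equiv.apply_symm_apply]
      rw [Fintype.sum_sum_type, Fintype.sum_prod_type]
      have h1 : ∑ i, k0 (Sum.inl i) • u0 (Sum.inl i) = ∑ i, r i • b i := by
        refine Finset.sum_congr rfl (fun i _ => ?_)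
        show (r i).toNat • b i = r i • b i
        conv_rhs => rw [← Int.toNat_of_nonneg (hr0 i)]
        rw [natCast_zsmul]
      have h2 : y - h = ∑ i, r i • b i + ∑ i, s i • (N i • b i) := by
        rw [hc1, hh, sub_neg_eq_add, ← Finset.sum_add_distrib, ← Finset.sum_add_distrib]
        refine Finset.sum_congr rfl (fun i _ => ?_)
        rw [hqr i, ← natCast_zsmul (N i • b i) (s i), hs1 i, ← natCast_zsmul (b i) (N i),
          smul_smul, ← natCast_zsmul (b i) (Q * N i), ← add_smul, ← add_smul]
        congr 1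
        push_cast
        ring
      have h3 : ∑ i, s i • (N i • b i)
          - ∑ i, ∑ j, k0 (Sum.inr (i, j)) • u0 (Sum.inr (i, j)) ∈ Λ := by
        rw [← Finset.sum_sub_distrib]
        refine Λ.sum_mem (fun i _ => ?_)
        have h4 : s i • (N i • b i) = ∑ j : Fin K0, ε i j • (2 ^ (j : ℕ) • (N i • b i)) := by
          conv_lhs => rw [hε2 i]
          rw [Finset.sum_smul]
          exact Finset.sum_congr rfl (fun j _ => by rw [mul_nsmul'])
        rw [h4, ← Finset.sum_sub_distrib]
        refine Λ.sum_mem (fun j _ => ?_)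
        show ε i j • (2 ^ (j : ℕ) • (N i • b i)) - ε i j • g (i, j) ∈ Λ
        rw [← nsmul_sub]
        exact Λ.nsmul_mem (hg2 (i, j)) _
      have h5 : x - (∑ i, k0 (Sum.inl i) • u0 (Sum.inl i)
            + ∑ i, ∑ j, k0 (Sum.inr (i, j)) • u0 (Sum.inr (i, j)))
          = (x + h - y) + (∑ i, s i • (N i • b i)
          - ∑ i, ∑ j, k0 (Sum.inr (i, j)) • u0 (Sum.inr (i, j))) := by
        have h6 : x = (x + h - y) + (y - h) := by abel
        rw [h1]
        conv_lhs => rw [h6, h2]
        abel
      rw [h5]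
      exact Λ.add_mem hy2 h3

end R124.IP
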