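import Mathlib

set_option autoImplicit false

namespace R124.IP

/-- binary digits -/
lemma digits (k : ℕ) : ∀ c : ℕ, c < 2 ^ k → ∃ ε : Fin k → ℕ, (∀ i, ε i < 2) ∧
    c = ∑ i, ε i * 2 ^ (i : ℕ) := by
  induction k with
  | zero =>
    intro c hc
    refine ⟨fun _ => 0, fun i => by simp, ?_⟩
    simp at hc ⊢
    exact hc
  | succ k ih =>
    intro c hc
    obtain ⟨ε, h1, h2⟩ := ih (c % 2 ^ k) (Nat.mod_lt _ (by positivity))
    refine ⟨Fin.snoc ε (c / 2 ^ k), ?_, ?_⟩
    · intro i
      refine Fin.lastCases ?_ (fun j => ?_) i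
      · simp only [Fin.snoc_last]
        rw [Nat.div_lt_iff_lt_mul (by positivity)]
        rw [pow_succ] at hc
        linarith
      · simp only [Fin.snoc_castSucc]
        exact h1 j
    · rw [Fin.sum_univ_castSucc]
      simp only [Fin.snoc_castSucc, Fin.snoc_last, Fin.val_castSucc, Fin.val_last]
      rw [← h2]
      have := Nat.mod_add_div c (2 ^ k)
      linarith [Nat.mul_comm (2 ^ k) (c / 2 ^ k)]

/-- A finite abelian group `H` is the set of subset sums of `m` elements, `2 ^ m ≤ |H| ^ 2`. -/
lemma subsetSums (n : ℕ) : ∀ (H : Type) [AddCommGroup H] [Finite H], Nat.card H = n →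
    ∃ (m : ℕ) (g : Fin m → H), 2 ^ m ≤ n ^ 2 ∧
      ∀ h : H, ∃ ε : Fin m → ℕ, (∀ i, ε i < 2) ∧ h = ∑ i, ε i • g i := by
  induction n using Nat.strong_induction_on with
  | _ n ih =>
    intro H _ _ hn
    by_cases htriv : Subsingleton H
    · refine ⟨0, fun i => 0, ?_, ?_⟩
      · have : 0 < n := by rw [← hn]; exact Nat.card_pos
        simp only [pow_zero]
        exact Nat.one_le_pow _ _ this
      · intro h
        exact ⟨fun _ => 0, fun i => by simp, Subsingleton.elim _ _⟩
    · rw [not_subsingleton_iff_nontrivial] at htriv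
      obtain ⟨g0, hg0⟩ := exists_ne (0 : H)
      set S := AddSubgroup.zmultiples g0 with hS
      set o := addOrderOf g0 with ho
      have ho2 : 2 ≤ o := by
        have h1 : 0 < o := addOrderOf_pos g0
        have h2 : o ≠ 1 := by
          intro h
          exact hg0 (AddMonoid.addOrderOf_eq_one_iff.1 h)
        omega
      have hcardS : Nat.card S = o := by
        rw [hS, Nat.card_zmultiples]
      have hmul : Nat.card H = Nat.card (H ⧸ S) * Nat.card S :=
        AddSubgroup.card_eq_card_quotient_mul_card_addSubgroup S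
      have hqpos : 0 < Nat.card (H ⧸ S) := Nat.card_pos
      have hlt : Nat.card (H ⧸ S) < n := by
        rw [← hn, hmul, hcardS]
        nlinarith
      obtain ⟨m, g, hm, hg⟩ := ih _ hlt (H ⧸ S) rfl
      choose gl hgl using fun i => QuotientAddGroup.mk_surjective (g i)
      set k := Nat.clog 2 o with hk
      have hk1 : o ≤ 2 ^ k := Nat.le_pow_clog (by norm_num) _
      have hk2 : 2 ^ k ≤ o ^ 2 := by
        have h1 : 2 ^ (k - 1) < o := Nat.pow_pred_clog_lt_self (by norm_num) (by omega)
        have h2 : 0 < k := Nat.clog_pos (by norm_num) ho2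
        have h3 : 2 ^ k = 2 ^ (k - 1) * 2 := by
          rw [← pow_succ]
          congr 1
          omega
        rw [h3]
        nlinarith
      refine ⟨m + k, Fin.append gl (fun i => 2 ^ (i : ℕ) • g0), ?_, ?_⟩
      · rw [pow_add, ← hn, hmul, hcardS, mul_pow]
        exact Nat.mul_le_mul hm hk2
      · intro h
        obtain ⟨ε, he1, he2⟩ := hg (QuotientAddGroup.mk h)
        have hmem : h - ∑ i, ε i • gl i ∈ S := by
          rw [← QuotientAddGroup.eq_zero_iff]
          rw [QuotientAddGroup.mk_sub, sub_eq_zero, he2]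
          have : ((∑ i, ε i • gl i : H) : H ⧸ S) = ∑ i, ε i • ((gl i : H) : H ⧸ S) := by
            have := map_sum (QuotientAddGroup.mk' S) (fun i => ε i • gl i) Finset.univ
            simp
          rw [this]
          exact Finset.sum_congr rfl (fun i _ => by rw [hgl])
        obtain ⟨c, hc, hc2⟩ : ∃ c : ℕ, c < o ∧ c • g0 = h - ∑ i, ε i • gl i := by
          classical
          have := hmem
          rw [hS, mem_zmultiples_iff_mem_range_addOrderOf] at this
          simpa using this
        obtain ⟨δ, hd1, hd2⟩ := digits k c (lt_of_lt_of_le hc hk1)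
        refine ⟨Fin.append ε δ, ?_, ?_⟩
        · intro i
          refine Fin.addCases (fun j => ?_) (fun j => ?_) i
          · rw [Fin.append_left]; exact he1 j
          · rw [Fin.append_right]; exact hd1 j
        · rw [Fin.sum_univ_add]
          simp only [Fin.append_left, Fin.append_right]
          have h3 : ∑ i : Fin k, δ i • (2 ^ (i : ℕ) • g0) = c • g0 := by
            rw [hd2, Finset.sum_smul]
            exact Finset.sum_congr rfl (fun i _ => by rw [mul_nsmul'])
          rw [h3, hc2]
          abel

end R124.IP
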