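import Pool.Agent.R124.IP.Dim2
import Pool.Agent.R124.IP.Final2

set_option autoImplicit false

open MeasureTheory Matrix Set
open scoped Pointwise
open Pool.Agent.H845R2

namespace R124.IP

/-- `T` embeds `H` as a lattice in `ℝ^d` and `B` is a symmetric convex body that is large: the
translates by lattice points of `B`, scaled by `1 / (120 d ^ 5 (1 + log₂ d))`, cover `ℝ^d`. -/
structure Large {H : Type} [AddCommGroup H] {d : ℕ} (T : H →+ (Fin d → ℝ))
    (B : Set (Fin d → ℝ)) : Prop where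
  dim : 1 ≤ d
  inj : Function.Injective T
  body : CB B
  fin : (pts T B).Finite
  cov : ∀ y : Fin d → ℝ, ∃ x : H, ∃ k ∈ B,
    T x - y = (1 / (120 * (d : ℝ) ^ 5 * (1 + Real.logb 2 d))) • k

/-- The conclusion of the conjecture, with the constant `C` and with rank `C (1 + log K) ^ 3`. -/
def Concl (C K : ℝ) {G : Type} [AddCommGroup G] (A : Set G) : Prop :=
  ∃ (r : ℕ) (a : G) (v : Fin r → G) (N : Fin r → ℕ),
    (r : ℝ) ≤ C * (1 + Real.log K) ^ 3 ∧ (∀ i, 1 ≤ N i) ∧ (prog a v N).Finite ∧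
    ((prog a v N).ncard : ℝ) ≤ C * K ^ C * A.ncard ∧
    C⁻¹ * K ^ (-C) * A.ncard ≤ ((A ∩ prog a v N).ncard : ℝ)

lemma two_pow_le {C₀ K : ℝ} (hK : 1 ≤ K) (d m : ℕ)
    (hd : (d : ℝ) ≤ C₀ * (1 + Real.log K)) :
    (2 : ℝ) ^ (m * d) ≤ Real.exp (m * C₀) * K ^ ((m : ℝ) * C₀) := by
  have hK0 : 0 < K := by linarith
  have h1 : (2 : ℝ) ≤ Real.exp 1 := by
    have := Real.add_one_le_exp (1 : ℝ)
    linarith
  calc (2 : ℝ) ^ (m * d) ≤ (Real.exp 1) ^ (m * d) := by gcongr
    _ = Real.exp (m * d) := by rw [← Real.exp_nat_mul]; push_cast; ring_nf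
    _ ≤ Real.exp (m * (C₀ * (1 + Real.log K))) := by gcongr
    _ = Real.exp (m * C₀) * K ^ ((m : ℝ) * C₀) := by
        rw [Real.rpow_def_of_pos hK0, ← Real.exp_add]
        ring_nf

/-- sets commensurate with an image of the lattice points of a large convex body of dimension
`O(log K)` -/
theorem near (C₀ : ℝ) (hC₀ : 1 ≤ C₀) : ∃ C : ℝ, 1 ≤ C ∧
    ∀ (G : Type) [AddCommGroup G] (K : ℝ) (A : Set G) (d : ℕ) (H : Type) [AddCommGroup H]
      (T : H →+ (Fin d → ℝ)) (B : Set (Fin d → ℝ)) (φ : H →+ G) (t : G),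
      1 ≤ K → A.Finite → Large T B → (d : ℝ) ≤ C₀ * (1 + Real.log K) →
      ((pts T B).ncard : ℝ) ≤ C₀ * K ^ C₀ * A.ncard →
      (A.ncard : ℝ) ≤ C₀ * K ^ C₀ * (A ∩ (fun x => t + φ x) '' pts T B).ncard →
      Concl C K A := by
  classical
  set C : ℝ := 9 * C₀ ^ 3 + 26 * C₀ + C₀ * Real.exp (25 * C₀) with hC
  have hCe : C₀ * Real.exp (25 * C₀) ≤ C := by
    rw [hC]; have : 0 ≤ 9 * C₀ ^ 3 + 26 * C₀ := by positivity
    linarith
  have hC26 : 26 * C₀ ≤ C := by
    rw [hC]; have : 0 ≤ 9 * C₀ ^ 3 + C₀ * Real.exp (25 * C₀) := by positivity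
    linarith
  have hC9 : 9 * C₀ ^ 3 ≤ C := by
    rw [hC]; have : 0 ≤ 26 * C₀ + C₀ * Real.exp (25 * C₀) := by positivity
    linarith
  have hC1 : 1 ≤ C := by linarith
  refine ⟨C, hC1, ?_⟩
  intro G _ K A d H _ T B φ t hK hA hL hd hM hN
  have hK0 : 0 < K := by linarith
  have hlogK : 0 ≤ Real.log K := Real.log_nonneg hK
  have hd1 : (1 : ℝ) ≤ d := by exact_mod_cast hL.dim
  obtain ⟨r, a, v, N, F, hr, hN1, hPfin, hPc, hFc, hcover⟩ :=
    convexCover2 d hL.dim T hL.inj B hL.body hL.fin hL.cov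
  -- the image
  have himg : φ '' prog a v N = prog (φ a) (φ ∘ v) N := by
    ext x
    constructor
    · rintro ⟨_, ⟨k, hk, rfl⟩, rfl⟩
      exact ⟨k, hk, by simp [map_sum]⟩
    · rintro ⟨k, hk, rfl⟩
      exact ⟨a + ∑ i, k i • v i, ⟨k, hk, rfl⟩, by simp [map_sum]⟩
  have hshift : ∀ g : G, prog (g + φ a) (φ ∘ v) N = (fun x => g + φ x) '' prog a v N := by
    intro g
    ext x
    constructor
    · rintro ⟨k, hk, rfl⟩
      exact ⟨a + ∑ i, k i • v i, ⟨k, hk, rfl⟩, by simp [map_sum, add_assoc]⟩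
    · rintro ⟨_, ⟨k, hk, rfl⟩, rfl⟩
      exact ⟨k, hk, by simp [map_sum, add_assoc]⟩
  set A' : Set G := A ∩ (fun x => t + φ x) '' pts T B with hA'
  have hA'fin : A'.Finite := hA.subset Set.inter_subset_left
  -- pigeonhole
  have hpig : ∃ f ∈ insert (0 : H) F, A'.ncard ≤
      (F.card + 1) * (A' ∩ prog (t + φ f + φ a) (φ ∘ v) N).ncard := by
    by_contra hcon
    push Not at hcon
    have h1 : A' ⊆ ⋃ f ∈ F, (A' ∩ prog (t + φ f + φ a) (φ ∘ v) N) := by
      intro x hx
      obtain ⟨y, hy, hyx⟩ := hx.2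
      obtain ⟨f, hf, p, hp, hfp⟩ := hcover hy
      rw [Set.mem_iUnion₂]
      refine ⟨f, hf, hx, ?_⟩
      rw [hshift]
      refine ⟨p, hp, ?_⟩
      have : f + p = y := hfp
      simp only at hyx ⊢
      rw [← hyx, ← this, map_add, add_assoc]
    have h2 : A'.ncard ≤ ∑ f ∈ F, (A' ∩ prog (t + φ f + φ a) (φ ∘ v) N).ncard := by
      refine (Set.ncard_le_ncard h1 ?_).trans (Finset.set_ncard_biUnion_le F _)
      exact Set.Finite.biUnion F.finite_toSet (fun f _ => hA'fin.subset Set.inter_subset_left)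
    by_cases hne : A'.ncard = 0
    · have := hcon 0 (Finset.mem_insert_self _ _)
      omega
    · have h3 : ∀ f ∈ F, (F.card + 1) * (A' ∩ prog (t + φ f + φ a) (φ ∘ v) N).ncard ≤ A'.ncard :=
        fun f hf => (hcon f (Finset.mem_insert_of_mem hf)).le
      have h4 : (F.card + 1) * A'.ncard ≤ F.card * A'.ncard := by
        calc (F.card + 1) * A'.ncard
            ≤ (F.card + 1) * ∑ f ∈ F, (A' ∩ prog (t + φ f + φ a) (φ ∘ v) N).ncard :=
              Nat.mul_le_mul_left _ h2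
          _ = ∑ f ∈ F, (F.card + 1) * (A' ∩ prog (t + φ f + φ a) (φ ∘ v) N).ncard :=
              Finset.mul_sum _ _ _
          _ ≤ ∑ _f ∈ F, A'.ncard := Finset.sum_le_sum h3
          _ = F.card * A'.ncard := by rw [Finset.sum_const, smul_eq_mul]
      have h5 : 0 < A'.ncard := Nat.pos_of_ne_zero hne
      nlinarith
  obtain ⟨f, -, hf⟩ := hpig
  have hPim : prog (t + φ f + φ a) (φ ∘ v) N = (fun x => t + φ f + φ x) '' prog a v N :=
    hshift _
  refine ⟨r, t + φ f + φ a, φ ∘ v, N, ?_, hN1, ?_, ?_, ?_⟩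
  · -- rank
    have h1 : Real.logb 2 d ≤ d - 1 := by
      have h2 : (d : ℝ) ≤ 2 ^ (d - 1 : ℕ) := by
        have : d ≤ 2 ^ (d - 1) := by
          have := Nat.lt_two_pow_self (n := d - 1)
          have h0 := hL.dim
          omega
        exact_mod_cast this
      have h3 := Real.logb_le_logb_of_le (b := 2) (by norm_num) (by linarith) h2
      rw [Real.logb_pow, Real.logb_self_eq_one (by norm_num), mul_one,
        Nat.cast_sub hL.dim] at h3
      simpa using h3
    calc (r : ℝ) ≤ 9 * (d : ℝ) ^ 2 * (1 + Real.logb 2 d) := hr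
      _ ≤ 9 * (d : ℝ) ^ 2 * d := by gcongr; linarith
      _ = 9 * (d : ℝ) ^ 3 := by ring
      _ ≤ 9 * (C₀ * (1 + Real.log K)) ^ 3 := by gcongr
      _ = 9 * C₀ ^ 3 * (1 + Real.log K) ^ 3 := by ring
      _ ≤ C * (1 + Real.log K) ^ 3 := by gcongr
  · rw [hPim]; exact hPfin.image _
  · -- size
    have h1 : ((prog (t + φ f + φ a) (φ ∘ v) N).ncard : ℝ) ≤ 2 ^ (25 * d) * (pts T B).ncard := by
      have : (prog (t + φ f + φ a) (φ ∘ v) N).ncard ≤ 2 ^ (25 * d) * (pts T B).ncard := by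
        rw [hPim]
        exact (Set.ncard_image_le hPfin).trans hPc
      exact_mod_cast this
    have h2 := two_pow_le hK d 25 hd
    push_cast at h2
    calc ((prog (t + φ f + φ a) (φ ∘ v) N).ncard : ℝ) ≤ 2 ^ (25 * d) * (pts T B).ncard := h1
      _ ≤ (Real.exp (25 * C₀) * K ^ (25 * C₀)) * (C₀ * K ^ C₀ * A.ncard) := by gcongr
      _ = (C₀ * Real.exp (25 * C₀)) * (K ^ (25 * C₀) * K ^ C₀) * A.ncard := by ring
      _ = (C₀ * Real.exp (25 * C₀)) * K ^ (26 * C₀) * A.ncard := by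
          rw [← Real.rpow_add hK0]; ring_nf
      _ ≤ C * K ^ C * A.ncard := by gcongr
  · -- density
    have h2 := two_pow_le hK d 21 hd
    push_cast at h2
    have h3 : (F.card : ℝ) + 1 ≤ 2 ^ (21 * d) := by
      have h4 : F.card + 1 ≤ 2 ^ (21 * d) := by
        have h5 : (2 : ℕ) ^ (20 * d) + 1 ≤ 2 ^ (21 * d) := by
          have h6 : 21 * d = 20 * d + d := by ring
          rw [h6, pow_add]
          have h7 : 2 ≤ 2 ^ d := by
            calc 2 = 2 ^ 1 := by norm_num
              _ ≤ 2 ^ d := Nat.pow_le_pow_right (by norm_num) hL.dim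
          have h8 : 1 ≤ 2 ^ (20 * d) := Nat.one_le_two_pow
          nlinarith
        omega
      exact_mod_cast h4
    have h4 : (A'.ncard : ℝ) ≤ (F.card + 1) * (A ∩ prog (t + φ f + φ a) (φ ∘ v) N).ncard := by
      have h5 : (A' ∩ prog (t + φ f + φ a) (φ ∘ v) N).ncard
          ≤ (A ∩ prog (t + φ f + φ a) (φ ∘ v) N).ncard :=
        Set.ncard_le_ncard (Set.inter_subset_inter_left _ Set.inter_subset_left)
          (hA.subset Set.inter_subset_left)
      have h6 := hf.trans (Nat.mul_le_mul_left _ h5)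
      exact_mod_cast h6
    have h5 : (A.ncard : ℝ) ≤ C * K ^ C * (A ∩ prog (t + φ f + φ a) (φ ∘ v) N).ncard := by
      calc (A.ncard : ℝ) ≤ C₀ * K ^ C₀ * A'.ncard := hN
        _ ≤ C₀ * K ^ C₀ * ((F.card + 1) * (A ∩ prog (t + φ f + φ a) (φ ∘ v) N).ncard) := by
            gcongr
        _ ≤ C₀ * K ^ C₀ * ((Real.exp (21 * C₀) * K ^ (21 * C₀)) *
              (A ∩ prog (t + φ f + φ a) (φ ∘ v) N).ncard) := by
            gcongr
            exact h3.trans h2
        _ = (C₀ * Real.exp (21 * C₀)) * (K ^ (21 * C₀) * K ^ C₀) *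
              (A ∩ prog (t + φ f + φ a) (φ ∘ v) N).ncard := by ring
        _ = (C₀ * Real.exp (21 * C₀)) * K ^ (22 * C₀) *
              (A ∩ prog (t + φ f + φ a) (φ ∘ v) N).ncard := by
            rw [← Real.rpow_add hK0]; ring_nf
        _ ≤ C * K ^ C * (A ∩ prog (t + φ f + φ a) (φ ∘ v) N).ncard := by
            have e1 : C₀ * Real.exp (21 * C₀) ≤ C := by
              refine le_trans ?_ hCe
              gcongr
              norm_num
            gcongr
            linarith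
    rw [Real.rpow_neg hK0.le, ← mul_inv, inv_mul_le_iff₀ (by positivity)]
    exact h5

/-- sets commensurate with an embedded set of lattice points of a large convex body -/
theorem near_inj (C₀ : ℝ) (hC₀ : 1 ≤ C₀) : ∃ C : ℝ, 1 ≤ C ∧
    ∀ (G : Type) [AddCommGroup G] (K : ℝ) (A : Set G) (d : ℕ) (H : Type) [AddCommGroup H]
      (T : H →+ (Fin d → ℝ)) (B : Set (Fin d → ℝ)) (φ : H →+ G) (t : G),
      A.Finite → A.Nonempty → ((A + A).ncard : ℝ) ≤ K * A.ncard →
      Large T B → Function.Injective φ →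
      ((pts T B).ncard : ℝ) ≤ C₀ * K ^ C₀ * A.ncard →
      (A.ncard : ℝ) ≤ C₀ * K ^ C₀ * (A ∩ (fun x => t + φ x) '' pts T B).ncard →
      Concl C K A := by
  classical
  obtain ⟨C, hC, hnear⟩ := near (140 * C₀) (by linarith)
  refine ⟨C, hC, ?_⟩
  intro G _ K A d H _ T B φ t hA hne hdoub hL hφ hM hN
  have hA0 : (0 : ℝ) < A.ncard := by exact_mod_cast (Set.ncard_pos hA).2 hne
  have hK : 1 ≤ K := by
    have h1 : (A.ncard : ℝ) ≤ (A + A).ncard := by
      obtain ⟨a, ha⟩ := hne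
      have h2 : ((fun x => x + a) '' A).ncard ≤ (A + A).ncard := by
        apply Set.ncard_le_ncard _ (hA.add hA)
        rintro _ ⟨x, hx, rfl⟩
        exact Set.add_mem_add hx ha
      rw [Set.ncard_image_of_injective _ (add_left_injective a)] at h2
      exact_mod_cast h2
    have h2 : 1 * (A.ncard : ℝ) ≤ K * A.ncard := by linarith
    exact le_of_mul_le_mul_right h2 hA0
  have hK0 : 0 < K := by linarith
  have hlogK : 0 ≤ Real.log K := Real.log_nonneg hK
  have hC0 : 0 < C₀ := by linarith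
  -- the preimage
  have hpf : (pts T B ∩ (fun x => t + φ x) ⁻¹' A).Finite := hL.fin.subset Set.inter_subset_left
  set A2 : Finset H := hpf.toFinset with hA2
  have hA2c : A2.card = (A ∩ (fun x => t + φ x) '' pts T B).ncard := by
    have hinj2 : Function.Injective (fun x => t + φ x) := fun x y h => hφ (add_left_cancel h)
    rw [hA2, ← Set.ncard_eq_toFinset_card _ hpf, ← Set.ncard_image_of_injective _ hinj2]
    congr 1
    ext x
    constructor
    · rintro ⟨y, hy, rfl⟩
      exact ⟨hy.2, y, hy.1, rfl⟩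
    · rintro ⟨hx, y, hy, rfl⟩
      exact ⟨y, ⟨hy, hx⟩, rfl⟩
  rw [← hA2c] at hN
  have hKp : 0 < K ^ C₀ := by positivity
  have hA2pos : (0 : ℝ) < A2.card := by
    rcases Nat.eq_zero_or_pos A2.card with h | h
    · rw [h] at hN
      simp only [Nat.cast_zero, mul_zero] at hN
      linarith
    · exact_mod_cast h
  have hA2ne : A2.Nonempty := by
    rw [← Finset.card_pos]
    exact_mod_cast hA2pos
  have hsum : ((A2 + A2).card : ℝ) ≤ (A + A).ncard := by
    have h1 : (A2 + A2).card ≤ (A + A).ncard := by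
      have h2 : Function.Injective (fun x => (t + t) + φ x) := fun x y h => hφ (add_left_cancel h)
      rw [← Finset.card_image_of_injective _ h2, ← Set.ncard_coe_finset]
      apply Set.ncard_le_ncard _ (hA.add hA)
      intro x hx
      rw [Finset.coe_image] at hx
      obtain ⟨y, hy, rfl⟩ := hx
      rw [Finset.mem_coe, Finset.mem_add] at hy
      obtain ⟨b, hb, c, hc, rfl⟩ := hy
      rw [hA2, Set.Finite.mem_toFinset] at hb hc
      refine ⟨t + φ b, hb.2, t + φ c, hc.2, ?_⟩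
      simp only [map_add]
      abel
    exact_mod_cast h1
  set P : ℝ := C₀ * K ^ C₀ with hP
  have hP0 : 0 < P := by positivity
  have hlogd : (1 : ℝ) ≤ 1 + Real.logb 2 d := by
    have := Real.logb_nonneg (b := 2) (by norm_num) (show (1 : ℝ) ≤ d by exact_mod_cast hL.dim)
    linarith
  have hd1 : (1 : ℝ) ≤ d := by exact_mod_cast hL.dim
  have hdim := dim_bound hL.dim T hL.inj hL.body hL.fin
    (1 / (120 * (d : ℝ) ^ 5 * (1 + Real.logb 2 d))) (by positivity)
    (by
      by_cases h1 : d = 1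
      · exact Or.inl h1
      · right
        have h2 : (2 : ℝ) ≤ d := by
          have h0 := hL.dim
          have : 2 ≤ d := by omega
          exact_mod_cast this
        rw [mul_one_div, div_le_iff₀ (by positivity)]
        have h3 : (16 : ℝ) ≤ (d : ℝ) ^ 4 := by
          calc (16 : ℝ) = 2 ^ 4 := by norm_num
            _ ≤ (d : ℝ) ^ 4 := by gcongr
        have h4 : 120 * (d : ℝ) ^ 5 ≤ 120 * (d : ℝ) ^ 5 * (1 + Real.logb 2 d) :=
          le_mul_of_one_le_right (by positivity) hlogd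
        have h5 : 120 * (d : ℝ) ^ 5 = 120 * (d : ℝ) ^ 4 * d := by ring
        nlinarith)
    hL.cov A2 hA2ne
    (by
      intro x hx
      rw [hA2, Set.Finite.mem_toFinset] at hx
      exact hx.1)
    (P * P) (K * P)
    (by
      calc ((pts T B).ncard : ℝ) ≤ P * A.ncard := hM
        _ ≤ P * (P * A2.card) := by gcongr
        _ = P * P * A2.card := by ring)
    (by
      calc ((A2 + A2).card : ℝ) ≤ (A + A).ncard := hsum
        _ ≤ K * A.ncard := hdoub
        _ ≤ K * (P * A2.card) := by gcongr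
        _ = K * P * A2.card := by ring)
  have hlogP : Real.log P = Real.log C₀ + C₀ * Real.log K := by
    rw [hP, Real.log_mul hC0.ne' hKp.ne', Real.log_rpow hK0]
  have hd : (d : ℝ) ≤ (140 * C₀) * (1 + Real.log K) := by
    have h1 := Real.log_le_log (by positivity) hdim
    have h2 : Real.log (2 * (P * P) * (K * P) ^ 34)
        = Real.log 2 + 36 * Real.log P + 34 * Real.log K := by
      rw [Real.log_mul (by positivity) (by positivity), Real.log_mul (by norm_num) (by positivity),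
        Real.log_mul hP0.ne' hP0.ne', Real.log_pow, Real.log_mul hK0.ne' hP0.ne']
      push_cast
      ring
    rw [h2, Real.log_pow, hlogP] at h1
    have h3 : Real.log 2 ≤ 1 := by
      have := Real.log_two_lt_d9
      linarith
    have h4 : (1 : ℝ) / 2 ≤ Real.log 2 := by
      have := Real.log_two_gt_d9
      linarith
    have h5 : Real.log C₀ ≤ C₀ := by
      have := Real.log_le_sub_one_of_pos hC0
      linarith
    have h6 : (d : ℝ) * (1 / 2) ≤ d * Real.log 2 := by gcongr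
    have h7 : Real.log K ≤ C₀ * Real.log K := le_mul_of_one_le_left hlogK hC₀
    nlinarith
  have hPle : P ≤ 140 * C₀ * K ^ (140 * C₀) := by
    rw [hP]
    have h1 : K ^ C₀ ≤ K ^ (140 * C₀) := Real.rpow_le_rpow_of_exponent_le hK (by linarith)
    have h2 : C₀ ≤ 140 * C₀ := by linarith
    exact mul_le_mul h2 h1 hKp.le (by positivity)
  apply hnear G K A d H T B φ t hK hA hL hd
  · refine hM.trans ?_
    gcongr
  · rw [hA2c] at hN
    refine hN.trans ?_
    gcongr

lemma one_le_of_doubling {G : Type} [AddCommGroup G] {K : ℝ} {A : Set G} (hA : A.Finite)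
    (hne : A.Nonempty) (hdoub : ((A + A).ncard : ℝ) ≤ K * A.ncard) : 1 ≤ K := by
  have hA0 : (0 : ℝ) < A.ncard := by exact_mod_cast (Set.ncard_pos hA).2 hne
  have h1 : (A.ncard : ℝ) ≤ (A + A).ncard := by
    obtain ⟨a, ha⟩ := hne
    have h2 : ((fun x => x + a) '' A).ncard ≤ (A + A).ncard := by
      apply Set.ncard_le_ncard _ (hA.add hA)
      rintro _ ⟨x, hx, rfl⟩
      exact Set.add_mem_add hx ha
    rw [Set.ncard_image_of_injective _ (add_left_injective a)] at h2
    exact_mod_cast h2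
  have h2 : 1 * (A.ncard : ℝ) ≤ K * A.ncard := by linarith
  exact le_of_mul_le_mul_right h2 hA0

lemma Concl.mono {C C' K : ℝ} (hC : 1 ≤ C) (hCC : C ≤ C') (hK : 1 ≤ K) {G : Type}
    [AddCommGroup G] {A : Set G} (h : Concl C K A) : Concl C' K A := by
  obtain ⟨r, a, v, N, h1, h2, h3, h4, h5⟩ := h
  have hlog : 0 ≤ Real.log K := Real.log_nonneg hK
  have hK0 : 0 < K := by linarith
  have hC'0 : 0 ≤ C' := by linarith
  have hp : K ^ C ≤ K ^ C' := Real.rpow_le_rpow_of_exponent_le hK hCC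
  refine ⟨r, a, v, N, ?_, h2, h3, ?_, ?_⟩
  · refine h1.trans ?_
    gcongr
  · refine h4.trans ?_
    gcongr
  · refine le_trans ?_ h5
    rw [Real.rpow_neg hK0.le, Real.rpow_neg hK0.le]
    gcongr

/-- both cases together -/
theorem near_both (C₀ : ℝ) (hC₀ : 1 ≤ C₀) : ∃ C : ℝ, 1 ≤ C ∧
    ∀ (G : Type) [AddCommGroup G] (K : ℝ) (A : Set G) (d : ℕ) (H : Type) [AddCommGroup H]
      (T : H →+ (Fin d → ℝ)) (B : Set (Fin d → ℝ)) (φ : H →+ G) (t : G),
      A.Finite → A.Nonempty → ((A + A).ncard : ℝ) ≤ K * A.ncard →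
      Large T B → (Function.Injective φ ∨ (d : ℝ) ≤ C₀ * (1 + Real.log K)) →
      ((pts T B).ncard : ℝ) ≤ C₀ * K ^ C₀ * A.ncard →
      (A.ncard : ℝ) ≤ C₀ * K ^ C₀ * (A ∩ (fun x => t + φ x) '' pts T B).ncard →
      Concl C K A := by
  obtain ⟨C1, hC1, h1⟩ := near C₀ hC₀
  obtain ⟨C2, hC2, h2⟩ := near_inj C₀ hC₀
  refine ⟨max C1 C2, le_max_of_le_left hC1, ?_⟩
  intro G _ K A d H _ T B φ t hA hne hdoub hL hor hM hN
  have hK := one_le_of_doubling hA hne hdoub
  rcases hor with hφ | hd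
  · exact (h2 G K A d H T B φ t hA hne hdoub hL hφ hM hN).mono hC2 (le_max_right _ _) hK
  · exact (h1 G K A d H T B φ t hK hA hL hd hM hN).mono hC1 (le_max_left _ _) hK

end R124.IP
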