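import Pool.Agent.R124.IP.Body

set_option autoImplicit false

open MeasureTheory Matrix Set
open scoped Pointwise
open Pool.Agent.H845R2

namespace R124.IP

variable {d : ℕ}

/-- from coverings of convex sets to coverings of sets of lattice points -/
lemma transfer {H : Type} [AddCommGroup H] (T : H →+ (Fin d → ℝ)) (M M' : Set (Fin d → ℝ))
    (F : Finset (Fin d → ℝ)) (X : Set H) (hX : ∀ x ∈ X, ∃ f ∈ F, T x - f ∈ M)
    (hM : ∀ m ∈ M, ∀ n ∈ M, m - n ∈ M') :
    ∃ F' : Finset H, F'.card ≤ F.card ∧ ∀ x ∈ X, ∃ g ∈ F', T (x - g) ∈ M' := by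
  classical
  let g : (Fin d → ℝ) → H := fun f => if h : ∃ x ∈ X, T x - f ∈ M then h.choose else 0
  refine ⟨F.image g, Finset.card_image_le, ?_⟩
  intro x hx
  obtain ⟨f, hf, hfx⟩ := hX x hx
  have h : ∃ x ∈ X, T x - f ∈ M := ⟨x, hx, hfx⟩
  refine ⟨g f, Finset.mem_image_of_mem g hf, ?_⟩
  have h1 : g f = h.choose := dif_pos h
  have h2 := h.choose_spec.2
  rw [h1, map_sub]
  have h3 := hM _ hfx _ h2
  rwa [sub_sub_sub_cancel_right] at h3

/-- the elements whose image lies in `K` -/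
def pts {H : Type} [AddCommGroup H] (T : H →+ (Fin d → ℝ)) (K : Set (Fin d → ℝ)) : Set H :=
  {x | T x ∈ K}

lemma mem_smul_of_cb {K : Set (Fin d → ℝ)} (hK : CB K) {x y : Fin d → ℝ} (hx : x ∈ K) (hy : y ∈ K)
    (a b : ℝ) (ha : 0 ≤ a) (hb : 0 ≤ b) (hab : 0 < a + b) :
    a • x + b • y ∈ (a + b) • K := by
  refine ⟨(a / (a + b)) • x + (b / (a + b)) • y, hK.conv hx hy (by positivity) (by positivity)
    (by field_simp), ?_⟩
  simp only [smul_add, smul_smul]
  congr 2 <;> field_simp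

lemma vol_smul (K : Set (Fin d → ℝ)) (c : ℝ) (hc : 0 < c) :
    (volume (c • K)).toReal = c ^ d * (volume K).toReal := by
  rw [Measure.addHaar_smul, Module.finrank_fin_fun, abs_of_pos (by positivity), ENNReal.toReal_mul,
    ENNReal.toReal_ofReal (by positivity)]

/-- `L_{4K}` is covered by few translates of `L_K` -/
lemma cover_four {H : Type} [AddCommGroup H] (T : H →+ (Fin d → ℝ)) {K : Set (Fin d → ℝ)}
    (hK : CB K) : ∃ F : Finset H, F.card ≤ 17 ^ d ∧
      ∀ x ∈ pts T ((4 : ℝ) • K), ∃ g ∈ F, T (x - g) ∈ K := by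
  have hKpos : 0 < (volume K).toReal := ENNReal.toReal_pos hK.vol_pos.ne' hK.vol_lt.ne
  obtain ⟨F, -, hF1, hF2⟩ := vcover ((1 / 2 : ℝ) • K) ((4 : ℝ) • K) ((17 / 4 : ℝ) • K)
    (hK.conv.smul _)
    (by
      rintro _ ⟨k, hk, rfl⟩
      exact ⟨-k, hK.symm k hk, by simp⟩)
    (hK.meas.const_smul₀ _)
    (by
      rw [Measure.addHaar_smul]
      apply ENNReal.mul_pos
      · simp
      · exact hK.vol_pos.ne')
    (by
      rw [Measure.addHaar_smul]
      exact ENNReal.mul_ne_top (by simp) hK.vol_lt.ne)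
    (by
      rintro _ ⟨k, hk, rfl⟩ _ ⟨l, hl, rfl⟩
      have := mem_smul_of_cb hK hk hl 4 (1 / 4) (by norm_num) (by norm_num) (by norm_num)
      simp only [smul_smul]
      norm_num at this ⊢
      exact this)
  obtain ⟨F', hF'1, hF'2⟩ := transfer T ((1 / 2 : ℝ) • K) K F (pts T ((4 : ℝ) • K))
    (fun x hx => hF2 _ hx)
    (by
      rintro _ ⟨k, hk, rfl⟩ _ ⟨l, hl, rfl⟩
      have := hK.conv hk (hK.symm l hl) (show (0 : ℝ) ≤ 1 / 2 by norm_num)
        (show (0 : ℝ) ≤ 1 / 2 by norm_num) (by norm_num)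
      simp only
      rw [sub_eq_add_neg, ← smul_neg]
      exact this)
  refine ⟨F', ?_, hF'2⟩
  rw [vol_smul K _ (by norm_num), vol_smul K _ (by norm_num)] at hF1
  have h1 : (F.card : ℝ) ≤ 17 ^ d := by
    have h2 : (F.card : ℝ) * ((1 / 2) ^ d * (volume K).toReal)
        ≤ 17 ^ d * ((1 / 2) ^ d * (volume K).toReal) := by
      refine hF1.trans (le_of_eq ?_)
      rw [← mul_assoc, ← mul_assoc, ← mul_pow, ← mul_pow]
      norm_num
    exact le_of_mul_le_mul_right h2 (by positivity)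
  have h2 : F.card ≤ 17 ^ d := by exact_mod_cast h1
  omega

end R124.IP
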