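import Pool.Agent.R124.IP.Cells

set_option autoImplicit false

open MeasureTheory Matrix Set
open scoped Pointwise
open Pool.Agent.H845R2

namespace R124.IP

variable {d : ℕ}

lemma zero_mem {K : Set (Fin d → ℝ)} (hK : CB K) : (0 : Fin d → ℝ) ∈ K := by
  obtain ⟨r, hr, h⟩ := hK.exists_r
  exact h (Metric.mem_closedBall_self hr.le)

lemma cross {K : Set (Fin d → ℝ)} (hK : CB K) (u : Fin d → Fin d → ℝ) (hu : ∀ j, u j ∈ K)
    (z : Fin d → ℝ) (hz : ∑ i, |z i| ≤ 1) : ∑ j, z j • u j ∈ K := by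
  by_cases hs : ∑ i, |z i| = 0
  · have h1 : ∀ j, z j = 0 := by
      intro j
      have := (Finset.sum_eq_zero_iff_of_nonneg (fun i _ => abs_nonneg (z i))).1 hs j
        (Finset.mem_univ j)
      exact abs_eq_zero.1 this
    have h2 : ∑ j, z j • u j = 0 := Finset.sum_eq_zero (fun j _ => by rw [h1 j, zero_smul])
    rw [h2]
    exact zero_mem hK
  · have hs0 : 0 < ∑ i, |z i| :=
      lt_of_le_of_ne (Finset.sum_nonneg fun i _ => abs_nonneg _) (Ne.symm hs)
    set s := ∑ i, |z i| with hsdef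
    have h1 : ∑ j, (|z j| / s) • (SignType.sign (z j) : ℝ) • u j ∈ K := by
      apply hK.conv.sum_mem
      · intro i _; positivity
      · rw [← Finset.sum_div, ← hsdef, div_self hs]
      · intro i _
        rcases lt_trichotomy (z i) 0 with h | h | h
        · rw [sign_neg h]
          simpa using hK.symm _ (hu i)
        · rw [h]
          simpa using zero_mem hK
        · rw [sign_pos h]
          simpa using hu i
    have h2 := hK.conv.smul_mem_of_zero_mem (zero_mem hK) h1 (t := s) ⟨hs0.le, hz⟩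
    have h3 : s • ∑ j, (|z j| / s) • (SignType.sign (z j) : ℝ) • u j = ∑ j, z j • u j := by
      rw [Finset.smul_sum]
      refine Finset.sum_congr rfl (fun j _ => ?_)
      rw [smul_smul, smul_smul, mul_div_cancel₀ _ hs, mul_comm, sign_mul_abs]
    rwa [h3] at h2

lemma auerbach {K : Set (Fin d → ℝ)} (hK : CB K) :
    ∃ U : Matrix (Fin d) (Fin d) ℝ, U.det ≠ 0 ∧ (∀ x ∈ K, ∀ i, |(U⁻¹ *ᵥ x) i| ≤ 1) ∧
      ∀ z : Fin d → ℝ, ∑ i, |z i| ≤ 1 → U *ᵥ z ∈ K := by
  classical
  obtain ⟨r, hr, hball⟩ := hK.exists_r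
  have hcpt : IsCompact (Set.pi univ (fun _ : Fin d => K)) := isCompact_univ_pi fun _ => hK.comp
  have hcont : Continuous (fun u : Fin d → Fin d → ℝ => |(Matrix.of u).det|) := by
    apply Continuous.abs
    exact Continuous.matrix_det continuous_id
  have hmem : (fun i => Pi.single i r : Fin d → Fin d → ℝ) ∈ Set.pi univ (fun _ : Fin d => K) := by
    intro i _
    apply hball
    rw [mem_closedBall_zero_iff, Pi.norm_single, Real.norm_of_nonneg hr.le]
  obtain ⟨u, hu, hmax⟩ := hcpt.exists_isMaxOn ⟨_, hmem⟩ hcont.continuousOn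
  have hu' : ∀ j, u j ∈ K := fun j => hu j (mem_univ j)
  have hpos : 0 < |(Matrix.of u).det| := by
    refine lt_of_lt_of_le ?_ (hmax hmem)
    have h1 : (Matrix.of (fun i => Pi.single i r : Fin d → Fin d → ℝ)) = Matrix.diagonal (fun _ => r) := by
      ext i j
      rw [Matrix.of_apply, Matrix.diagonal_apply, Pi.single_apply]
      simp [eq_comm]
    simp only [h1, Matrix.det_diagonal, Finset.prod_const]
    positivity
  set U : Matrix (Fin d) (Fin d) ℝ := (Matrix.of u)ᵀ with hU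
  have hdet : U.det = (Matrix.of u).det := Matrix.det_transpose _
  have hU0 : U.det ≠ 0 := by
    rw [hdet]
    exact abs_pos.1 hpos
  refine ⟨U, hU0, ?_, ?_⟩
  · intro x hx i
    have h1 : Matrix.cramer U x = U.det • (U⁻¹ *ᵥ x) := by
      have h2 := Matrix.mulVec_cramer U x
      have h3 := congrArg (fun y => U⁻¹ *ᵥ y) h2
      simp only [Matrix.mulVec_mulVec] at h3
      rw [Matrix.nonsing_inv_mul _ (isUnit_iff_ne_zero.2 hU0), Matrix.one_mulVec,
        Matrix.mulVec_smul] at h3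
      exact h3
    have h2 : |Matrix.cramer U x i| ≤ |U.det| := by
      rw [Matrix.cramer_apply]
      have h3 : U.updateCol i x = (Matrix.of (Function.update u i x))ᵀ := by
        ext a b
        rw [Matrix.updateCol_apply, Matrix.transpose_apply, Matrix.of_apply]
        by_cases hb : b = i
        · subst hb; simp
        · rw [if_neg hb, Function.update_of_ne hb, hU, Matrix.transpose_apply, Matrix.of_apply]
      rw [h3, Matrix.det_transpose, hdet]
      apply hmax
      intro j _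
      by_cases hj : j = i
      · subst hj; simpa using hx
      · rw [Function.update_of_ne hj]; exact hu' j
    rw [h1, Pi.smul_apply, smul_eq_mul, abs_mul] at h2
    have h3 : 0 < |U.det| := abs_pos.2 hU0
    nlinarith
  · intro z hz
    have h1 : U *ᵥ z = ∑ j, z j • u j := by
      funext i
      rw [Matrix.mulVec, dotProduct, Finset.sum_apply]
      refine Finset.sum_congr rfl (fun j _ => ?_)
      rw [hU, Matrix.transpose_apply, Matrix.of_apply, Pi.smul_apply, smul_eq_mul, mul_comm]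
    rw [h1]
    exact cross hK u hu' z hz

/-- an orthogonal matrix that diagonalises the form of the Auerbach parallelepiped -/
lemma sandwich {K : Set (Fin d → ℝ)} (hK : CB K) (hd : 1 ≤ d) :
    ∃ (V : Matrix (Fin d) (Fin d) ℝ) (a : Fin d → ℝ), Vᵀ * V = 1 ∧ V * Vᵀ = 1 ∧ (∀ i, 0 < a i) ∧
      (∀ y ∈ V.mulVec '' K, ∀ i, |y i| ≤ Real.sqrt d * a i) ∧
      ∀ y : Fin d → ℝ, (∀ i, |y i| ≤ a i / (d * Real.sqrt d)) → y ∈ V.mulVec '' K := by
  classical
  have hd0 : (0 : ℝ) < d := by exact_mod_cast hd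
  have hsd : 0 < Real.sqrt d := Real.sqrt_pos.2 hd0
  have hsq : Real.sqrt d * Real.sqrt d = d := Real.mul_self_sqrt hd0.le
  obtain ⟨U, hU0, hU1, hU2⟩ := auerbach hK
  set A : Matrix (Fin d) (Fin d) ℝ := (U⁻¹)ᵀ * U⁻¹ with hA
  have hAh : A.IsHermitian := by
    rw [hA, Matrix.IsHermitian, Matrix.conjTranspose_eq_transpose_of_trivial,
      Matrix.transpose_mul, Matrix.transpose_transpose]
  set W : Matrix (Fin d) (Fin d) ℝ := (hAh.eigenvectorUnitary : Matrix (Fin d) (Fin d) ℝ) with hW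
  have hW1 : Wᵀ * W = 1 := by
    have := Unitary.coe_star_mul_self hAh.eigenvectorUnitary
    rwa [Matrix.star_eq_conjTranspose, Matrix.conjTranspose_eq_transpose_of_trivial] at this
  have hW2 : W * Wᵀ = 1 := mul_eq_one_comm.1 hW1
  have hWW : ∀ y : Fin d → ℝ, Wᵀ *ᵥ (W *ᵥ y) = y := fun y => by
    rw [Matrix.mulVec_mulVec, hW1, Matrix.one_mulVec]
  set l : Fin d → ℝ := hAh.eigenvalues with hl
  have hspec : A = W * Matrix.diagonal l * Wᵀ := by
    have := hAh.spectral_theorem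
    rw [Unitary.conjStarAlgAut_apply, Matrix.star_eq_conjTranspose,
      Matrix.conjTranspose_eq_transpose_of_trivial] at this
    exact this
  -- the form
  have hform : ∀ x : Fin d → ℝ, ∑ i, ((U⁻¹ *ᵥ x) i) ^ 2 = ∑ i, l i * ((Wᵀ *ᵥ x) i) ^ 2 := by
    intro x
    have h1 : (U⁻¹ *ᵥ x) ⬝ᵥ (U⁻¹ *ᵥ x) = x ⬝ᵥ (A *ᵥ x) := by
      rw [hA, ← Matrix.mulVec_mulVec, Matrix.dotProduct_mulVec x, Matrix.vecMul_transpose]
    have h2 : x ⬝ᵥ (A *ᵥ x) = (Wᵀ *ᵥ x) ⬝ᵥ (Matrix.diagonal l *ᵥ (Wᵀ *ᵥ x)) := by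
      rw [hspec, ← Matrix.mulVec_mulVec, ← Matrix.mulVec_mulVec, Matrix.dotProduct_mulVec x,
        ← Matrix.mulVec_transpose]
    have h3 : (U⁻¹ *ᵥ x) ⬝ᵥ (U⁻¹ *ᵥ x) = ∑ i, ((U⁻¹ *ᵥ x) i) ^ 2 := by
      rw [dotProduct]
      exact Finset.sum_congr rfl (fun i _ => by ring)
    have h4 : (Wᵀ *ᵥ x) ⬝ᵥ (Matrix.diagonal l *ᵥ (Wᵀ *ᵥ x)) = ∑ i, l i * ((Wᵀ *ᵥ x) i) ^ 2 := by
      rw [dotProduct]
      refine Finset.sum_congr rfl (fun i _ => ?_)
      rw [Matrix.mulVec_diagonal]
      ring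
    rw [← h3, h1, h2, h4]
  have hlpos : ∀ i, 0 < l i := by
    intro i
    have h1 := hform (W *ᵥ Pi.single i 1)
    rw [hWW] at h1
    have h2 : ∑ j, l j * ((Pi.single i (1 : ℝ) : Fin d → ℝ) j) ^ 2 = l i := by
      rw [Finset.sum_eq_single i]
      · simp
      · intro j _ hj
        rw [Pi.single_eq_of_ne hj]; ring
      · simp
    rw [h2] at h1
    rw [← h1]
    have h3 : U⁻¹ *ᵥ (W *ᵥ Pi.single i 1) ≠ 0 := by
      intro h
      have h4 := congrArg (fun y => Wᵀ *ᵥ (U *ᵥ y)) h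
      simp only [Matrix.mulVec_mulVec] at h4
      rw [← Matrix.mul_assoc, ← Matrix.mul_assoc, Matrix.mul_assoc Wᵀ U,
        Matrix.mul_nonsing_inv _ (isUnit_iff_ne_zero.2 hU0), Matrix.mul_one, hW1,
        Matrix.one_mulVec, Matrix.mulVec_zero] at h4
      have := congrFun h4 i
      simp at this
    obtain ⟨j, hj⟩ := Function.ne_iff.1 h3
    apply Finset.sum_pos'
    · intro k _; positivity
    · exact ⟨j, Finset.mem_univ j, by
        have : (U⁻¹ *ᵥ (W *ᵥ Pi.single i 1)) j ≠ 0 := hj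
        positivity⟩
  refine ⟨Wᵀ, fun i => 1 / Real.sqrt (l i), ?_, ?_, ?_, ?_, ?_⟩
  · rw [Matrix.transpose_transpose]; exact hW2
  · rw [Matrix.transpose_transpose]; exact hW1
  · intro i
    have := Real.sqrt_pos.2 (hlpos i)
    positivity
  · rintro _ ⟨x, hx, rfl⟩ i
    have h1 := hform x
    have h2 : ∑ i, ((U⁻¹ *ᵥ x) i) ^ 2 ≤ d := by
      calc ∑ i, ((U⁻¹ *ᵥ x) i) ^ 2 ≤ ∑ _i : Fin d, (1 : ℝ) := by
            apply Finset.sum_le_sum
            intro j _
            have h3 := hU1 x hx j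
            rw [← sq_abs]
            have h4 := abs_nonneg ((U⁻¹ *ᵥ x) j)
            nlinarith
        _ = d := by simp
    have h3 : l i * ((Wᵀ *ᵥ x) i) ^ 2 ≤ d := by
      refine le_trans ?_ h2
      rw [h1]
      exact Finset.single_le_sum (f := fun i => l i * ((Wᵀ *ᵥ x) i) ^ 2)
        (fun j _ => mul_nonneg (hlpos j).le (sq_nonneg _)) (Finset.mem_univ i)
    have h4 : Real.sqrt (l i) * |(Wᵀ *ᵥ x) i| ≤ Real.sqrt d := by
      rw [← Real.sqrt_sq_eq_abs, ← Real.sqrt_mul (hlpos i).le]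
      exact Real.sqrt_le_sqrt h3
    have h5 := Real.sqrt_pos.2 (hlpos i)
    show |(Wᵀ *ᵥ x) i| ≤ Real.sqrt d * (1 / Real.sqrt (l i))
    rw [mul_one_div, le_div_iff₀ h5, mul_comm]
    exact h4
  · intro y hy
    refine ⟨W *ᵥ y, ?_, ?_⟩
    · have h1 := hform (W *ᵥ y)
      rw [hWW] at h1
      set z := U⁻¹ *ᵥ (W *ᵥ y) with hz
      have h2 : ∑ i, (z i) ^ 2 ≤ 1 / d ^ 2 := by
        rw [h1]
        calc ∑ i, l i * (y i) ^ 2 ≤ ∑ _i : Fin d, 1 / (d : ℝ) ^ 3 := by
              apply Finset.sum_le_sum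
              intro i _
              have h3 := hy i
              have h5 := Real.sqrt_pos.2 (hlpos i)
              have h6 : |y i| ^ 2 ≤ (1 / Real.sqrt (l i) / (d * Real.sqrt d)) ^ 2 := by
                have := abs_nonneg (y i)
                gcongr
              rw [sq_abs] at h6
              have h7 : l i * (1 / Real.sqrt (l i) / (d * Real.sqrt d)) ^ 2 = 1 / (d : ℝ) ^ 3 := by
                rw [div_pow, div_pow, mul_pow, Real.sq_sqrt (hlpos i).le, Real.sq_sqrt hd0.le]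
                have := (hlpos i).ne'
                field_simp
              calc l i * (y i) ^ 2 ≤ l i * (1 / Real.sqrt (l i) / (d * Real.sqrt d)) ^ 2 :=
                    mul_le_mul_of_nonneg_left h6 (hlpos i).le
                _ = _ := h7
          _ = 1 / d ^ 2 := by
              rw [Finset.sum_const, Finset.card_univ, Fintype.card_fin, nsmul_eq_mul]
              field_simp
      have h3 : ∀ i, |z i| ≤ 1 / d := by
        intro i
        have h4 : (z i) ^ 2 ≤ (1 / d) ^ 2 := by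
          have h5 : (z i) ^ 2 ≤ ∑ i, (z i) ^ 2 :=
            Finset.single_le_sum (f := fun i => (z i) ^ 2) (fun j _ => sq_nonneg _)
              (Finset.mem_univ i)
          refine (h5.trans h2).trans (le_of_eq ?_)
          rw [div_pow, one_pow]
        exact abs_le_of_sq_le_sq h4 (by positivity)
      have h4 : ∑ i, |z i| ≤ 1 := by
        calc ∑ i, |z i| ≤ ∑ _i : Fin d, 1 / (d : ℝ) := Finset.sum_le_sum fun i _ => h3 i
          _ = 1 := by
              rw [Finset.sum_const, Finset.card_univ, Fintype.card_fin, nsmul_eq_mul]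
              field_simp
      have h5 := hU2 z h4
      rwa [hz, Matrix.mulVec_mulVec _ U, Matrix.mul_nonsing_inv _ (isUnit_iff_ne_zero.2 hU0),
        Matrix.one_mulVec] at h5
    · show Wᵀ *ᵥ (W *ᵥ y) = y
      rw [Matrix.mulVec_mulVec, hW1, Matrix.one_mulVec]

end R124.IP
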