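import Pool.Agent.H845R2.MP2

set_option autoImplicit false

open MeasureTheory Matrix Set
open scoped Pointwise
open Pool.Agent.H845R2

namespace R124.IP

variable {d : ℕ}

lemma cb_image {K : Set (Fin d → ℝ)} (hK : CB K) (S : Matrix (Fin d) (Fin d) ℝ)
    (hS : S.det ≠ 0) : CB (S.mulVec '' K) where
  comp := hK.comp.image (by fun_prop)
  conv := hK.conv.linear_image S.mulVecLin
  symm := by
    rintro _ ⟨x, hx, rfl⟩
    exact ⟨-x, hK.symm x hx, by rw [Matrix.mulVec_neg]⟩
  int := by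
    have hsurj : Function.Surjective S.mulVecLin := by
      intro y
      refine ⟨S⁻¹ *ᵥ y, ?_⟩
      rw [Matrix.mulVecLin_apply, Matrix.mulVec_mulVec,
        Matrix.mul_nonsing_inv _ (isUnit_iff_ne_zero.2 hS), Matrix.one_mulVec]
    have ho : IsOpenMap S.mulVecLin := LinearMap.isOpenMap_of_finiteDimensional _ hsurj
    obtain ⟨x, hx⟩ := hK.int
    refine ⟨S.mulVec x, ?_⟩
    rw [mem_interior]
    refine ⟨S.mulVecLin '' interior K, ?_, ho _ isOpen_interior, ⟨x, hx, rfl⟩⟩
    rintro _ ⟨z, hz, rfl⟩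
    exact ⟨z, interior_subset hz, rfl⟩

lemma vol_aff (f : Fin d → ℝ) (c : ℝ) (hc : 0 < c) (M : Set (Fin d → ℝ)) :
    volume ((fun m => f + c • m) '' M) = ENNReal.ofReal (c ^ d) * volume M := by
  have h1 : (fun m => f + c • m) '' M = (fun x => f + x) '' (c • M) := by
    rw [← Set.image_smul, Set.image_image]
  rw [h1, Set.image_add_left, measure_preimage_add, Measure.addHaar_smul]
  congr 2
  rw [Module.finrank_fin_fun, abs_of_pos (by positivity)]

/-- volumetric covering -/
lemma vcover (M X Y : Set (Fin d → ℝ)) (hMc : Convex ℝ M) (hMs : ∀ x ∈ M, -x ∈ M)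
    (hMm : MeasurableSet M) (hM0 : 0 < volume M) (hY : volume Y ≠ ⊤)
    (hXY : ∀ x ∈ X, ∀ m ∈ M, x + (1 / 2 : ℝ) • m ∈ Y) :
    ∃ F : Finset (Fin d → ℝ), (F : Set (Fin d → ℝ)) ⊆ X ∧
      (F.card : ℝ) * (volume M).toReal ≤ 2 ^ d * (volume Y).toReal ∧
      ∀ x ∈ X, ∃ f ∈ F, x - f ∈ M := by
  classical
  have hMne : M.Nonempty := by
    by_contra h
    rw [Set.not_nonempty_iff_eq_empty] at h
    rw [h, measure_empty] at hM0
    exact lt_irrefl _ hM0
  have h0M : (0 : Fin d → ℝ) ∈ M := by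
    obtain ⟨m, hm⟩ := hMne
    have := hMc hm (hMs m hm) (show (0 : ℝ) ≤ 1 / 2 by norm_num)
      (show (0 : ℝ) ≤ 1 / 2 by norm_num) (by norm_num)
    simpa using this
  by_cases hX : X.Nonempty
  swap
  · rw [Set.not_nonempty_iff_eq_empty] at hX
    subst hX
    exact ⟨∅, by simp, by simp, by simp⟩
  have hMtop : volume M ≠ ⊤ := by
    obtain ⟨x, hx⟩ := hX
    have h1 : (fun m => x + (1 / 2 : ℝ) • m) '' M ⊆ Y := by
      rintro _ ⟨m, hm, rfl⟩
      exact hXY x hx m hm
    have h2 := measure_mono h1 (μ := volume)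
    rw [vol_aff x (1 / 2) (by norm_num) M] at h2
    intro h3
    rw [h3, ENNReal.mul_top (by simp)] at h2
    exact hY (top_le_iff.1 h2)
  have hMr : 0 < (volume M).toReal := ENNReal.toReal_pos hM0.ne' hMtop
  let P : Finset (Fin d → ℝ) → Prop := fun F =>
    (F : Set (Fin d → ℝ)) ⊆ X ∧ ∀ f ∈ F, ∀ g ∈ F, f ≠ g → f - g ∉ M
  have hbound : ∀ F, P F → (F.card : ℝ) * (volume M).toReal ≤ 2 ^ d * (volume Y).toReal := by
    rintro F ⟨hF1, hF2⟩
    have hdisj : (F : Set (Fin d → ℝ)).PairwiseDisjoint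
        (fun f => (fun m => f + (1 / 2 : ℝ) • m) '' M) := by
      intro f hf g hg hfg
      rw [Function.onFun, Set.disjoint_left]
      rintro z ⟨m, hm, rfl⟩ ⟨n, hn, hz⟩
      apply hF2 f hf g hg hfg
      have h1 : f - g = (1 / 2 : ℝ) • n + (1 / 2 : ℝ) • (-m) := by
        simp only at hz
        rw [smul_neg, ← sub_eq_add_neg, sub_eq_sub_iff_add_eq_add, add_comm _ g]
        exact hz.symm
      rw [h1]
      exact hMc hn (hMs m hm) (by norm_num) (by norm_num) (by norm_num)
    have hmeas : ∀ f ∈ F, MeasurableSet ((fun m => f + (1 / 2 : ℝ) • m) '' M) := by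
      intro f _
      have h1 : (fun m => f + (1 / 2 : ℝ) • m) '' M = (fun x => f + x) '' ((1 / 2 : ℝ) • M) := by
        rw [← Set.image_smul, Set.image_image]
      rw [h1, Set.image_add_left]
      exact (measurable_const_add (-f)) (hMm.const_smul₀ _)
    have h1 := measure_biUnion_finset hdisj hmeas (μ := volume)
    have h2 : (⋃ f ∈ F, (fun m => f + (1 / 2 : ℝ) • m) '' M) ⊆ Y := by
      intro z hz
      simp only [Set.mem_iUnion] at hz
      obtain ⟨f, hf, m, hm, rfl⟩ := hz
      exact hXY f (hF1 hf) m hm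
    have h3 := measure_mono h2 (μ := volume)
    rw [h1] at h3
    simp only [vol_aff _ (1 / 2 : ℝ) (by norm_num) M, Finset.sum_const, nsmul_eq_mul] at h3
    have h4 := ENNReal.toReal_mono hY h3
    rw [ENNReal.toReal_mul, ENNReal.toReal_mul, ENNReal.toReal_ofReal (by positivity),
      ENNReal.toReal_natCast] at h4
    have h5 : (2 : ℝ) ^ d * ((F.card : ℝ) * ((1 / 2) ^ d * (volume M).toReal))
        = (F.card : ℝ) * (volume M).toReal := by
      have : (2 : ℝ) ^ d * (1 / 2) ^ d = 1 := by rw [← mul_pow]; norm_num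
      calc (2 : ℝ) ^ d * ((F.card : ℝ) * ((1 / 2) ^ d * (volume M).toReal))
          = (2 ^ d * (1 / 2) ^ d) * ((F.card : ℝ) * (volume M).toReal) := by ring
        _ = _ := by rw [this, one_mul]
    rw [← h5]
    exact mul_le_mul_of_nonneg_left h4 (by positivity)
  set S : Set ℕ := {n | ∃ F, P F ∧ F.card = n} with hS
  have hSne : S.Nonempty := ⟨0, ∅, ⟨by simp, by simp⟩, by simp⟩
  have hSbdd : BddAbove S := by
    refine ⟨⌊2 ^ d * (volume Y).toReal / (volume M).toReal⌋₊, ?_⟩
    rintro n ⟨F, hF, rfl⟩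
    apply Nat.le_floor
    rw [le_div_iff₀ hMr]
    exact hbound F hF
  obtain ⟨F, hF, hFc⟩ := Nat.sSup_mem hSne hSbdd
  refine ⟨F, hF.1, hbound F hF, ?_⟩
  intro x hx
  by_contra hcon
  push Not at hcon
  have hxF : x ∉ F := by
    intro h
    exact hcon x h (by simpa using h0M)
  have h1 : P (insert x F) := by
    refine ⟨?_, ?_⟩
    · rw [Finset.coe_insert]
      exact Set.insert_subset hx hF.1
    · intro f hf g hg hfg
      rw [Finset.mem_insert] at hf hg
      rcases hf with rfl | hf <;> rcases hg with rfl | hg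
      · exact absurd rfl hfg
      · exact hcon g hg
      · intro h
        apply hcon f hf
        have := hMs _ h
        rwa [neg_sub] at this
      · exact hF.2 f hf g hg hfg
  have h2 : (insert x F).card ≤ sSup S := le_csSup hSbdd ⟨_, h1, rfl⟩
  rw [Finset.card_insert_of_notMem hxF] at h2
  omega

end R124.IP
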